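import Mathlib

set_option autoImplicit false

namespace Pool.Agent.Helper241.BQ

open Module

theorem par2 {x y a g a' g' : ℝ} (hxy : x ≠ 0 ∨ y ≠ 0) (h : x * a + y * g = 0)
    (h' : x * a' + y * g' = 0) : a * g' - a' * g = 0 := by
  rcases hxy with hx | hy
  · have : x * (a * g' - a' * g) = 0 := by linear_combination g' * h - g * h'
    exact (mul_eq_zero.1 this).resolve_left hx
  · have : y * (a * g' - a' * g) = 0 := by linear_combination -a' * h + a * h'
    exact (mul_eq_zero.1 this).resolve_left hy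

/-- Four vectors of the plane with equal nonzero pairwise inner products are not distinct. -/
theorem planar (a g : Fin 4 → ℝ) (κ : ℝ) (hκ : κ ≠ 0)
    (h : ∀ i j, i ≠ j → a i * a j + g i * g j = κ) :
    ∃ i j, i ≠ j ∧ a i = a j ∧ g i = g j := by
  by_contra hcon
  push Not at hcon
  have hd : ∀ i j, i ≠ j → (a i - a j ≠ 0 ∨ g i - g j ≠ 0) := by
    intro i j hij
    by_cases h1 : a i = a j
    · right
      exact sub_ne_zero.2 (hcon i j hij h1)
    · left
      exact sub_ne_zero.2 h1
  have e01 := par2 (hd 2 3 (by decide))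
    (a := a 0) (g := g 0) (a' := a 1) (g' := g 1)
    (by linear_combination h 2 0 (by decide) - h 3 0 (by decide))
    (by linear_combination h 2 1 (by decide) - h 3 1 (by decide))
  have e02 := par2 (hd 1 3 (by decide))
    (a := a 0) (g := g 0) (a' := a 2) (g' := g 2)
    (by linear_combination h 1 0 (by decide) - h 3 0 (by decide))
    (by linear_combination h 1 2 (by decide) - h 3 2 (by decide))
  have hz : (a 0 ^ 2 + g 0 ^ 2) * ((a 1 - a 2) ^ 2 + (g 1 - g 2) ^ 2) = 0 := by
    have h1 := h 0 1 (by decide)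
    have h2 := h 0 2 (by decide)
    have h3 : a 0 * (a 1 - a 2) + g 0 * (g 1 - g 2) = 0 := by linear_combination h1 - h2
    have h4 : a 0 * (g 1 - g 2) - (a 1 - a 2) * g 0 = 0 := by linear_combination e01 - e02
    linear_combination (a 0 * (a 1 - a 2) + g 0 * (g 1 - g 2)) * h3 +
      (a 0 * (g 1 - g 2) - (a 1 - a 2) * g 0) * h4
  rcases mul_eq_zero.1 hz with h0 | h0
  · have h1 : a 0 = 0 := by nlinarith [sq_nonneg (a 0), sq_nonneg (g 0)]
    have h2 : g 0 = 0 := by nlinarith [sq_nonneg (a 0), sq_nonneg (g 0)]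
    have h3 := h 0 1 (by decide)
    rw [h1, h2] at h3
    exact hκ (by linarith)
  · have h1 : a 1 - a 2 = 0 := by nlinarith [sq_nonneg (a 1 - a 2), sq_nonneg (g 1 - g 2)]
    have h2 : g 1 - g 2 = 0 := by nlinarith [sq_nonneg (a 1 - a 2), sq_nonneg (g 1 - g 2)]
    rcases hd 1 2 (by decide) with h3 | h3
    · exact h3 h1
    · exact h3 h2

/-- In the plane: if two of four vectors with pairwise inner product `κ ≠ 0` agree, then at least
three of them agree. -/
theorem planar3 (a g : Fin 4 → ℝ) (κ : ℝ) (hκ : κ ≠ 0)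
    (h : ∀ i j, i ≠ j → a i * a j + g i * g j = κ) :
    ∃ k : Fin 4, ∀ i j, i ≠ k → j ≠ k → a i = a j ∧ g i = g j := by
  obtain ⟨i, j, hij, ha, hg⟩ := planar a g κ hκ h
  have key : ∀ k l : Fin 4, k ≠ i → k ≠ j → l ≠ i → l ≠ j → k ≠ l →
      (a k = a i ∧ g k = g i) ∨ (a l = a i ∧ g l = g i) := by
    intro k l hki hkj hli hlj hkl
    have hii : a i * a i + g i * g i = κ := by
      have := h i j hij
      rw [← ha, ← hg] at this
      exact this
    have h1 := h i k hki.symm
    have h2 := h i l hli.symm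
    have h3 := h k l hkl
    have n0 : a i ≠ 0 ∨ g i ≠ 0 := by
      by_contra hc
      push Not at hc
      rw [hc.1, hc.2] at hii
      exact hκ (by linarith)
    -- `d = P_k - P_i`, `e = P_l - P_i` orthogonal to `P_i` and to each other
    have d1 : a i * (a k - a i) + g i * (g k - g i) = 0 := by linear_combination h1 - hii
    have d2 : a i * (a l - a i) + g i * (g l - g i) = 0 := by linear_combination h2 - hii
    have d3 : (a k - a i) * (a l - a i) + (g k - g i) * (g l - g i) = 0 := by
      linear_combination h3 - h1 - h2 + hii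
    have d4 := par2 n0 d1 d2
    have hz : ((a k - a i) ^ 2 + (g k - g i) ^ 2) * ((a l - a i) ^ 2 + (g l - g i) ^ 2) = 0 := by
      linear_combination ((a k - a i) * (a l - a i) + (g k - g i) * (g l - g i)) * d3 +
        ((a k - a i) * (g l - g i) - (a l - a i) * (g k - g i)) * d4
    rcases mul_eq_zero.1 hz with h0 | h0
    · left
      constructor
      · nlinarith [sq_nonneg (a k - a i), sq_nonneg (g k - g i)]
      · nlinarith [sq_nonneg (a k - a i), sq_nonneg (g k - g i)]
    · right
      constructor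
      · nlinarith [sq_nonneg (a l - a i), sq_nonneg (g l - g i)]
      · nlinarith [sq_nonneg (a l - a i), sq_nonneg (g l - g i)]
  have hkl : ∀ i j : Fin 4, i ≠ j → ∃ k l : Fin 4, k ≠ i ∧ k ≠ j ∧ l ≠ i ∧ l ≠ j ∧ k ≠ l ∧
      (∀ m, m = i ∨ m = j ∨ m = k ∨ m = l) := by decide
  obtain ⟨k, l, hki, hkj, hli, hlj, hkl', hall⟩ := hkl i j hij
  rcases key k l hki hkj hli hlj hkl' with hk | hl
  · refine ⟨l, fun m m' hm hm' => ?_⟩
    have hh : ∀ m, m ≠ l → a m = a i ∧ g m = g i := by
      intro m hm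
      rcases hall m with rfl | rfl | rfl | rfl
      · exact ⟨rfl, rfl⟩
      · exact ⟨ha.symm, hg.symm⟩
      · exact hk
      · exact absurd rfl hm
    exact ⟨(hh m hm).1.trans (hh m' hm').1.symm, (hh m hm).2.trans (hh m' hm').2.symm⟩
  · refine ⟨k, fun m m' hm hm' => ?_⟩
    have hh : ∀ m, m ≠ k → a m = a i ∧ g m = g i := by
      intro m hm
      rcases hall m with rfl | rfl | rfl | rfl
      · exact ⟨rfl, rfl⟩
      · exact ⟨ha.symm, hg.symm⟩
      · exact absurd rfl hm
      · exact hl
    exact ⟨(hh m hm).1.trans (hh m' hm').1.symm, (hh m hm).2.trans (hh m' hm').2.symm⟩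

theorem four (A G : Fin 4 → ℝ)
    (h1 : ∀ i, 4 * A i ^ 2 + 4 * (1 / 4 - A i) ^ 2 + G i ^ 2 = 5 / 4)
    (h2 : ∀ i j, i ≠ j → 4 * A i * A j + G i * G j = 1 / 4) :
    ∀ i, A i = -1 / 4 := by
  obtain ⟨i, j, hij, ha, hg⟩ := planar (fun i => 2 * A i) G (1 / 4) (by norm_num)
    (fun i j hij => by linear_combination h2 i j hij)
  have ha' : A i = A j := by
    have h0 : 2 * A i = 2 * A j := ha
    linarith
  have h3 := h2 i j hij
  rw [← ha', ← hg] at h3
  have h4 := h1 i
  have h5 : (1 / 4 - A i) ^ 2 = 1 / 4 := by nlinarith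
  have h6 : A i = -1 / 4 := by
    have : (A i + 1 / 4) * (A i - 3 / 4) = 0 := by nlinarith
    rcases mul_eq_zero.1 this with h | h
    · linarith
    · exfalso
      have h7 : A i = 3 / 4 := by linarith
      rw [h7] at h3
      nlinarith [sq_nonneg (G i)]
  have h7 : G i = 0 := by
    rw [h6] at h3
    nlinarith [sq_nonneg (G i)]
  intro k
  by_cases hk : k = i
  · rw [hk]; exact h6
  · have h8 := h2 i k (Ne.symm hk)
    rw [h6, h7] at h8
    linarith

variable {F : Type*} [NormedAddCommGroup F] [InnerProductSpace ℝ F]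

theorem extend_basis {n : ℕ} (hF : finrank ℝ F = 9) [FiniteDimensional ℝ F] (w : Fin n → F)
    (hw : Orthonormal ℝ w) (hn : n ≤ 9) :
    ∃ b : OrthonormalBasis (Fin 9) ℝ F, ∀ i : Fin n, b (Fin.castLE hn i) = w i := by
  let v : Fin 9 → F := fun i => if h : i.val < n then w ⟨i.val, h⟩ else 0
  let s : Set (Fin 9) := {i | i.val < n}
  have hv : Orthonormal ℝ (s.domRestrict v) := by
    have : s.domRestrict v = w ∘ (fun i : s => (⟨i.1.val, i.2⟩ : Fin n)) := by
      funext i
      have hi : i.1.val < n := i.2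
      simp [v, Set.domRestrict, hi]
    rw [this]
    refine hw.comp _ ?_
    intro i j hij
    apply Subtype.ext
    apply Fin.ext
    simpa using hij
  obtain ⟨b, hb⟩ := hv.exists_orthonormalBasis_extension_of_card_eq (by simp [hF])
  refine ⟨b, fun i => ?_⟩
  have hi : (Fin.castLE hn i) ∈ s := i.2
  rw [hb _ hi]
  simp [v]

theorem orthonormal_append {m n : ℕ} (u : Fin m → F) (d : Fin n → F) (hu : Orthonormal ℝ u)
    (hd : Orthonormal ℝ d) (hud : ∀ i j, inner ℝ (u i) (d j) = 0) :
    Orthonormal ℝ (Fin.append u d) := by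
  rw [orthonormal_iff_ite] at hu hd ⊢
  intro i j
  refine Fin.addCases (fun i => ?_) (fun i => ?_) i <;>
  refine Fin.addCases (fun j => ?_) (fun j => ?_) j
  · simp only [Fin.append_left, hu]
    simp [Fin.ext_iff]
  · simp only [Fin.append_left, Fin.append_right, hud]
    have : (Fin.castAdd n i) ≠ Fin.natAdd m j := by
      intro h
      have := congrArg Fin.val h
      simp at this
      omega
    simp [this]
  · simp only [Fin.append_left, Fin.append_right]
    rw [real_inner_comm, hud]
    have : Fin.natAdd m i ≠ (Fin.castAdd n j) := by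
      intro h
      have := congrArg Fin.val h
      simp at this
      omega
    simp [this]
  · simp only [Fin.append_right, hd]
    simp [Fin.ext_iff]


/-- parity of a sign pattern -/
def par (e : Fin 4 → Bool) : Bool := xor (xor (e 0) (e 1)) (xor (e 2) (e 3))

/-- number of places where two patterns differ -/
def dif (e e' : Fin 4 → Bool) : ℕ := (Finset.univ.filter (fun i => e i ≠ e' i)).card

/-- Data of sixteen vectors: eight vectors `p k s` in four pairs, and eight vectors `y e`. -/
structure Conf (u : Fin 3 → F) (p : Fin 4 → Bool → F) (y : (Fin 4 → Bool) → F) : Prop where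
  up : ∀ m k s, inner ℝ (u m) (p k s) = 0
  uy : ∀ m e, par e = true → inner ℝ (u m) (y e) = 0
  np : ∀ k s, inner ℝ (p k s) (p k s) = 5 / 4
  ny : ∀ e, par e = true → inner ℝ (y e) (y e) = 5 / 4
  pp : ∀ k k' s s', k ≠ k' → inner ℝ (p k s) (p k' s') = 1 / 4
  py : ∀ e k, par e = true → inner ℝ (p k (e k)) (y e) = 1 / 4
  yy : ∀ e e', par e = true → par e' = true → dif e e' = 2 → inner ℝ (y e) (y e') = 1 / 4

theorem lemA (hF : finrank ℝ F = 9) [FiniteDimensional ℝ F] {u : Fin 3 → F}
    (hu : Orthonormal ℝ u) {p : Fin 4 → Bool → F} {y : (Fin 4 → Bool) → F}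
    (h : Conf u p y) (hne : ∀ k, p k true ≠ p k false) :
    ∃ k : Fin 4, ∀ i j, i ≠ k → j ≠ k →
      p i true + p i false = p j true + p j false := by
  let δ : Fin 4 → F := fun k => p k true - p k false
  have hδ0 : ∀ k, δ k ≠ 0 := fun k => sub_ne_zero.2 (hne k)
  have hδδ : ∀ i j, i ≠ j → inner ℝ (δ i) (δ j) = 0 := by
    intro i j hij
    simp only [δ, inner_sub_left, inner_sub_right]
    rw [h.pp _ _ _ _ hij, h.pp _ _ _ _ hij, h.pp _ _ _ _ hij, h.pp _ _ _ _ hij]
    ring
  let d : Fin 4 → F := fun k => (‖δ k‖⁻¹ : ℝ) • δ k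
  have hd : Orthonormal ℝ d := by
    constructor
    · intro i
      simp only [d, norm_smul, norm_inv, norm_norm]
      exact inv_mul_cancel₀ (norm_ne_zero_iff.2 (hδ0 i))
    · intro i j hij
      simp only [d, inner_smul_left, inner_smul_right]
      rw [hδδ i j hij]
      simp
  have hud : ∀ i j, inner ℝ (u i) (d j) = 0 := by
    intro i j
    simp only [d, δ, inner_smul_right, inner_sub_right, h.up]
    simp
  obtain ⟨b, hb⟩ := extend_basis hF (Fin.append u d) (orthonormal_append u d hu hd hud)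
    (by norm_num)
  let P : Fin 4 → F := fun k => p k true + p k false
  have hPδ : ∀ i j, inner ℝ (P i) (δ j) = 0 := by
    intro i j
    by_cases hij : i = j
    · subst hij
      simp only [P, δ, inner_sub_right, inner_add_left]
      rw [h.np, h.np, real_inner_comm (p i true) (p i false)]
      ring
    · simp only [P, δ, inner_sub_right, inner_add_left]
      rw [h.pp _ _ _ _ hij, h.pp _ _ _ _ hij, h.pp _ _ _ _ hij, h.pp _ _ _ _ hij]
      ring
  have hPd : ∀ i j, inner ℝ (P i) (d j) = 0 := by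
    intro i j
    simp only [d, inner_smul_right, hPδ]
    simp
  have hPu : ∀ i j, inner ℝ (P i) (u j) = 0 := by
    intro i j
    rw [real_inner_comm]
    simp only [P, inner_add_right, h.up]
    simp
  have hPb : ∀ i (j : Fin 7), inner ℝ (P i) (b (Fin.castLE (by norm_num) j)) = 0 := by
    intro i j
    rw [hb j]
    refine Fin.addCases (m := 3) (n := 4) (fun j => ?_) (fun j => ?_) j
    · rw [Fin.append_left]; exact hPu i j
    · rw [Fin.append_right]; exact hPd i j
  have hexp : ∀ i j, inner ℝ (P i) (P j) =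
      inner ℝ (P i) (b 7) * inner ℝ (P j) (b 7) + inner ℝ (P i) (b 8) * inner ℝ (P j) (b 8) := by
    intro i j
    rw [← b.sum_inner_mul_inner (P i) (P j), Fin.sum_univ_castSucc, Fin.sum_univ_castSucc]
    have e0 : ∑ k : Fin 7, inner ℝ (P i) (b k.castSucc.castSucc) *
        inner ℝ (b k.castSucc.castSucc) (P j) = 0 := by
      apply Finset.sum_eq_zero
      intro k _
      have : inner ℝ (P i) (b k.castSucc.castSucc) = 0 := hPb i k
      rw [this, zero_mul]
    rw [e0, zero_add, real_inner_comm (P j) (b _), real_inner_comm (P j) (b _)]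
    rfl
  have hPP : ∀ i j, i ≠ j → inner ℝ (P i) (P j) = 1 := by
    intro i j hij
    simp only [P, inner_add_left, inner_add_right]
    rw [h.pp _ _ _ _ hij, h.pp _ _ _ _ hij, h.pp _ _ _ _ hij, h.pp _ _ _ _ hij]
    norm_num
  obtain ⟨k, hk⟩ := planar3 (fun i => inner ℝ (P i) (b 7)) (fun i => inner ℝ (P i) (b 8)) 1
    one_ne_zero (fun i j hij => by
      have := hexp i j
      rw [hPP i j hij] at this
      exact this.symm)
  refine ⟨k, fun i j hi hj => ?_⟩
  have h1 := hk i j hi hj
  change P i = P j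
  rw [← sub_eq_zero, ← inner_self_eq_zero (𝕜 := ℝ)]
  have h2 : inner ℝ (P i) (P i) - inner ℝ (P i) (P j) - inner ℝ (P j) (P i) +
      inner ℝ (P j) (P j) = 0 := by
    rw [hexp i i, hexp i j, hexp j i, hexp j j]
    have h3 : inner ℝ (P i) (b 7) = inner ℝ (P j) (b 7) := h1.1
    have h4 : inner ℝ (P i) (b 8) = inner ℝ (P j) (b 8) := h1.2
    rw [h3, h4]
    ring
  simp only [inner_sub_left, inner_sub_right]
  linarith


def cls (s : Bool) (i : Fin 4) : Fin 4 → Bool :=
  match s with
  | true => (![![false, false, false, true], ![true, true, false, true],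
      ![true, false, true, true], ![false, true, true, true]] : Fin 4 → Fin 4 → Bool) i
  | false => (![![true, true, true, false], ![true, false, false, false],
      ![false, true, false, false], ![false, false, true, false]] : Fin 4 → Fin 4 → Bool) i

theorem par_cls : ∀ s i, par (cls s i) = true := by decide
theorem cls_three : ∀ s i, cls s i 3 = s := by decide
theorem dif_cls : ∀ s i j, i ≠ j → dif (cls s i) (cls s j) = 2 := by decide
theorem exists_cls : ∀ e : Fin 4 → Bool, par e = true → ∃ i, e = cls (e 3) i := by decide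

def sg (b : Bool) : ℝ := if b then 1 else -1

theorem sg_cls : ∀ s i j, i ≠ j → sg (cls s i 0) * sg (cls s j 0) +
    sg (cls s i 1) * sg (cls s j 1) + sg (cls s i 2) * sg (cls s j 2) = -1 := by
  intro s i j hij
  cases s <;> fin_cases i <;> fin_cases j <;> simp_all [sg, cls]

theorem sg_sq (b : Bool) : sg b * sg b = 1 := by cases b <;> simp [sg]

structure Std (p : Fin 4 → Bool → F) (y : (Fin 4 → Bool) → F) : Prop where
  c1 : ∀ k, inner ℝ (p k true) (p k false) = -3 / 4
  c2 : ∀ e, par e = true → inner ℝ (y e) (y (fun i => !(e i))) = -3 / 4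
  c3 : ∀ e k, par e = true → inner ℝ (p k (!(e k))) (y e) = -3 / 4

theorem lemB (hF : finrank ℝ F = 9) [FiniteDimensional ℝ F] {u : Fin 3 → F}
    (hu : Orthonormal ℝ u) {p : Fin 4 → Bool → F} {y : (Fin 4 → Bool) → F}
    (h : Conf u p y) (h1 : p 0 true + p 0 false = p 1 true + p 1 false)
    (h2 : p 0 true + p 0 false = p 2 true + p 2 false) : Std p y := by
  let P : F := (1 / 2 : ℝ) • (p 0 true + p 0 false)
  have hP1 : P = (1 / 2 : ℝ) • (p 1 true + p 1 false) := by simp only [P, h1]
  have hPP : inner ℝ P P = 1 / 4 := by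
    have e1 : inner ℝ P P = inner ℝ P ((1 / 2 : ℝ) • (p 1 true + p 1 false)) := by rw [← hP1]
    rw [e1]
    simp only [P, inner_smul_left, inner_smul_right, inner_add_left, inner_add_right]
    rw [h.pp _ _ _ _ (by decide), h.pp _ _ _ _ (by decide), h.pp _ _ _ _ (by decide),
      h.pp _ _ _ _ (by decide)]
    simp
    norm_num
  have hPp : ∀ k s, inner ℝ P (p k s) = 1 / 4 := by
    intro k s
    by_cases hk : k = 0
    · subst hk
      rw [hP1]
      simp only [inner_smul_left, inner_add_left]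
      rw [h.pp _ _ _ _ (by decide), h.pp _ _ _ _ (by decide)]
      simp
      norm_num
    · simp only [P, inner_smul_left, inner_add_left]
      rw [h.pp _ _ _ _ (Ne.symm hk), h.pp _ _ _ _ (Ne.symm hk)]
      simp
      norm_num
  have hpP : ∀ k s, inner ℝ (p k s) P = 1 / 4 := fun k s => by
    rw [real_inner_comm]; exact hPp k s
  let g : Fin 4 → Bool → F := fun k s => p k s - P
  have hPg : ∀ k s, inner ℝ P (g k s) = 0 := by
    intro k s
    simp only [g, inner_sub_right, hPp, hPP]
    norm_num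
  have hgP : ∀ k s, inner ℝ (g k s) P = 0 := fun k s => by
    rw [real_inner_comm]; exact hPg k s
  have hgg : ∀ k l s s', k ≠ l → inner ℝ (g k s) (g l s') = 0 := by
    intro k l s s' hkl
    simp only [g, inner_sub_left, inner_sub_right, hPp, hPP, hpP, h.pp _ _ _ _ hkl]
    norm_num
  have hg1 : ∀ k s, inner ℝ (g k s) (g k s) = 1 := by
    intro k s
    simp only [g, inner_sub_left, inner_sub_right, hPp, hPP, hpP, h.np]
    norm_num
  have huP : ∀ m, inner ℝ (u m) P = 0 := by
    intro m
    simp only [P, inner_smul_right, inner_add_right, h.up]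
    simp
  have hug : ∀ m k s, inner ℝ (u m) (g k s) = 0 := by
    intro m k s
    simp only [g, inner_sub_right, h.up, huP]
    simp
  have hneg0 : g 0 false = - g 0 true := by
    have : (2 : ℝ) • P = p 0 true + p 0 false := by simp [P, smul_smul]
    have h3 : P + P = p 0 true + p 0 false := by rw [← this, two_smul]
    simp only [g]
    rw [sub_eq_iff_eq_add]
    rw [eq_comm, ← sub_eq_zero]
    have : -(p 0 true - P) + P - p 0 false = (P + P) - (p 0 true + p 0 false) := by abel
    rw [this, h3, sub_self]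
  have hneg1 : g 1 false = - g 1 true := by
    have h3 : P + P = p 1 true + p 1 false := by
      rw [← h1, ← two_smul ℝ P]; simp [P, smul_smul]
    simp only [g]
    rw [sub_eq_iff_eq_add, eq_comm, ← sub_eq_zero]
    have : -(p 1 true - P) + P - p 1 false = (P + P) - (p 1 true + p 1 false) := by abel
    rw [this, h3, sub_self]
  have hneg2 : g 2 false = - g 2 true := by
    have h3 : P + P = p 2 true + p 2 false := by
      rw [← h2, ← two_smul ℝ P]; simp [P, smul_smul]
    simp only [g]
    rw [sub_eq_iff_eq_add, eq_comm, ← sub_eq_zero]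
    have : -(p 2 true - P) + P - p 2 false = (P + P) - (p 2 true + p 2 false) := by abel
    rw [this, h3, sub_self]
  have hsg : ∀ k : Fin 4, k ≠ 3 → ∀ s, g k s = sg s • g k true := by
    intro k hk s
    cases s
    · have : g k false = - g k true := by
        fin_cases k
        · exact hneg0
        · exact hneg1
        · exact hneg2
        · exact absurd rfl hk
      rw [this]
      simp [sg]
    · simp [sg]
  have hgy : ∀ e k, par e = true →
      inner ℝ (g k (e k)) (y e) = 1 / 4 - inner ℝ P (y e) := by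
    intro e k he
    simp only [g, inner_sub_left, h.py e k he]
  have hA : ∀ e, par e = true → inner ℝ P (y e) = -1 / 4 := by
    have main : ∀ s i, inner ℝ P (y (cls s i)) = -1 / 4 := by
      intro s
      let d : Fin 5 → F := ![(2 : ℝ) • P, g 0 true, g 1 true, g 2 true, g 3 s]
      have hd : Orthonormal ℝ d := by
        rw [orthonormal_iff_ite]
        intro i j
        have hq : inner ℝ ((2 : ℝ) • P) ((2 : ℝ) • P) = 1 := by
          simp only [inner_smul_left, inner_smul_right, hPP]
          simp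
          norm_num
        have hq1 : ∀ k s, inner ℝ ((2 : ℝ) • P) (g k s) = 0 := by
          intro k s
          simp only [inner_smul_left, hPg]
          simp
        have hq2 : ∀ k s, inner ℝ (g k s) ((2 : ℝ) • P) = 0 := by
          intro k s
          simp only [inner_smul_right, hgP]
          simp
        fin_cases i <;> fin_cases j <;>
          simp only [d, Fin.mk_zero, Fin.isValue, Matrix.cons_val_zero, Matrix.cons_val_one,
            Matrix.cons_val, Fin.mk_one, Fin.reduceFinMk] <;>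
          first
            | (rw [hq]; simp)
            | (rw [hg1]; simp)
            | (rw [hq1]; simp)
            | (rw [hq2]; simp)
            | (rw [hgg _ _ _ _ (by decide)]; simp)
      have hud : ∀ i j, inner ℝ (u i) (d j) = 0 := by
        intro i j
        fin_cases j <;> simp [d, hug, huP, inner_smul_right]
      obtain ⟨b, hb⟩ := extend_basis hF (Fin.append u d) (orthonormal_append u d hu hd hud)
        (by norm_num)
      have hexp : ∀ v w : F, (∀ m, inner ℝ (u m) v = 0) →
          inner ℝ v w = ∑ j : Fin 5, inner ℝ v (d j) * inner ℝ (d j) w +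
            inner ℝ v (b 8) * inner ℝ (b 8) w := by
        intro v w hv
        rw [← b.sum_inner_mul_inner v w, Fin.sum_univ_castSucc]
        have hbk : ∀ k : Fin 8, b k.castSucc = Fin.append u d k := fun k => hb k
        simp_rw [hbk]
        rw [Fin.sum_univ_add (a := 3) (b := 5) (fun k => inner ℝ v (Fin.append u d k) *
          inner ℝ (Fin.append u d k) w)]
        simp only [Fin.append_left, Fin.append_right]
        have : ∑ i : Fin 3, inner ℝ v (u i) * inner ℝ (u i) w = 0 := by
          apply Finset.sum_eq_zero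
          intro k _
          rw [real_inner_comm, hv, zero_mul]
        rw [this, zero_add]
        rfl
      have hcl : ∀ i k, inner ℝ (g k (cls s i k)) (y (cls s i)) =
          1 / 4 - inner ℝ P (y (cls s i)) := fun i k => hgy _ k (par_cls s i)
      have hc : ∀ i (k : Fin 4), k ≠ 3 → inner ℝ (g k true) (y (cls s i)) =
          sg (cls s i k) * (1 / 4 - inner ℝ P (y (cls s i))) := by
        intro i k hk
        have e1 := hcl i k
        rw [hsg k hk, inner_smul_left] at e1
        simp only [conj_trivial] at e1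
        rw [← e1, ← mul_assoc, sg_sq, one_mul]
      have hc3 : ∀ i, inner ℝ (g 3 s) (y (cls s i)) = 1 / 4 - inner ℝ P (y (cls s i)) := by
        intro i
        have e1 := hcl i 3
        rw [cls_three] at e1
        exact e1
      have key : ∀ i j, inner ℝ (y (cls s i)) (y (cls s j)) =
          4 * inner ℝ P (y (cls s i)) * inner ℝ P (y (cls s j)) +
          (sg (cls s i 0) * sg (cls s j 0) + sg (cls s i 1) * sg (cls s j 1) +
            sg (cls s i 2) * sg (cls s j 2) + 1) *
          (1 / 4 - inner ℝ P (y (cls s i))) * (1 / 4 - inner ℝ P (y (cls s j))) +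
          inner ℝ (b 8) (y (cls s i)) * inner ℝ (b 8) (y (cls s j)) := by
        intro i j
        rw [hexp _ _ (fun m => h.uy m _ (par_cls s i)), Fin.sum_univ_five]
        simp only [real_inner_comm _ (y (cls s i))]
        simp only [d, Fin.isValue, Matrix.cons_val_zero, Matrix.cons_val_one, Matrix.cons_val]
        rw [hc i 0 (by decide), hc i 1 (by decide), hc i 2 (by decide), hc3 i,
          hc j 0 (by decide), hc j 1 (by decide), hc j 2 (by decide), hc3 j]
        simp only [inner_smul_left, conj_trivial]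
        ring
      refine four (fun i => inner ℝ P (y (cls s i))) (fun i => inner ℝ (b 8) (y (cls s i)))
        (fun i => ?_) (fun i j hij => ?_)
      · have e1 := key i i
        rw [h.ny _ (par_cls s i), sg_sq, sg_sq, sg_sq] at e1
        linear_combination -e1
      · have e1 := key i j
        rw [h.yy _ _ (par_cls s i) (par_cls s j) (dif_cls s i j hij), sg_cls s i j hij] at e1
        linear_combination -e1
    intro e he
    obtain ⟨i, hi⟩ := exists_cls e he
    rw [hi]
    exact main _ _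
  -- explicit form of `y e`
  let z : (Fin 4 → Bool) → F := fun e =>
    (1 / 2 : ℝ) • (g 0 (e 0) + g 1 (e 1) + g 2 (e 2) + g 3 (e 3)) - P
  have hgz : ∀ k s e, inner ℝ (g k s) (z e) = (1 / 2) * inner ℝ (g k s) (g k (e k)) := by
    intro k s e
    simp only [z, inner_sub_right, inner_smul_right, inner_add_right, hgP]
    fin_cases k
    · simp [hgg 0 1 s (e 1) (by decide), hgg 0 2 s (e 2) (by decide), hgg 0 3 s (e 3) (by decide)]
    · simp [hgg 1 0 s (e 0) (by decide), hgg 1 2 s (e 2) (by decide), hgg 1 3 s (e 3) (by decide)]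
    · simp [hgg 2 0 s (e 0) (by decide), hgg 2 1 s (e 1) (by decide), hgg 2 3 s (e 3) (by decide)]
    · simp [hgg 3 0 s (e 0) (by decide), hgg 3 1 s (e 1) (by decide), hgg 3 2 s (e 2) (by decide)]
  have hPz : ∀ e, inner ℝ P (z e) = -1 / 4 := by
    intro e
    simp only [z, inner_sub_right, inner_smul_right, inner_add_right, hPg, hPP]
    norm_num
  have hzz : ∀ e e', inner ℝ (z e) (z e') = 1 / 4 + (1 / 4) * (
      inner ℝ (g 0 (e 0)) (g 0 (e' 0)) + inner ℝ (g 1 (e 1)) (g 1 (e' 1)) +
      inner ℝ (g 2 (e 2)) (g 2 (e' 2)) + inner ℝ (g 3 (e 3)) (g 3 (e' 3))) := by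
    intro e e'
    have e1 : inner ℝ (z e) (z e') = (1 / 2) * (inner ℝ (g 0 (e 0)) (z e') +
        inner ℝ (g 1 (e 1)) (z e') + inner ℝ (g 2 (e 2)) (z e') + inner ℝ (g 3 (e 3)) (z e')) -
        inner ℝ P (z e') := by
      conv_lhs => simp only [z]
      simp only [inner_sub_left, inner_smul_left, inner_add_left, conj_trivial]
      rfl
    rw [e1, hgz, hgz, hgz, hgz, hPz]
    ring
  have hyz : ∀ e, par e = true → y e = z e := by
    intro e he
    rw [← sub_eq_zero, ← inner_self_eq_zero (𝕜 := ℝ)]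
    have e1 : inner ℝ (z e) (y e) = 5 / 4 := by
      simp only [z, inner_sub_left, inner_smul_left, inner_add_left, conj_trivial,
        hgy e _ he, hA e he]
      norm_num
    have e2 : inner ℝ (z e) (z e) = 5 / 4 := by
      rw [hzz, hg1, hg1, hg1, hg1]
      norm_num
    simp only [inner_sub_left, inner_sub_right]
    rw [real_inner_comm (z e) (y e), e1, e2, h.ny e he]
    norm_num
  have hneg3 : g 3 false = - g 3 true := by
    have e1 := h.yy (cls true 0) (cls false 1) (by decide) (by decide) (by decide)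
    rw [hyz _ (by decide), hyz _ (by decide), hzz] at e1
    simp only [cls, Fin.isValue, Matrix.cons_val_zero, Matrix.cons_val_one, Matrix.cons_val] at e1
    rw [hneg0, inner_neg_left, hg1, hg1, hg1] at e1
    have e2 : inner ℝ (g 3 true) (g 3 false) = -1 := by linarith
    rw [eq_neg_iff_add_eq_zero, ← inner_self_eq_zero (𝕜 := ℝ)]
    simp only [inner_add_left, inner_add_right]
    rw [real_inner_comm (g 3 true) (g 3 false), e2, hg1, hg1]
    norm_num
  have hneg : ∀ k s, g k (!s) = - g k s := by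
    intro k s
    fin_cases k <;> cases s
    · show g 0 true = - g 0 false
      rw [hneg0, neg_neg]
    · exact hneg0
    · show g 1 true = - g 1 false
      rw [hneg1, neg_neg]
    · exact hneg1
    · show g 2 true = - g 2 false
      rw [hneg2, neg_neg]
    · exact hneg2
    · show g 3 true = - g 3 false
      rw [hneg3, neg_neg]
    · exact hneg3
  have hpg : ∀ k s, p k s = P + g k s := by
    intro k s
    simp only [g]
    abel
  have hgn : ∀ k s, inner ℝ (g k s) (g k (!s)) = -1 := by
    intro k s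
    rw [hneg, inner_neg_right, hg1]
  have parneg : ∀ e : Fin 4 → Bool, par e = true → par (fun i => !(e i)) = true := by decide
  refine ⟨fun k => ?_, fun e he => ?_, fun e k he => ?_⟩
  · rw [hpg k true, hpg k false]
    have e1 : inner ℝ (g k true) (g k false) = -1 := hgn k true
    simp only [inner_add_left, inner_add_right, hPP, hPg, hgP, e1]
    norm_num
  · rw [hyz e he, hyz _ (parneg e he)]
    refine (hzz e (fun i => !(e i))).trans ?_
    have e1 : ∀ k, inner ℝ (g k (e k)) (g k (!(e k))) = -1 := fun k => hgn k (e k)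
    simp only [e1]
    norm_num
  · rw [hyz e he, hpg, inner_add_left, hPz, hgz]
    have e1 : inner ℝ (g k (!(e k))) (g k (e k)) = -1 := by
      rw [real_inner_comm]; exact hgn k (e k)
    rw [e1]
    norm_num


theorem par_perm : ∀ (π : Equiv.Perm (Fin 4)) (e : Fin 4 → Bool), par (fun i => e (π i)) = par e := by
  decide +kernel

theorem dif_perm : ∀ (π : Equiv.Perm (Fin 4)) (e e' : Fin 4 → Bool),
    dif (fun i => e (π i)) (fun i => e' (π i)) = dif e e' := by
  intro π e e'
  unfold dif
  apply Finset.card_bij (fun i _ => π i)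
  · intro i hi
    simpa using hi
  · intro i _ j _ hij
    exact π.injective hij
  · intro j hj
    refine ⟨π.symm j, ?_, by simp⟩
    simpa using hj

theorem lemAB (hF : finrank ℝ F = 9) [FiniteDimensional ℝ F] {u : Fin 3 → F}
    (hu : Orthonormal ℝ u) {p : Fin 4 → Bool → F} {y : (Fin 4 → Bool) → F}
    (h : Conf u p y) (hne : ∀ k, p k true ≠ p k false) : Std p y := by
  obtain ⟨k, hk⟩ := lemA hF hu h hne
  let π : Equiv.Perm (Fin 4) := Equiv.swap k 3
  have hπ : ∀ i, π (π i) = i := fun i => Equiv.swap_apply_self k 3 i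
  have h3 : π 3 = k := Equiv.swap_apply_right k 3
  have hne3 : ∀ i, i ≠ 3 → π i ≠ k := by
    intro i hi hc
    apply hi
    rw [← hπ i, hc]
    exact Equiv.swap_apply_left k 3
  have hs : Std (fun i => p (π i)) (fun e => y (fun i => e (π i))) := by
    refine lemB hF hu ⟨?_, ?_, ?_, ?_, ?_, ?_, ?_⟩ ?_ ?_
    · intro m k s; exact h.up m _ s
    · intro m e he; exact h.uy m _ (by rw [par_perm]; exact he)
    · intro k s; exact h.np _ s
    · intro e he; exact h.ny _ (by rw [par_perm]; exact he)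
    · intro k k' s s' hkk; exact h.pp _ _ _ _ (fun hc => hkk (π.injective hc))
    · intro e k he
      have := h.py (fun i => e (π i)) (π k) (by rw [par_perm]; exact he)
      simp only [hπ] at this
      exact this
    · intro e e' he he' hd
      exact h.yy _ _ (by rw [par_perm]; exact he) (by rw [par_perm]; exact he')
        (by rw [dif_perm]; exact hd)
    · exact hk _ _ (hne3 0 (by decide)) (hne3 1 (by decide))
    · exact hk _ _ (hne3 0 (by decide)) (hne3 2 (by decide))
  refine ⟨fun i => ?_, fun e he => ?_, fun e i he => ?_⟩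
  · have := hs.c1 (π i)
    simp only [hπ] at this
    exact this
  · have := hs.c2 (fun i => e (π i)) (by rw [par_perm]; exact he)
    simp only [hπ] at this
    exact this
  · have := hs.c3 (fun i => e (π i)) (π i) (by rw [par_perm]; exact he)
    simp only [hπ] at this
    exact this




def adj (x y : Fin 16) : Bool := decide ((x.val ^^^ y.val) ∈ [1, 2, 4, 8, 3, 5, 6, 9, 10, 12])
def far (x y : Fin 16) : Bool := decide ((x.val ^^^ y.val) ∈ [7, 11, 13, 14, 15])

def tp (k : Fin 4) (s : Bool) : Fin 16 :=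
  if s then (![15, 12, 10, 9] : Fin 4 → Fin 16) k else (![0, 3, 5, 6] : Fin 4 → Fin 16) k

def ty (e : Fin 4 → Bool) : Fin 16 :=
  (![![![![0, 1], ![2, 0]], ![![4, 0], ![0, 8]]], ![![![7, 0], ![0, 11]], ![![0, 13], ![14, 0]]]] :
    Fin 2 → Fin 2 → Fin 2 → Fin 2 → Fin 16) (if e 0 then 1 else 0) (if e 1 then 1 else 0)
    (if e 2 then 1 else 0) (if e 3 then 1 else 0)

def sig (t : Fin 10) (x : Fin 16) : Fin 16 :=
  (![![0, 1, 3, 2, 5, 4, 6, 7, 9, 8, 10, 11, 12, 13, 15, 14],
    ![3, 2, 0, 1, 6, 7, 5, 4, 10, 11, 9, 8, 15, 14, 12, 13],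
    ![0, 3, 2, 1, 6, 5, 4, 7, 10, 9, 8, 11, 12, 15, 14, 13],
    ![3, 0, 1, 2, 5, 6, 7, 4, 9, 10, 11, 8, 15, 12, 13, 14],
    ![0, 5, 6, 3, 4, 1, 2, 7, 12, 9, 10, 15, 8, 13, 14, 11],
    ![5, 0, 3, 6, 1, 4, 7, 2, 9, 12, 15, 10, 13, 8, 11, 14],
    ![0, 9, 10, 3, 12, 5, 6, 15, 8, 1, 2, 11, 4, 13, 14, 7],
    ![9, 0, 3, 10, 5, 12, 15, 6, 1, 8, 11, 2, 13, 4, 7, 14],
    ![0, 1, 2, 3, 4, 5, 6, 7, 8, 9, 10, 11, 12, 13, 14, 15],
    ![1, 0, 3, 2, 5, 4, 7, 6, 9, 8, 11, 10, 13, 12, 15, 14]] :
    Fin 10 → Fin 16 → Fin 16) t x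

def isig (t : Fin 10) (x : Fin 16) : Fin 16 :=
  (![![0, 1, 3, 2, 5, 4, 6, 7, 9, 8, 10, 11, 12, 13, 15, 14],
    ![2, 3, 1, 0, 7, 6, 4, 5, 11, 10, 8, 9, 14, 15, 13, 12],
    ![0, 3, 2, 1, 6, 5, 4, 7, 10, 9, 8, 11, 12, 15, 14, 13],
    ![1, 2, 3, 0, 7, 4, 5, 6, 11, 8, 9, 10, 13, 14, 15, 12],
    ![0, 5, 6, 3, 4, 1, 2, 7, 12, 9, 10, 15, 8, 13, 14, 11],
    ![1, 4, 7, 2, 5, 0, 3, 6, 13, 8, 11, 14, 9, 12, 15, 10],
    ![0, 9, 10, 3, 12, 5, 6, 15, 8, 1, 2, 11, 4, 13, 14, 7],
    ![1, 8, 11, 2, 13, 4, 7, 14, 9, 0, 3, 10, 5, 12, 15, 6],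
    ![0, 1, 2, 3, 4, 5, 6, 7, 8, 9, 10, 11, 12, 13, 14, 15],
    ![1, 0, 3, 2, 5, 4, 7, 6, 9, 8, 11, 10, 13, 12, 15, 14]] :
    Fin 10 → Fin 16 → Fin 16) t x

def sgn (x : Fin 16) (i : Fin 5) : ℤ :=
  (![![1, 1, 1, 1, 1],
    ![-1, 1, 1, 1, -1],
    ![1, -1, 1, 1, -1],
    ![-1, -1, 1, 1, 1],
    ![1, 1, -1, 1, -1],
    ![-1, 1, -1, 1, 1],
    ![1, -1, -1, 1, 1],
    ![-1, -1, -1, 1, -1],
    ![1, 1, 1, -1, -1],
    ![-1, 1, 1, -1, 1],
    ![1, -1, 1, -1, 1],
    ![-1, -1, 1, -1, -1],
    ![1, 1, -1, -1, 1],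
    ![-1, 1, -1, -1, -1],
    ![1, -1, -1, -1, -1],
    ![-1, -1, -1, -1, 1]] :
    Fin 16 → Fin 5 → ℤ) x i

theorem adj_tp : ∀ k k' s s', k ≠ k' → adj (tp k s) (tp k' s') = true := by decide +kernel
theorem adj_ty : ∀ e k, par e = true → adj (tp k (e k)) (ty e) = true := by decide +kernel
theorem adj_yy : ∀ e e', par e = true → par e' = true → dif e e' = 2 →
    adj (ty e) (ty e') = true := by decide +kernel
theorem far_cover : ∀ x y, far x y = true →
    (∃ k, (x = tp k true ∧ y = tp k false) ∨ (x = tp k false ∧ y = tp k true)) ∨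
    (∃ e, par e = true ∧ x = ty e ∧ y = ty (fun i => !(e i))) ∨
    (∃ e k, par e = true ∧ ((x = tp k (!(e k)) ∧ y = ty e) ∨ (y = tp k (!(e k)) ∧ x = ty e))) := by
  decide +kernel
theorem adj_sig : ∀ t x y, adj x y = true → adj (sig t x) (sig t y) = true := by decide +kernel
theorem sig_isig : ∀ t x, sig t (isig t x) = x := by decide +kernel
theorem far_isig : ∀ t x y, far x y = true → far (isig t x) (isig t y) = true := by decide +kernel
theorem facets : ∀ t t' k k' s s', sig t (tp k s) = sig t' (tp k' s') →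
    (t = t' ∧ s = s') ∨ adj (sig t (tp k (!s))) (sig t' (tp k' (!s'))) = true := by
  decide +kernel
theorem sgn_adj : ∀ x y, adj x y = true →
    (sgn x 0 - sgn y 0) ^ 2 + (sgn x 1 - sgn y 1) ^ 2 + (sgn x 2 - sgn y 2) ^ 2 +
    (sgn x 3 - sgn y 3) ^ 2 + (sgn x 4 - sgn y 4) ^ 2 = 8 := by decide +kernel
theorem sgn_far : ∀ x y, far x y = true →
    (sgn x 0 - sgn y 0) ^ 2 + (sgn x 1 - sgn y 1) ^ 2 + (sgn x 2 - sgn y 2) ^ 2 +
    (sgn x 3 - sgn y 3) ^ 2 + (sgn x 4 - sgn y 4) ^ 2 = 16 := by decide +kernel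
theorem sgn_sq : ∀ x i, sgn x i ^ 2 = 1 := by decide +kernel

structure Conf16 (u : Fin 3 → F) (φ : Fin 16 → F) : Prop where
  up : ∀ m x, inner ℝ (u m) (φ x) = 0
  nn : ∀ x, inner ℝ (φ x) (φ x) = 5 / 4
  aa : ∀ x y, adj x y = true → inner ℝ (φ x) (φ y) = 1 / 4

theorem lem16 (hF : finrank ℝ F = 9) [FiniteDimensional ℝ F] {u : Fin 3 → F}
    (hu : Orthonormal ℝ u) {φ : Fin 16 → F} (h : Conf16 u φ)
    (hne : ∀ k, φ (tp k true) ≠ φ (tp k false)) :
    ∀ x y, far x y = true → inner ℝ (φ x) (φ y) = -3 / 4 := by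
  have hs : Std (fun k s => φ (tp k s)) (fun e => φ (ty e)) := by
    refine lemAB hF hu ⟨?_, ?_, ?_, ?_, ?_, ?_, ?_⟩ hne
    · intro m k s; exact h.up m _
    · intro m e _; exact h.up m _
    · intro k s; exact h.nn _
    · intro e _; exact h.nn _
    · intro k k' s s' hkk; exact h.aa _ _ (adj_tp k k' s s' hkk)
    · intro e k he; exact h.aa _ _ (adj_ty e k he)
    · intro e e' he he' hd; exact h.aa _ _ (adj_yy e e' he he' hd)
  intro x y hxy
  rcases far_cover x y hxy with ⟨k, ⟨rfl, rfl⟩ | ⟨rfl, rfl⟩⟩ | ⟨e, he, rfl, rfl⟩ |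
    ⟨e, k, he, ⟨rfl, rfl⟩ | ⟨rfl, rfl⟩⟩
  · exact hs.c1 k
  · rw [real_inner_comm]; exact hs.c1 k
  · exact hs.c2 e he
  · exact hs.c3 e k he
  · rw [real_inner_comm]; exact hs.c3 e k he

theorem rigid16 (hF : finrank ℝ F = 9) [FiniteDimensional ℝ F] {u : Fin 3 → F}
    (hu : Orthonormal ℝ u) {φ : Fin 16 → F} (h : Conf16 u φ) :
    ∀ x y, far x y = true → inner ℝ (φ x) (φ y) = -3 / 4 := by
  have hex : ∃ t : Fin 10, ∀ k, φ (sig t (tp k true)) ≠ φ (sig t (tp k false)) := by
    by_contra hcon
    push Not at hcon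
    choose kk hkk using hcon
    have hs : ∀ t s, φ (sig t (tp (kk t) (!s))) = φ (sig t (tp (kk t) s)) := by
      intro t s
      cases s
      · exact hkk t
      · exact (hkk t).symm
    have hinj : Function.Injective (fun q : Fin 10 × Bool => sig q.1 (tp (kk q.1) q.2)) := by
      rintro ⟨t, s⟩ ⟨t', s'⟩ hq
      simp only at hq
      rcases facets t t' (kk t) (kk t') s s' hq with ⟨h1, h2⟩ | h1
      · rw [h1, h2]
      · exfalso
        have h2 := h.aa _ _ h1
        rw [hs t s, hs t' s', ← hq, h.nn] at h2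
        norm_num at h2
    have := Fintype.card_le_of_injective _ hinj
    simp at this
  obtain ⟨t, ht⟩ := hex
  intro x y hxy
  have h1 := lem16 hF hu (φ := fun x => φ (sig t x))
    ⟨fun m x => h.up m _, fun x => h.nn _, fun x y hxy => h.aa _ _ (adj_sig t x y hxy)⟩ ht
    (isig t x) (isig t y) (far_isig t x y hxy)
  simp only [sig_isig] at h1
  exact h1




abbrev E8 := EuclideanSpace ℝ (Fin 8)

noncomputable def X (i : Fin 4) : E8 :=
  match i with
  | 0 => !₂[1 / 2, 1 / 2, 1 / 2, 0, 0, 0, 0, 0]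
  | 1 => !₂[1 / 2, -1 / 2, -1 / 2, 0, 0, 0, 0, 0]
  | 2 => !₂[-1 / 2, 1 / 2, -1 / 2, 0, 0, 0, 0, 0]
  | 3 => !₂[-1 / 2, -1 / 2, 1 / 2, 0, 0, 0, 0, 0]

noncomputable def Y (x : Fin 16) : E8 :=
  !₂[0, 0, 0, (sgn x 0 : ℝ) / 2, (sgn x 1 : ℝ) / 2, (sgn x 2 : ℝ) / 2, (sgn x 3 : ℝ) / 2,
    (sgn x 4 : ℝ) / 2]

theorem dist_XX : ∀ i j, i ≠ j → dist (X i) (X j) ^ 2 = 2 := by
  intro i j hij
  rw [EuclideanSpace.dist_eq, Real.sq_sqrt (Finset.sum_nonneg fun _ _ => by positivity)]
  fin_cases i <;> fin_cases j <;> first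
    | exact absurd rfl hij
    | (simp [X, Fin.sum_univ_eight, Real.dist_eq]; norm_num)

theorem dist_XY : ∀ i x, dist (X i) (Y x) ^ 2 = 2 := by
  intro i x
  rw [EuclideanSpace.dist_eq, Real.sq_sqrt (Finset.sum_nonneg fun _ _ => by positivity)]
  have h : ∀ i, ((sgn x i : ℝ)) ^ 2 = 1 := fun i => by exact_mod_cast sgn_sq x i
  have h0 := h 0
  have h1 := h 1
  have h2 := h 2
  have h3 := h 3
  have h4 := h 4
  fin_cases i <;> simp [X, Y, Fin.sum_univ_eight, Real.dist_eq, div_pow, h0, h1, h2, h3, h4] <;>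
    norm_num

theorem dist_YY (x y : Fin 16) : 4 * dist (Y x) (Y y) ^ 2 =
    (((sgn x 0 - sgn y 0) ^ 2 + (sgn x 1 - sgn y 1) ^ 2 + (sgn x 2 - sgn y 2) ^ 2 +
    (sgn x 3 - sgn y 3) ^ 2 + (sgn x 4 - sgn y 4) ^ 2 : ℤ) : ℝ) := by
  rw [EuclideanSpace.dist_eq, Real.sq_sqrt (Finset.sum_nonneg fun _ _ => by positivity)]
  simp [Y, Fin.sum_univ_eight, Real.dist_eq]
  ring

theorem dist_adj (x y : Fin 16) (h : adj x y = true) : dist (Y x) (Y y) ^ 2 = 2 := by
  have := dist_YY x y
  rw [sgn_adj x y h] at this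
  push_cast at this
  linarith

theorem dist_far (x y : Fin 16) (h : far x y = true) : dist (Y x) (Y y) ^ 2 = 4 := by
  have := dist_YY x y
  rw [sgn_far x y h] at this
  push_cast at this
  linarith

theorem inner_of_dist {a b c : F} {r s t : ℝ} (h1 : dist a c ^ 2 = r) (h2 : dist b c ^ 2 = s)
    (h3 : dist a b ^ 2 = t) : inner ℝ (a - c) (b - c) = (r + s - t) / 2 := by
  rw [dist_eq_norm, ← real_inner_self_eq_norm_sq] at h1 h2 h3
  have : a - b = (a - c) - (b - c) := by abel
  rw [this] at h3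
  simp only [inner_sub_left (𝕜 := ℝ) (a - c) (b - c), inner_sub_right (𝕜 := ℝ) _ (a - c) (b - c)] at h3
  have h4 := real_inner_comm (b - c) (a - c)
  linarith

/-- A map `ℝ⁸ → F`, `dim F = 9`, preserving the distance `√2` sends the far pairs of the
configuration to points at distance `2`. -/
theorem config_rigid (hF : finrank ℝ F = 9) [FiniteDimensional ℝ F] (g : E8 → F)
    (hg : ∀ x y, dist x y ^ 2 = 2 → dist (g x) (g y) ^ 2 = 2) (x y : Fin 16)
    (hxy : far x y = true) : dist (g (Y x)) (g (Y y)) ^ 2 = 4 := by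
  let T0 := g (X 0)
  let a := g (X 1) - T0
  let b := g (X 2) - T0
  let c := g (X 3) - T0
  let z : Fin 16 → F := fun x => g (Y x) - T0
  have dT : ∀ i j, i ≠ j → dist (g (X i)) (g (X j)) ^ 2 = 2 := fun i j h => hg _ _ (dist_XX i j h)
  have dTY : ∀ i x, dist (g (X i)) (g (Y x)) ^ 2 = 2 := fun i x => hg _ _ (dist_XY i x)
  have dYT : ∀ i x, dist (g (Y x)) (g (X i)) ^ 2 = 2 := fun i x => by
    rw [dist_comm]; exact dTY i x
  have d0 : ∀ v : F, dist v v ^ 2 = 0 := fun v => by simp
  have haa : inner ℝ a a = 2 := by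
    rw [inner_of_dist (dT 1 0 (by decide)) (dT 1 0 (by decide)) (d0 _)]; norm_num
  have hbb : inner ℝ b b = 2 := by
    rw [inner_of_dist (dT 2 0 (by decide)) (dT 2 0 (by decide)) (d0 _)]; norm_num
  have hcc : inner ℝ c c = 2 := by
    rw [inner_of_dist (dT 3 0 (by decide)) (dT 3 0 (by decide)) (d0 _)]; norm_num
  have hab : inner ℝ a b = 1 := by
    rw [inner_of_dist (dT 1 0 (by decide)) (dT 2 0 (by decide)) (dT 1 2 (by decide))]; norm_num
  have hac : inner ℝ a c = 1 := by
    rw [inner_of_dist (dT 1 0 (by decide)) (dT 3 0 (by decide)) (dT 1 3 (by decide))]; norm_num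
  have hbc : inner ℝ b c = 1 := by
    rw [inner_of_dist (dT 2 0 (by decide)) (dT 3 0 (by decide)) (dT 2 3 (by decide))]; norm_num
  have hba : inner ℝ b a = 1 := by rw [real_inner_comm]; exact hab
  have hca : inner ℝ c a = 1 := by rw [real_inner_comm]; exact hac
  have hcb : inner ℝ c b = 1 := by rw [real_inner_comm]; exact hbc
  have hzz : ∀ x, inner ℝ (z x) (z x) = 2 := fun x => by
    rw [inner_of_dist (dYT 0 x) (dYT 0 x) (d0 _)]; norm_num
  have haz : ∀ x, inner ℝ a (z x) = 1 := fun x => by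
    rw [inner_of_dist (dT 1 0 (by decide)) (dYT 0 x) (dTY 1 x)]; norm_num
  have hbz : ∀ x, inner ℝ b (z x) = 1 := fun x => by
    rw [inner_of_dist (dT 2 0 (by decide)) (dYT 0 x) (dTY 2 x)]; norm_num
  have hcz : ∀ x, inner ℝ c (z x) = 1 := fun x => by
    rw [inner_of_dist (dT 3 0 (by decide)) (dYT 0 x) (dTY 3 x)]; norm_num
  have hza : ∀ x, inner ℝ (z x) a = 1 := fun x => by rw [real_inner_comm]; exact haz x
  have hzb : ∀ x, inner ℝ (z x) b = 1 := fun x => by rw [real_inner_comm]; exact hbz x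
  have hzc : ∀ x, inner ℝ (z x) c = 1 := fun x => by rw [real_inner_comm]; exact hcz x
  have hzadj : ∀ x y, adj x y = true → inner ℝ (z x) (z y) = 1 := fun x y h => by
    rw [inner_of_dist (dYT 0 x) (dYT 0 y) (hg _ _ (dist_adj x y h))]; norm_num
  let u : Fin 3 → F := ![(1 / 2 : ℝ) • (a - b - c), (1 / 2 : ℝ) • (b - a - c),
    (1 / 2 : ℝ) • (c - a - b)]
  have hu : Orthonormal ℝ u := by
    rw [orthonormal_iff_ite]
    intro i j
    fin_cases i <;> fin_cases j <;>
      simp only [u, Fin.mk_zero, Fin.isValue, Matrix.cons_val_zero, Matrix.cons_val_one,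
        Matrix.cons_val, Fin.mk_one, Fin.reduceFinMk, inner_smul_left,
        inner_smul_right, inner_sub_left, inner_sub_right, haa, hbb, hcc,
        hab, hac, hbc, hba, hca, hcb, conj_trivial] <;> norm_num <;> decide
  let φ : Fin 16 → F := fun x => z x - (1 / 4 : ℝ) • (a + b + c)
  have hC : Conf16 u φ := by
    refine ⟨?_, ?_, ?_⟩
    · intro m x
      fin_cases m <;>
        simp only [u, φ, Fin.mk_zero, Fin.isValue, Matrix.cons_val_zero, Matrix.cons_val_one,
          Matrix.cons_val, Fin.mk_one, Fin.reduceFinMk,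
          inner_smul_left, inner_smul_right, inner_sub_left, inner_sub_right,
          inner_add_right, haa, hbb, hcc, hab, hac, hbc, hba, hca, hcb, haz, hbz, hcz,
          conj_trivial] <;> norm_num
    · intro x
      simp only [φ, inner_smul_left, inner_smul_right, inner_sub_left, inner_sub_right,
          inner_add_right, inner_add_left, haa, hbb, hcc, hab, hac, hbc, hba, hca, hcb, haz, hbz,
          hcz, hza, hzb, hzc, hzz, conj_trivial]
      norm_num
    · intro x y hxy
      simp only [φ, inner_smul_left, inner_smul_right, inner_sub_left, inner_sub_right,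
          inner_add_right, inner_add_left, haa, hbb, hcc, hab, hac, hbc, hba, hca, hcb, haz, hbz,
          hcz, hza, hzb, hzc, hzadj x y hxy, conj_trivial]
      norm_num
  have h1 := rigid16 hF hu hC x y hxy
  have h2 : dist (g (Y x)) (g (Y y)) ^ 2 = inner ℝ (φ x - φ y) (φ x - φ y) := by
    rw [dist_eq_norm, real_inner_self_eq_norm_sq]
    congr 2
    simp only [φ, z]
    abel
  rw [h2]
  simp only [inner_sub_left, inner_sub_right]
  rw [hC.nn, hC.nn, h1, real_inner_comm (φ x) (φ y), h1]
  norm_num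


/-- `√2` is preserved by unit-distance-preserving maps `ℝ⁸ → F`, `dim F = 9`. -/
theorem sqrt_two (hF : finrank ℝ F = 9) [FiniteDimensional ℝ F] (f : E8 → F)
    (hf : ∀ x y, dist x y = 1 → dist (f x) (f y) = 1) (p q : E8) (hpq : dist p q = √2) :
    dist (f p) (f q) = √2 := by
  have h2 : (0 : ℝ) < √2 := by positivity
  have hs : √2 * √2 = 2 := Real.mul_self_sqrt (by norm_num)
  -- an isometry moving the model pair to `√2 p, √2 q`
  have hfar : far 0 15 = true := by decide
  have hd : dist (Y 0) (Y 15) = 2 := by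
    have := dist_far 0 15 hfar
    have h0 : 0 ≤ dist (Y 0) (Y 15) := dist_nonneg
    nlinarith
  have hn : ‖Y 0 - Y 15‖ = ‖√2 • p - √2 • q‖ := by
    rw [← dist_eq_norm, hd, ← smul_sub, norm_smul, ← dist_eq_norm, hpq, Real.norm_eq_abs,
      abs_of_pos h2, hs]
  let R := Submodule.reflection (ℝ ∙ ((Y 0 - Y 15) - (√2 • p - √2 • q)))ᗮ
  have hR : R (Y 0 - Y 15) = √2 • p - √2 • q := Submodule.reflection_sub hn
  let A : E8 → E8 := fun x => (√2)⁻¹ • (R (x - Y 15)) + q
  have hA15 : A (Y 15) = q := by simp [A]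
  have hA0 : A (Y 0) = p := by
    simp only [A, hR, ← smul_sub, smul_smul, inv_mul_cancel₀ h2.ne', one_smul]
    abel
  have hAd : ∀ x y, dist (A x) (A y) = (√2)⁻¹ * dist x y := by
    intro x y
    simp only [A, dist_add_right, dist_smul₀, Real.norm_eq_abs, abs_inv, abs_of_pos h2]
    rw [R.dist_map, dist_sub_right]
  let g : E8 → F := fun x => √2 • f (A x)
  have hg : ∀ x y, dist x y ^ 2 = 2 → dist (g x) (g y) ^ 2 = 2 := by
    intro x y hxy
    have h3 : dist x y = √2 := by
      rw [← hxy, Real.sqrt_sq dist_nonneg]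
    have h4 : dist (A x) (A y) = 1 := by
      rw [hAd, h3, inv_mul_cancel₀ h2.ne']
    simp only [g, dist_smul₀, hf _ _ h4, Real.norm_eq_abs, abs_of_pos h2, mul_one]
    exact Real.sq_sqrt (by norm_num)
  have h5 := config_rigid hF g hg 0 15 hfar
  simp only [g, hA0, hA15, dist_smul₀, Real.norm_eq_abs, abs_of_pos h2] at h5
  have h6 : dist (f p) (f q) ^ 2 = 2 := by
    rw [mul_pow, Real.sq_sqrt (by norm_num)] at h5
    linarith
  rw [← h6, Real.sqrt_sq dist_nonneg]


section last

variable {V W : Type*} [NormedAddCommGroup V] [InnerProductSpace ℝ V]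
  [NormedAddCommGroup W] [InnerProductSpace ℝ W]

theorem exists_unit (hV : 3 ≤ finrank ℝ V) (u v : V) :
    ∃ w : V, ‖w‖ = 1 ∧ inner ℝ u w = 0 ∧ inner ℝ v w = 0 := by
  have : FiniteDimensional ℝ V := FiniteDimensional.of_finrank_pos (by omega)
  have h1 : finrank ℝ (Submodule.span ℝ ({u, v} : Set V)) ≤ 2 := by
    classical
    have := finrank_span_finset_le_card (R := ℝ) ({u, v} : Finset V)
    rw [Finset.coe_pair] at this
    exact this.trans Finset.card_le_two
  have h2 : (Submodule.span ℝ ({u, v} : Set V))ᗮ ≠ ⊥ := by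
    intro hc
    have h3 := Submodule.finrank_add_finrank_orthogonal (Submodule.span ℝ ({u, v} : Set V))
    rw [hc, finrank_bot] at h3
    omega
  obtain ⟨w, hw, hw0⟩ := Submodule.exists_mem_ne_zero_of_ne_bot h2
  have hu : inner ℝ u w = 0 :=
    (Submodule.mem_orthogonal _ _).1 hw u (Submodule.subset_span (by simp))
  have hv : inner ℝ v w = 0 :=
    (Submodule.mem_orthogonal _ _).1 hw v (Submodule.subset_span (by simp))
  refine ⟨(‖w‖⁻¹ : ℝ) • w, ?_, ?_, ?_⟩
  · rw [norm_smul, norm_inv, norm_norm, inv_mul_cancel₀ (norm_ne_zero_iff.2 hw0)]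
  · rw [inner_smul_right, hu, mul_zero]
  · rw [inner_smul_right, hv, mul_zero]

/-- a short vector orthogonal to `u` is a sum of two unit vectors orthogonal to `u` -/
theorem two_units (hV : 3 ≤ finrank ℝ V) (u r : V) (hr : inner ℝ u r = 0) (hr2 : ‖r‖ ≤ 2) :
    ∃ a b : V, r = a + b ∧ ‖a‖ = 1 ∧ ‖b‖ = 1 ∧ inner ℝ u a = 0 ∧ inner ℝ u b = 0 := by
  obtain ⟨w, hw1, hwu, hwr⟩ := exists_unit hV u r
  have h0 : 0 ≤ 1 - ‖r‖ ^ 2 / 4 := by nlinarith [norm_nonneg r]
  set s := √(1 - ‖r‖ ^ 2 / 4) with hs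
  have hss : s * s = 1 - ‖r‖ ^ 2 / 4 := Real.mul_self_sqrt h0
  have hn : ∀ t : ℝ, t * t = s * s → ‖(1 / 2 : ℝ) • r + t • w‖ = 1 := by
    intro t ht
    have : ‖(1 / 2 : ℝ) • r + t • w‖ ^ 2 = 1 := by
      rw [norm_add_sq_real, inner_smul_left, inner_smul_right, hwr, norm_smul, norm_smul, hw1]
      simp only [mul_zero, add_zero, mul_one, mul_pow, Real.norm_eq_abs, sq_abs]
      rw [pow_two t, ht, hss]
      ring
    have h1 : (0 : ℝ) ≤ ‖(1 / 2 : ℝ) • r + t • w‖ := norm_nonneg _
    nlinarith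
  refine ⟨(1 / 2 : ℝ) • r + s • w, (1 / 2 : ℝ) • r + (-s) • w, ?_, hn s rfl,
    hn (-s) (by ring), ?_, ?_⟩
  · have : (1 / 2 : ℝ) • r + (1 / 2 : ℝ) • r = r := by rw [← add_smul]; norm_num
    rw [neg_smul]
    nth_rewrite 1 [← this]
    abel
  · rw [inner_add_right, inner_smul_right, inner_smul_right, hr, hwu]; simp
  · rw [inner_add_right, inner_smul_right, inner_smul_right, hr, hwu]; simp

variable (f : V → W) (h1 : ∀ x y, dist x y = 1 → dist (f x) (f y) = 1)
  (h2 : ∀ x y, dist x y = √2 → dist (f x) (f y) = √2)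

include h1 h2 in
theorem parallelogram (x u v : V) (hu : ‖u‖ = 1) (hv : ‖v‖ = 1) (huv : inner ℝ u v = 0) :
    f (x + u + v) = f (x + u) + f (x + v) - f x := by
  have hs : (√2 : ℝ) ^ 2 = 2 := Real.sq_sqrt (by norm_num)
  have e1 : ‖u + v‖ = √2 := by
    have : ‖u + v‖ ^ 2 = 2 := by rw [norm_add_sq_real, hu, hv, huv]; norm_num
    rw [← this, Real.sqrt_sq (norm_nonneg _)]
  have e2 : ‖u - v‖ = √2 := by
    have : ‖u - v‖ ^ 2 = 2 := by rw [norm_sub_sq_real, hu, hv, huv]; norm_num
    rw [← this, Real.sqrt_sq (norm_nonneg _)]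
  have na : ‖f (x + u) - f x‖ = 1 := by
    rw [← dist_eq_norm]; apply h1; rw [dist_eq_norm]; simpa using hu
  have nb : ‖f (x + v) - f x‖ = 1 := by
    rw [← dist_eq_norm]; apply h1; rw [dist_eq_norm]; simpa using hv
  have nab : ‖(f (x + u) - f x) - (f (x + v) - f x)‖ = √2 := by
    rw [sub_sub_sub_cancel_right, ← dist_eq_norm]; apply h2; rw [dist_eq_norm]; simpa using e2
  have nw : ‖f (x + u + v) - f x‖ = √2 := by
    rw [← dist_eq_norm]; apply h2; rw [dist_eq_norm, add_assoc]; simpa using e1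
  have nwa : ‖(f (x + u + v) - f x) - (f (x + u) - f x)‖ = 1 := by
    rw [sub_sub_sub_cancel_right, ← dist_eq_norm]; apply h1; rw [dist_eq_norm]; simpa using hv
  have nwb : ‖(f (x + u + v) - f x) - (f (x + v) - f x)‖ = 1 := by
    rw [sub_sub_sub_cancel_right, ← dist_eq_norm]; apply h1; rw [dist_eq_norm]
    have : x + u + v - (x + v) = u := by abel
    rw [this, hu]
  set a := f (x + u) - f x with ha
  set b := f (x + v) - f x with hb
  set w := f (x + u + v) - f x with hw
  have iab : inner ℝ a b = 0 := by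
    have := norm_sub_sq_real a b
    rw [nab, na, nb, hs] at this
    linarith
  have iwa : inner ℝ w a = 1 := by
    have := norm_sub_sq_real w a
    rw [nwa, nw, na, hs] at this
    linarith
  have iwb : inner ℝ w b = 1 := by
    have := norm_sub_sq_real w b
    rw [nwb, nw, nb, hs] at this
    linarith
  have h0 : ‖w - (a + b)‖ ^ 2 = 0 := by
    rw [norm_sub_sq_real, inner_add_right, norm_add_sq_real, iab, iwa, iwb, nw, na, nb, hs]
    norm_num
  have h3 : w - (a + b) = 0 := norm_eq_zero.1 (pow_eq_zero_iff (two_ne_zero)|>.1 h0)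
  have h4 : f (x + u + v) - (f (x + u) + f (x + v) - f x) = w - (a + b) := by
    rw [ha, hb, hw]; abel
  rw [h3] at h4
  exact sub_eq_zero.1 h4

include h1 h2 in
theorem shift_unit (x u v : V) (hu : ‖u‖ = 1) (hv : ‖v‖ = 1) (huv : inner ℝ u v = 0) :
    f (x + v + u) - f (x + v) = f (x + u) - f x := by
  have := parallelogram f h1 h2 x u v hu hv huv
  rw [show x + v + u = x + u + v by abel, this]
  abel

include h1 h2 in
theorem shift_orth (hV : 3 ≤ finrank ℝ V) (u : V) (hu : ‖u‖ = 1) (r : V) (hr : inner ℝ u r = 0)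
    (x : V) : f (x + r + u) - f (x + r) = f (x + u) - f x := by
  have short : ∀ r : V, inner ℝ u r = 0 → ‖r‖ ≤ 2 → ∀ x : V,
      f (x + r + u) - f (x + r) = f (x + u) - f x := by
    intro r hr hr2 x
    obtain ⟨a, b, rfl, ha, hb, hua, hub⟩ := two_units hV u r hr hr2
    rw [← add_assoc x a b, shift_unit f h1 h2 (x + a) u b hu hb hub,
      shift_unit f h1 h2 x u a hu ha hua]
  obtain ⟨n, hn⟩ := exists_nat_gt ‖r‖
  have hn0 : (0 : ℝ) < n := lt_of_le_of_lt (norm_nonneg _) hn
  have hs : ‖(n : ℝ)⁻¹ • r‖ ≤ 2 := by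
    rw [norm_smul, norm_inv, Real.norm_natCast]
    rw [inv_mul_le_iff₀ hn0]
    linarith
  have step : ∀ m : ℕ, f (x + (m : ℝ) • ((n : ℝ)⁻¹ • r) + u) - f (x + (m : ℝ) • ((n : ℝ)⁻¹ • r)) =
      f (x + u) - f x := by
    intro m
    induction m with
    | zero => simp
    | succ m ih =>
      rw [← ih]
      have e : x + ((m + 1 : ℕ) : ℝ) • ((n : ℝ)⁻¹ • r) =
          (x + (m : ℝ) • ((n : ℝ)⁻¹ • r)) + (n : ℝ)⁻¹ • r := by
        push_cast
        rw [add_smul, one_smul, add_assoc]
      rw [e]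
      exact short _ (by rw [inner_smul_right, hr, mul_zero]) hs _
  have := step n
  rwa [smul_smul, mul_inv_cancel₀ hn0.ne', one_smul] at this

include h1 h2 in
theorem star_identity (hV : 3 ≤ finrank ℝ V) (u v : V) (hu : ‖u‖ = 1) (hv : ‖v‖ = 1)
    (huv : inner ℝ u v = 0) (x : V) (t : ℝ) :
    (f (x + t • u + u) - f (x + t • u)) - (f (x + u) - f x) =
      (f (x + v) - f x) - (f (x - t • v + v) - f (x - t • v)) := by
  obtain ⟨z, hz, huz, hvz⟩ := exists_unit hV u v
  have hs : (√2 : ℝ) ^ 2 = 2 := Real.sq_sqrt (by norm_num)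
  have hvu : inner ℝ v u = 0 := by rw [real_inner_comm]; exact huv
  have hzu : inner ℝ z u = 0 := by rw [real_inner_comm]; exact huz
  have hzv : inner ℝ z v = 0 := by rw [real_inner_comm]; exact hvz
  have huu : inner ℝ u u = 1 := by rw [real_inner_self_eq_norm_sq, hu]; norm_num
  have hvv : inner ℝ v v = 1 := by rw [real_inner_self_eq_norm_sq, hv]; norm_num
  have hzz : inner ℝ z z = 1 := by rw [real_inner_self_eq_norm_sq, hz]; norm_num
  let u' : V := (1 / 2 : ℝ) • (u + v) + (√2 / 2) • z
  let v' : V := (1 / 2 : ℝ) • (u + v) - (√2 / 2) • z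
  have hu' : ‖u'‖ = 1 := by
    have : ‖u'‖ ^ 2 = 1 := by
      rw [← real_inner_self_eq_norm_sq]
      simp only [u', inner_add_left, inner_add_right, inner_smul_left, inner_smul_right, huv, hvu,
        huz, hvz, hzu, hzv, huu, hvv, hzz, conj_trivial]
      nlinarith
    nlinarith [norm_nonneg u']
  have hv' : ‖v'‖ = 1 := by
    have : ‖v'‖ ^ 2 = 1 := by
      rw [← real_inner_self_eq_norm_sq]
      simp only [v', inner_add_left, inner_add_right, inner_sub_left, inner_sub_right,
        inner_smul_left, inner_smul_right, huv, hvu,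
        huz, hvz, hzu, hzv, huu, hvv, hzz, conj_trivial]
      nlinarith
    nlinarith [norm_nonneg v']
  have huv' : inner ℝ u' v' = 0 := by
    simp only [u', v', inner_add_left, inner_add_right, inner_sub_right,
        inner_smul_left, inner_smul_right, huv, hvu,
        huz, hvz, hzu, hzv, huu, hvv, hzz, conj_trivial]
    nlinarith
  have hsum : u' + v' = u + v := by
    simp only [u', v']
    have : (1 / 2 : ℝ) • (u + v) + (1 / 2 : ℝ) • (u + v) = u + v := by rw [← add_smul]; norm_num
    nth_rewrite 3 [← this]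
    abel
  let r : V := t • u - t • v
  have hr1 : inner ℝ u' r = 0 := by
    simp only [u', r, inner_add_left, inner_sub_right,
        inner_smul_left, inner_smul_right, huv, hvu,
        huz, hvz, hzu, hzv, huu, hvv, hzz, conj_trivial]
    ring
  have hr2 : inner ℝ v' r = 0 := by
    simp only [v', r, inner_add_left, inner_sub_left, inner_sub_right,
        inner_smul_left, inner_smul_right, huv, hvu,
        huz, hvz, hzu, hzv, huu, hvv, hzz, conj_trivial]
    ring
  have A : ∀ x, f (x + (u + v)) = f (x + u) + f (x + v) - f x := fun x => by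
    rw [← add_assoc]; exact parallelogram f h1 h2 x u v hu hv huv
  have B : ∀ x, f (x + (u + v)) = f (x + u') + f (x + v') - f x := fun x => by
    rw [← hsum, ← add_assoc]; exact parallelogram f h1 h2 x u' v' hu' hv' huv'
  have C1 := shift_orth f h1 h2 hV u' hu' r hr1 x
  have C2 := shift_orth f h1 h2 hV v' hv' r hr2 x
  have D1 : f (x + r + u) - f (x + r) = f (x + t • u + u) - f (x + t • u) := by
    have := shift_orth f h1 h2 hV u hu (-(t • v)) (by
      rw [inner_neg_right, inner_smul_right, huv]; simp) (x + t • u)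
    have e : x + r = x + t • u + -(t • v) := by simp only [r]; abel
    rw [e]
    exact this
  have D2 : f (x + r + v) - f (x + r) = f (x - t • v + v) - f (x - t • v) := by
    have := shift_orth f h1 h2 hV v hv (t • u) (by
      rw [inner_smul_right, hvu]; simp) (x - t • v)
    have e : x + r = x - t • v + t • u := by simp only [r]; abel
    rw [e]
    exact this
  have E : (f (x + r + u) - f (x + r)) + (f (x + r + v) - f (x + r)) =
      (f (x + u) - f x) + (f (x + v) - f x) := by
    have a1 := A (x + r)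
    have a2 := B (x + r)
    have b1 := A x
    have b2 := B x
    have e1 : (f (x + r + u) - f (x + r)) + (f (x + r + v) - f (x + r)) =
        (f (x + r + u') - f (x + r)) + (f (x + r + v') - f (x + r)) := by
      have := a1.symm.trans a2
      calc _ = (f (x + r + u) + f (x + r + v) - f (x + r)) - f (x + r) := by abel
        _ = (f (x + r + u') + f (x + r + v') - f (x + r)) - f (x + r) := by rw [this]
        _ = _ := by abel
    have e2 : (f (x + u) - f x) + (f (x + v) - f x) =
        (f (x + u') - f x) + (f (x + v') - f x) := by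
      have := b1.symm.trans b2
      calc _ = (f (x + u) + f (x + v) - f x) - f x := by abel
        _ = (f (x + u') + f (x + v') - f x) - f x := by rw [this]
        _ = _ := by abel
    rw [e1, e2, C1, C2]
  rw [D1, D2] at E
  rw [sub_eq_sub_iff_add_eq_add, E]
  abel

include h1 h2 in
theorem shift_par (hV : 3 ≤ finrank ℝ V) (u : V) (hu : ‖u‖ = 1) (x : V) (t : ℝ) :
    f (x + t • u + u) - f (x + t • u) = f (x + u) - f x := by
  obtain ⟨v, hv, huv, -⟩ := exists_unit hV u u
  have hvu : inner ℝ v u = 0 := by rw [real_inner_comm]; exact huv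
  let A : ℝ → W := fun t => (f (x + t • u + u) - f (x + t • u)) - (f (x + u) - f x)
  have hadd : ∀ s t, A (s + t) = A s + A t := by
    intro s t
    have e1 := star_identity f h1 h2 hV u v hu hv huv (x + s • u) t
    have e2 := star_identity f h1 h2 hV u v hu hv huv x t
    have c1 := shift_orth f h1 h2 hV v hv (s • u) (by rw [inner_smul_right, hvu]; simp) x
    have c2 := shift_orth f h1 h2 hV v hv (s • u) (by rw [inner_smul_right, hvu]; simp) (x - t • v)
    have e3 : x + s • u - t • v = x - t • v + s • u := by abel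
    rw [e3, c1, c2, ← e2] at e1
    have e4 : x + s • u + t • u = x + (s + t) • u := by rw [add_smul, add_assoc]
    rw [e4] at e1
    simp only [A]
    rw [← e1]
    abel
  have hbd : ∀ t, ‖A t‖ ≤ 2 := by
    intro t
    have n1 : ‖f (x + t • u + u) - f (x + t • u)‖ = 1 := by
      rw [← dist_eq_norm]; apply h1; rw [dist_eq_norm]; simpa using hu
    have n2 : ‖f (x + u) - f x‖ = 1 := by
      rw [← dist_eq_norm]; apply h1; rw [dist_eq_norm]; simpa using hu
    calc ‖A t‖ ≤ ‖f (x + t • u + u) - f (x + t • u)‖ + ‖f (x + u) - f x‖ := norm_sub_le _ _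
      _ = 2 := by rw [n1, n2]; norm_num
  have hmul : ∀ (n : ℕ) (t : ℝ), A (n * t) = (n : ℝ) • A t := by
    intro n t
    induction n with
    | zero =>
      have h0 : A 0 = 0 := by simp [A]
      simp [h0]
    | succ n ih =>
      push_cast
      rw [add_mul, one_mul, hadd, ih, add_smul, one_smul]
  have hz : A t = 0 := by
    by_contra hne
    have hpos : 0 < ‖A t‖ := norm_pos_iff.2 hne
    obtain ⟨n, hn⟩ := exists_nat_gt (2 / ‖A t‖)
    have h3 := hbd (n * t)
    rw [hmul, norm_smul, Real.norm_natCast] at h3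
    rw [div_lt_iff₀ hpos] at hn
    linarith
  exact sub_eq_zero.1 hz

include h1 h2 in
theorem shift_all (hV : 3 ≤ finrank ℝ V) (u : V) (hu : ‖u‖ = 1) (x y : V) :
    f (y + u) - f y = f (x + u) - f x := by
  let t : ℝ := inner ℝ u (y - x)
  let r : V := (y - x) - t • u
  have hr : inner ℝ u r = 0 := by
    simp only [r, inner_sub_right, inner_smul_right, real_inner_self_eq_norm_sq, hu, t]
    ring
  have e : y = x + t • u + r := by simp only [r]; abel
  rw [e, shift_orth f h1 h2 hV u hu r hr, shift_par f h1 h2 hV u hu]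

include h1 h2 in
/-- A map preserving the distances `1` and `√2` is an isometry. -/
theorem isometry_of_two (hV : 3 ≤ finrank ℝ V) (x y : V) : dist (f x) (f y) = dist x y := by
  have short : ∀ w : V, ‖w‖ ≤ 2 → (∀ x, f (x + w) - f x = f w - f 0) ∧ ‖f w - f 0‖ ≤ 2 := by
    intro w hw
    obtain ⟨a, b, rfl, ha, hb, -, -⟩ := two_units hV 0 w (by simp) hw
    have ea : ∀ x, f (x + a) - f x = f a - f 0 := fun x => by
      have := shift_all f h1 h2 hV a ha 0 x
      simpa using this
    have eb : ∀ x, f (x + b) - f x = f b - f 0 := fun x => by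
      have := shift_all f h1 h2 hV b hb 0 x
      simpa using this
    have e3 : ∀ x, f (x + (a + b)) - f x = (f a - f 0) + (f b - f 0) := by
      intro x
      rw [← ea x, ← eb (x + a), ← add_assoc]
      abel
    have na : ‖f a - f 0‖ = 1 := by
      rw [← dist_eq_norm]; apply h1; rw [dist_eq_norm]; simpa using ha
    have nb : ‖f b - f 0‖ = 1 := by
      rw [← dist_eq_norm]; apply h1; rw [dist_eq_norm]; simpa using hb
    have e0 : f (a + b) - f 0 = (f a - f 0) + (f b - f 0) := by
      have := e3 0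
      rwa [zero_add] at this
    refine ⟨fun x => by rw [e3 x, e0], ?_⟩
    rw [e0]
    calc _ ≤ ‖f a - f 0‖ + ‖f b - f 0‖ := norm_add_le _ _
      _ = 2 := by rw [na, nb]; norm_num
  have all : ∀ w x : V, f (x + w) - f x = f w - f 0 := by
    intro w
    obtain ⟨n, hn⟩ := exists_nat_gt ‖w‖
    have hn0 : (0 : ℝ) < n := lt_of_le_of_lt (norm_nonneg _) hn
    have hs : ‖(n : ℝ)⁻¹ • w‖ ≤ 2 := by
      rw [norm_smul, norm_inv, Real.norm_natCast]
      rw [inv_mul_le_iff₀ hn0]
      linarith
    have step : ∀ m : ℕ, ∀ x, f (x + (m : ℝ) • ((n : ℝ)⁻¹ • w)) - f x =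
        (m : ℝ) • (f ((n : ℝ)⁻¹ • w) - f 0) := by
      intro m
      induction m with
      | zero => intro x; simp
      | succ m ih =>
        intro x
        have e : x + ((m + 1 : ℕ) : ℝ) • ((n : ℝ)⁻¹ • w) =
            (x + (m : ℝ) • ((n : ℝ)⁻¹ • w)) + (n : ℝ)⁻¹ • w := by
          push_cast
          rw [add_smul, one_smul, add_assoc]
        rw [e]
        have e1 := (short _ hs).1 (x + (m : ℝ) • ((n : ℝ)⁻¹ • w))
        have e2 := ih x
        push_cast
        rw [add_smul, one_smul, ← e2, ← e1]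
        abel
    intro x
    have e1 := step n x
    have e2 := step n 0
    rw [smul_smul, mul_inv_cancel₀ hn0.ne', one_smul] at e1 e2
    rw [zero_add] at e2
    rw [e1, e2]
  let T : V →+ W :=
    { toFun := fun w => f w - f 0
      map_zero' := by simp
      map_add' := by
        intro w w'
        have := all w' w
        rw [← this]
        abel }
  have hTb : ∀ w : V, ‖w‖ ≤ 2 → ‖T w‖ ≤ 2 := fun w hw => (short w hw).2
  have hTc : Continuous T := by
    apply continuous_of_continuousAt_zero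
    rw [Metric.continuousAt_iff]
    intro ε hε
    obtain ⟨n, hn⟩ := exists_nat_gt (2 / ε)
    have hn0 : (0 : ℝ) < n := lt_trans (by positivity) hn
    refine ⟨2 / n, by positivity, fun {w} hw => ?_⟩
    rw [dist_zero_right] at hw
    rw [map_zero, dist_zero_right]
    have e1 : ‖(n : ℕ) • w‖ ≤ 2 := by
      rw [← Nat.cast_smul_eq_nsmul ℝ, norm_smul, Real.norm_natCast]
      rw [lt_div_iff₀ hn0] at hw
      linarith
    have e2 := hTb _ e1
    rw [map_nsmul, ← Nat.cast_smul_eq_nsmul ℝ, norm_smul, Real.norm_natCast] at e2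
    rw [div_lt_iff₀ hε] at hn
    by_contra hcon
    push Not at hcon
    nlinarith
  have hT1 : ∀ u : V, ‖u‖ = 1 → ‖T u‖ = 1 := by
    intro u hu
    change ‖f u - f 0‖ = 1
    rw [← dist_eq_norm]; apply h1; rw [dist_eq_norm]; simpa using hu
  have hTl : ∀ (c : ℝ) (w : V), T (c • w) = c • T w := fun c w => map_real_smul T hTc c w
  have hTn : ∀ w : V, ‖T w‖ = ‖w‖ := by
    intro w
    by_cases hw : w = 0
    · simp [hw]
    have hw0 : ‖w‖ ≠ 0 := norm_ne_zero_iff.2 hw
    have e1 : ‖(‖w‖⁻¹ : ℝ) • w‖ = 1 := by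
      rw [norm_smul, norm_inv, norm_norm, inv_mul_cancel₀ hw0]
    have e2 : w = ‖w‖ • ((‖w‖⁻¹ : ℝ) • w) := by rw [smul_smul, mul_inv_cancel₀ hw0, one_smul]
    conv_lhs => rw [e2]
    rw [hTl, norm_smul, hT1 _ e1, norm_norm, mul_one]
  have e := all (x - y) y
  rw [add_sub_cancel] at e
  rw [dist_eq_norm, e, dist_eq_norm]
  exact hTn (x - y)

end last


/-- Every map from `ℝ⁸` to a nine-dimensional Euclidean space that preserves the distance `1`
preserves all distances. -/
theorem rigid_eight_nine {F : Type*} [NormedAddCommGroup F] [InnerProductSpace ℝ F]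
    (hF : finrank ℝ F = 9) [FiniteDimensional ℝ F] (f : E8 → F)
    (hf : ∀ x y, dist x y = 1 → dist (f x) (f y) = 1) (x y : E8) :
    dist (f x) (f y) = dist x y :=
  isometry_of_two f hf (fun p q hpq => sqrt_two hF f hf p q hpq) (by simp) x y

end Pool.Agent.Helper241.BQ
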