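import Mathlib

set_option autoImplicit false

namespace Pool.Agent.Helper241.DerExt

open KaehlerDifferential TensorProduct

/-- Derivations extend along formally etale extensions. -/
theorem exists_extend (R S T : Type*) [CommRing R] [CommRing S] [CommRing T]
    [Algebra R S] [Algebra R T] [Algebra S T] [IsScalarTower R S T] [Algebra.FormallyEtale S T]
    (d : Derivation R S T) : ∃ D : Derivation R T T, ∀ s : S, D (algebraMap S T s) = d s := by
  let ℓ : Ω[S⁄R] →ₗ[S] T := d.liftKaehlerDifferential
  let ℓ' : T ⊗[S] Ω[S⁄R] →ₗ[T] T := ℓ.liftBaseChange T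
  let e := KaehlerDifferential.tensorKaehlerEquivOfFormallyEtale R S T
  refine ⟨(ℓ'.comp e.symm.toLinearMap).compDer (KaehlerDifferential.D R T), fun s => ?_⟩
  simp only [Derivation.coe_comp, LinearMap.coe_comp, Function.comp_apply, Derivation.coeFn_coe]
  change ℓ' (e.symm (KaehlerDifferential.D R T (algebraMap S T s))) = d s
  rw [KaehlerDifferential.tensorKaehlerEquivOfFormallyEtale_symm_D_algebraMap]
  simp [ℓ', ℓ]

/-- Derivations of formally unramified extensions are determined on the base. -/
theorem ext_of_unramified (R S T : Type*) [CommRing R] [CommRing S] [CommRing T]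
    [Algebra R S] [Algebra R T] [Algebra S T] [IsScalarTower R S T] [Algebra.FormallyUnramified S T]
    (D1 D2 : Derivation R T T) (h : ∀ s : S, D1 (algebraMap S T s) = D2 (algebraMap S T s)) :
    D1 = D2 := by
  let D : Derivation S T T := Derivation.mk'
    { toFun := fun t => D1 t - D2 t
      map_add' := fun x y => by rw [map_add, map_add]; ring
      map_smul' := fun s x => by
        simp only [RingHom.id_apply]
        rw [Algebra.smul_def, Derivation.leibniz, Derivation.leibniz, h s]
        simp only [smul_eq_mul, Algebra.smul_def]
        ring }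
    (by
      intro a b
      change D1 (a * b) - D2 (a * b) = a • (D1 b - D2 b) + b • (D1 a - D2 a)
      rw [Derivation.leibniz, Derivation.leibniz]
      simp only [smul_eq_mul]
      ring)
  have hD : D = 0 := by
    have h1 : D.liftKaehlerDifferential = 0 := by
      apply LinearMap.ext
      intro x
      have : x = 0 := Subsingleton.elim _ _
      rw [this, map_zero, map_zero]
    have h2 := D.liftKaehlerDifferential_comp
    rw [← h2, h1]
    ext x; simp
  ext t
  have h3 : D t = 0 := by rw [hD]; rfl
  exact sub_eq_zero.mp h3

end Pool.Agent.Helper241.DerExt
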