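import Mathlib

set_option autoImplicit false

namespace Pool.Agent.Helper241.TraceLog

open Matrix Finset

section Jacobi

variable {k : Type*} [CommRing k] {R : Type*} [CommRing R] [Algebra k R] {n : Type*} [Fintype n] [DecidableEq n]

/-- Leibniz rule for products. -/
lemma der_prod {ι : Type*} [DecidableEq ι] (d : Derivation k R R) (s : Finset ι) (f : ι → R) :
    d (∏ i ∈ s, f i) = ∑ k ∈ s, (∏ i ∈ s.erase k, f i) * d (f k) := by
  induction s using Finset.induction_on with
  | empty => simp
  | insert a s ha ih =>
    rw [prod_insert ha, Derivation.leibniz, ih, sum_insert ha, erase_insert ha, smul_eq_mul,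
      smul_eq_mul, add_comm, mul_sum]
    congr 1
    apply sum_congr rfl
    intro k hk
    have hne : k ≠ a := fun h => ha (h ▸ hk)
    rw [erase_insert_of_ne hne.symm, prod_insert (fun h => ha (mem_of_mem_erase h))]
    ring

lemma jacobi (d : Derivation k R R) (M : Matrix n n R) :
    d M.det = Matrix.trace (adjugate M * M.map d) := by
  have h1 : d M.det = ∑ k, (M.updateCol k (fun i => d (M i k))).det := by
    rw [det_apply', map_sum]
    have h2 : ∀ k : n, (M.updateCol k (fun i => d (M i k))).det =
        ∑ σ : Equiv.Perm n, ((Equiv.Perm.sign σ : ℤ) : R) *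
          ((∏ i ∈ univ.erase k, M (σ i) i) * d (M (σ k) k)) := by
      intro k
      rw [det_apply']
      apply sum_congr rfl
      intro σ _
      congr 1
      rw [← mul_prod_erase univ _ (mem_univ k), mul_comm]
      congr 1
      · apply prod_congr rfl
        intro i hi
        rw [updateCol_ne (ne_of_mem_erase hi)]
      · rw [updateCol_self]
    simp_rw [h2]
    rw [sum_comm]
    apply sum_congr rfl
    intro σ _
    rw [Derivation.leibniz, der_prod, Derivation.map_intCast, smul_zero, add_zero, smul_eq_mul,
      mul_sum]
  rw [h1, Matrix.trace]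
  apply sum_congr rfl
  intro k _
  rw [← cramer_apply, cramer_eq_adjugate_mulVec, diag_apply, Matrix.mul_apply]
  rfl

end Jacobi

section TraceLog

variable {k : Type*} [CommRing k] {E L : Type*} [Field E] [Field L] [Algebra E L] [FiniteDimensional E L]
  [Algebra k E] [Algebra k L]

/-- For a derivation of a finite extension `L / E` extending one of `E`, the trace of the
logarithmic derivative is the logarithmic derivative of the norm. -/
theorem trace_logDeriv (d : Derivation k E E) (D : Derivation k L L)
    (hD : ∀ e : E, D (algebraMap E L e) = algebraMap E L (d e)) (y : L) (hy : y ≠ 0) :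
    Algebra.trace E L (D y / y) = d (Algebra.norm E y) / Algebra.norm E y := by
  classical
  let b := Module.finBasis E L
  let φ := Algebra.leftMulMatrix b
  let G : Matrix _ _ E := Matrix.of fun i j => b.repr (D (b j)) i
  -- key identity
  have key : (φ y).map d = φ (D y) + φ y * G - G * φ y := by
    have hrep : ∀ z : L, ∀ j, z * b j = ∑ i, φ z i j • b i := by
      intro z j
      have := b.sum_repr (z * b j)
      rw [← this]
      apply sum_congr rfl
      intro i _
      congr 1
      rw [Algebra.leftMulMatrix_eq_repr_mul]
    have hDb : ∀ j, D (b j) = ∑ i, G i j • b i := by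
      intro j
      exact (b.sum_repr (D (b j))).symm
    have hDs : ∀ (e : E) (z : L), D (e • z) = d e • z + e • D z := by
      intro e z
      rw [Algebra.smul_def, Derivation.leibniz, hD, smul_eq_mul, smul_eq_mul, Algebra.smul_def,
        Algebra.smul_def]
      ring
    ext k j
    have h1 : D (y * b j) = ∑ i, ((φ y).map d + G * φ y) i j • b i := by
      rw [hrep y j, map_sum]
      simp_rw [hDs, hDb, smul_sum, Matrix.add_apply, add_smul, sum_add_distrib, Matrix.map_apply,
        Matrix.mul_apply, sum_smul]
      congr 1
      rw [sum_comm]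
      apply sum_congr rfl
      intro i _
      apply sum_congr rfl
      intro l _
      rw [smul_smul, mul_comm]
    have h2 : D (y * b j) = ∑ i, (φ (D y) + φ y * G) i j • b i := by
      rw [Derivation.leibniz, smul_eq_mul, smul_eq_mul, mul_comm (b j), hrep (D y) j, hDb, mul_sum]
      simp_rw [mul_smul_comm, hrep, smul_sum, Matrix.add_apply, add_smul, sum_add_distrib,
        Matrix.mul_apply, sum_smul]
      rw [add_comm]
      congr 1
      rw [sum_comm]
      apply sum_congr rfl
      intro i _
      apply sum_congr rfl
      intro l _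
      rw [smul_smul, mul_comm]
    rw [h1] at h2
    have h3 := congrArg (fun z => b.repr z k) h2
    simp only [Module.Basis.repr_sum_self] at h3
    rw [Matrix.add_apply] at h3
    rw [Matrix.sub_apply, ← h3]
    ring
  have hN : Algebra.norm E y = (φ y).det := Algebra.norm_eq_matrix_det b y
  have hinv : φ y * φ y⁻¹ = 1 := by rw [← map_mul, mul_inv_cancel₀ hy, map_one]
  have hadj : adjugate (φ y) = (φ y).det • φ y⁻¹ := by
    calc adjugate (φ y) = adjugate (φ y) * (φ y * φ y⁻¹) := by rw [hinv, mul_one]
      _ = (φ y).det • φ y⁻¹ := by rw [← mul_assoc, adjugate_mul, smul_mul_assoc, one_mul]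
  have hN0 : Algebra.norm E y ≠ 0 := by
    rw [Algebra.norm_ne_zero_iff]; exact hy
  rw [eq_div_iff hN0, mul_comm, hN, jacobi, key, hadj]
  rw [Matrix.mul_sub, Matrix.mul_add, trace_sub, trace_add]
  have e1 : Matrix.trace (((φ y).det • φ y⁻¹) * φ (D y)) =
      (φ y).det * Algebra.trace E L (D y / y) := by
    rw [smul_mul_assoc, trace_smul, ← map_mul, smul_eq_mul, Algebra.trace_eq_matrix_trace b,
      div_eq_inv_mul]
  have e2 : Matrix.trace (((φ y).det • φ y⁻¹) * (φ y * G)) =
      Matrix.trace (((φ y).det • φ y⁻¹) * (G * φ y)) := by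
    rw [← Matrix.mul_assoc, ← Matrix.mul_assoc, Matrix.trace_mul_comm (_ * G) (φ y), ← Matrix.mul_assoc]
    congr 2
    rw [smul_mul_assoc, mul_smul_comm, ← map_mul, ← map_mul, mul_comm]
  rw [e1, e2]
  ring

end TraceLog

end Pool.Agent.Helper241.TraceLog
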