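import Mathlib
import Pool.Agent.Helper241.TraceLog
import Pool.Agent.Helper241.DerExt

set_option autoImplicit false

namespace Pool.Agent.Helper241.Residue

open Polynomial

section Laurent

variable {F : Type} [Field F]

/-- The residue of a logarithmic derivative at `0` is the order of vanishing. -/
lemma residue_logDeriv_poly (p : F[X]) (hp : p ≠ 0) :
    (algebraMap F[X] (LaurentSeries F) (derivative p) /
      algebraMap F[X] (LaurentSeries F) p).coeff (-1) = (p.rootMultiplicity 0 : F) := by
  obtain ⟨q, hq⟩ := Polynomial.exists_eq_pow_rootMultiplicity_mul_and_not_dvd p hp 0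
  rw [C_0, sub_zero] at hq
  obtain ⟨hq1, hq2⟩ := hq
  set n := p.rootMultiplicity 0 with hn
  have hq0 : q.coeff 0 ≠ 0 := fun h => hq2 (X_dvd_iff.mpr h)
  have hqne : q ≠ 0 := by rintro rfl; simp at hq0
  set φ := algebraMap F[X] (LaurentSeries F) with hφ
  have hφinj : Function.Injective φ := algebraMap_hahnSeries_injective ℤ
  have hφ0 : ∀ r : F[X], r ≠ 0 → φ r ≠ 0 := fun r hr h => hr (hφinj (by rw [h, map_zero]))
  have hap : ∀ f : F[X], φ f = HahnSeries.ofPowerSeries ℤ F (f : PowerSeries F) := fun f => rfl
  have hX : φ X = HahnSeries.single 1 1 := by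
    rw [hap, Polynomial.coe_X, HahnSeries.ofPowerSeries_X]
  have hXne : φ X ≠ 0 := hφ0 X X_ne_zero
  have hder : X * derivative p = C (n : F) * p + X * (X ^ n * derivative q) := by
    rw [hq1, derivative_mul, derivative_X_pow]
    rcases Nat.eq_zero_or_pos n with h0 | h0
    · rw [h0]; simp
    · obtain ⟨m, hm⟩ : ∃ m, n = m + 1 := ⟨n - 1, by omega⟩
      rw [hm]
      simp only [Nat.add_sub_cancel]
      ring
  have hder' : φ (derivative p) / φ p = φ (C (n : F)) * (φ X)⁻¹ + φ (derivative q) / φ q := by
    have h1 := congrArg φ hder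
    simp only [map_mul, map_add, map_pow] at h1
    have h2 : φ p = φ X ^ n * φ q := by rw [hq1, map_mul, map_pow]
    have h3 : φ q ≠ 0 := hφ0 q hqne
    have h4 : φ p ≠ 0 := hφ0 p hp
    field_simp
    rw [mul_comm (φ (derivative p)), h1, h2]
    ring
  rw [hder', HahnSeries.coeff_add]
  have e1 : (φ (C (n : F)) * (φ X)⁻¹).coeff (-1) = (n : F) := by
    rw [hX, HahnSeries.inv_single, hap, Polynomial.coe_C,
      HahnSeries.ofPowerSeries_C, inv_one, HahnSeries.C_mul_eq_smul, HahnSeries.coeff_smul,
      HahnSeries.coeff_single_same, smul_eq_mul, mul_one]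
  have e2 : (φ (derivative q) / φ q).coeff (-1) = 0 := by
    have hQ : PowerSeries.constantCoeff (q : PowerSeries F) ≠ 0 := by
      rw [Polynomial.constantCoeff_coe]
      exact hq0
    have h5 : (q : PowerSeries F) * (q : PowerSeries F)⁻¹ = 1 := PowerSeries.mul_inv_cancel _ hQ
    have h6 : φ (derivative q) / φ q =
        HahnSeries.ofPowerSeries ℤ F ((derivative q : F[X]) * (q : PowerSeries F)⁻¹) := by
      rw [div_eq_iff (hφ0 q hqne)]
      rw [hap, hap, ← map_mul, mul_assoc,
        mul_comm ((q : PowerSeries F)⁻¹), h5, mul_one]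
    rw [h6, PowerSeries.coeff_coe]
    simp
  rw [e1, e2, add_zero]

end Laurent

/-- `φ` is a residue functional for the derivation `D`. -/
def IsRes (C L : Type) [Field C] [Field L] [Algebra C L] (D : Derivation C L L) (φ : L → ℤ) :
    Prop :=
  ∀ (ι : Type) (s : Finset ι) (c : ι → C) (η : ι → L), (∀ i ∈ s, η i ≠ 0) →
    ∑ i ∈ s, algebraMap C L (c i) * (D (η i) / η i) = 0 → ∑ i ∈ s, c i * (φ (η i) : C) = 0

section RatFuncCase

/-- The embedding of rational functions in Laurent series. -/
noncomputable def toLaurent (F : Type) [Field F] : RatFunc F →+* LaurentSeries F :=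
  @algebraMap _ _ _ _ (RatFunc.liftAlgebra F (LaurentSeries F))

lemma toLaurent_algebraMap (F : Type) [Field F] (p : F[X]) :
    toLaurent F (algebraMap F[X] (RatFunc F) p) = algebraMap F[X] (LaurentSeries F) p := by
  let _ := RatFunc.liftAlgebra F (LaurentSeries F)
  exact (IsScalarTower.algebraMap_apply F[X] (RatFunc F) (LaurentSeries F) p).symm

/-- The derivation of `F(X)`. -/
lemma exists_ratFunc_derivation (F : Type) [Field F] :
    ∃ d : Derivation F (RatFunc F) (RatFunc F), ∀ p : F[X],
      d (algebraMap F[X] (RatFunc F) p) = algebraMap F[X] (RatFunc F) (derivative p) := by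
  have : Algebra.FormallyEtale F[X] (RatFunc F) :=
    Algebra.FormallyEtale.of_isLocalization (nonZeroDivisors F[X])
  let d0 : Derivation F F[X] (RatFunc F) :=
    (Algebra.linearMap F[X] (RatFunc F)).compDer (Polynomial.derivative' : Derivation F F[X] F[X])
  obtain ⟨d, hd⟩ := DerExt.exists_extend F F[X] (RatFunc F) d0
  exact ⟨d, fun p => hd p⟩

/-- The residue of the logarithmic derivative of a rational function. -/
lemma residue_ratFunc (F : Type) [Field F] (d : Derivation F (RatFunc F) (RatFunc F))
    (hd : ∀ p : F[X], d (algebraMap F[X] (RatFunc F) p) = algebraMap F[X] (RatFunc F) (derivative p))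
    (e : RatFunc F) (he : e ≠ 0) :
    (toLaurent F (d e / e)).coeff (-1) =
      (((e.num.rootMultiplicity 0 : ℤ) - (e.denom.rootMultiplicity 0 : ℤ) : ℤ) : F) := by
  have hn : e.num ≠ 0 := RatFunc.num_ne_zero he
  have hdn : e.denom ≠ 0 := RatFunc.denom_ne_zero e
  have hn' : algebraMap F[X] (RatFunc F) e.num ≠ 0 := RatFunc.algebraMap_ne_zero hn
  have hdn' : algebraMap F[X] (RatFunc F) e.denom ≠ 0 := RatFunc.algebraMap_ne_zero hdn
  have h1 : d e / e = algebraMap F[X] (RatFunc F) (derivative e.num) / algebraMap F[X] (RatFunc F) e.num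
      - algebraMap F[X] (RatFunc F) (derivative e.denom) / algebraMap F[X] (RatFunc F) e.denom := by
    have h2 : e = algebraMap F[X] (RatFunc F) e.num / algebraMap F[X] (RatFunc F) e.denom :=
      (RatFunc.num_div_denom e).symm
    have h3 : d e = d (algebraMap F[X] (RatFunc F) e.num / algebraMap F[X] (RatFunc F) e.denom) :=
      congrArg d h2
    rw [h3, Derivation.leibniz_div, hd, hd, smul_eq_mul, smul_eq_mul, smul_eq_mul]
    generalize algebraMap F[X] (RatFunc F) (derivative e.num) = a at *
    generalize algebraMap F[X] (RatFunc F) (derivative e.denom) = b at *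
    generalize algebraMap F[X] (RatFunc F) e.num = u at *
    generalize algebraMap F[X] (RatFunc F) e.denom = v at *
    rw [h2]
    field_simp
  rw [h1, map_sub, map_div₀, map_div₀, toLaurent_algebraMap, toLaurent_algebraMap,
    toLaurent_algebraMap, toLaurent_algebraMap, HahnSeries.coeff_sub, residue_logDeriv_poly _ hn, residue_logDeriv_poly _ hdn]
  push_cast
  ring

theorem residue_ratFunc_case (C F L : Type) [Field C] [Field F] [Field L] [CharZero F]
    [Algebra C F] [Algebra C L] [Algebra F L] [IsScalarTower C F L] [Algebra (RatFunc F) L]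
    [IsScalarTower F (RatFunc F) L] [FiniteDimensional (RatFunc F) L] :
    ∃ (D : Derivation C L L) (φ : L → ℤ), IsRes C L D φ ∧
      φ (algebraMap (RatFunc F) L RatFunc.X) ≠ 0 := by
  obtain ⟨d, hd⟩ := exists_ratFunc_derivation F
  have : CharZero (RatFunc F) := charZero_of_injective_algebraMap
    (algebraMap F (RatFunc F)).injective
  have : Algebra.FormallyEtale (RatFunc F) L := Algebra.FormallyEtale.of_isSeparable _ _
  let d1 : Derivation F (RatFunc F) L := (Algebra.linearMap (RatFunc F) L).compDer d
  obtain ⟨D, hD⟩ := DerExt.exists_extend F (RatFunc F) L d1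
  let N : L → RatFunc F := fun y => Algebra.norm (RatFunc F) y
  let φ : L → ℤ := fun y => ((N y).num.rootMultiplicity 0 : ℤ) - ((N y).denom.rootMultiplicity 0 : ℤ)
  let ρ : L → F := fun y => (toLaurent F (Algebra.trace (RatFunc F) L y)).coeff (-1)
  have hρadd : ∀ x y, ρ (x + y) = ρ x + ρ y := by
    intro x y
    simp only [ρ, map_add, HahnSeries.coeff_add]
  have hρ0 : ρ 0 = 0 := by simp [ρ]
  have hρsum : ∀ (ι : Type) (s : Finset ι) (f : ι → L), ρ (∑ i ∈ s, f i) = ∑ i ∈ s, ρ (f i) := by
    intro ι s f
    classical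
    induction s using Finset.induction_on with
    | empty => simpa using hρ0
    | insert a s ha ih => rw [Finset.sum_insert ha, Finset.sum_insert ha, hρadd, ih]
  have hρsmul : ∀ (c : F) (x : L), ρ (algebraMap F L c * x) = c * ρ x := by
    intro c x
    have h1 : Algebra.trace (RatFunc F) L (algebraMap F L c * x) =
        algebraMap F (RatFunc F) c * Algebra.trace (RatFunc F) L x := by
      rw [IsScalarTower.algebraMap_apply F (RatFunc F) L, ← Algebra.smul_def, map_smul,
        smul_eq_mul]
    have h2 : toLaurent F (algebraMap F (RatFunc F) c) = HahnSeries.C c := by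
      rw [RatFunc.algebraMap_eq_C, ← RatFunc.algebraMap_C, toLaurent_algebraMap]
      change HahnSeries.ofPowerSeries ℤ F ((Polynomial.C c : F[X]) : PowerSeries F) = _
      rw [Polynomial.coe_C, HahnSeries.ofPowerSeries_C]
    simp only [ρ]
    rw [h1, map_mul, h2, HahnSeries.C_mul_eq_smul, HahnSeries.coeff_smul, smul_eq_mul]
  have hρlog : ∀ η : L, η ≠ 0 → ρ (D η / η) = (φ η : F) := by
    intro η hη
    have hN : N η ≠ 0 := by
      simp only [N]
      rw [Algebra.norm_ne_zero_iff]; exact hη
    have h1 := TraceLog.trace_logDeriv d D (fun e => hD e) η hη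
    simp only [ρ]
    rw [h1]
    exact residue_ratFunc F d hd (N η) hN
  refine ⟨D.restrictScalars C, φ, ?_, ?_⟩
  · intro ι s c η hη hsum
    have h1 : ρ (∑ i ∈ s, algebraMap C L (c i) * ((D.restrictScalars C) (η i) / η i)) = 0 := by
      rw [hsum, hρ0]
    rw [hρsum] at h1
    have h2 : ∀ i ∈ s, ρ (algebraMap C L (c i) * ((D.restrictScalars C) (η i) / η i)) =
        algebraMap C F (c i * (φ (η i) : C)) := by
      intro i hi
      rw [IsScalarTower.algebraMap_apply C F L, hρsmul, Derivation.restrictScalars_apply,
        hρlog _ (hη i hi), map_mul, map_intCast]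
    rw [Finset.sum_congr rfl h2, ← map_sum] at h1
    exact (algebraMap C F).injective (by rw [h1, map_zero])
  · simp only [φ, N]
    rw [Algebra.norm_algebraMap, ← RatFunc.algebraMap_X, ← map_pow, RatFunc.num_algebraMap,
      RatFunc.denom_algebraMap]
    have h1 : (X ^ Module.finrank (RatFunc F) L : F[X]).rootMultiplicity 0 =
        Module.finrank (RatFunc F) L := by
      have := rootMultiplicity_X_sub_C_pow (0 : F) (Module.finrank (RatFunc F) L)
      rwa [C_0, sub_zero] at this
    have h2 : (1 : F[X]).rootMultiplicity 0 = 0 := by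
      rw [← C_1, rootMultiplicity_C]
    rw [h1, h2]
    have h3 : 0 < Module.finrank (RatFunc F) L := Module.finrank_pos
    omega

end RatFuncCase

/-- Existence of residue functionals detecting a given transcendental element. -/
theorem exists_residue (C L : Type) [Field C] [Field L] [CharZero C] [Algebra C L]
    [Algebra.EssFiniteType C L] (ξ : L) (hξ : Transcendental C ξ) :
    ∃ (D : Derivation C L L) (φ : L → ℤ), IsRes C L D φ ∧ φ ξ ≠ 0 := by
  have hind : AlgebraicIndepOn C id ({ξ} : Set L) := by
    have : AlgebraicIndependent C (fun x : ({ξ} : Set L) => (x : L)) := by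
      rw [algebraicIndependent_singleton_iff ⟨ξ, rfl⟩]
      exact hξ
    exact this
  obtain ⟨t, ht1, ht2⟩ := exists_isTranscendenceBasis_superset hind
  have hξt : ξ ∈ t := ht1 rfl
  -- the field of coefficients
  let i0 : t := ⟨ξ, hξt⟩
  let s : Set t := {i0}ᶜ
  have htr := ht2.1.transcendental_adjoin (s := s) (i := i0) (by simp [s])
  let S : Set L := (fun i : t => (i : L)) '' s
  let F : IntermediateField C L := IntermediateField.adjoin C S
  have hξF : Transcendental F ξ := by
    open scoped IntermediateField.algebraAdjoinAdjoin in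
    intro halg
    apply htr
    rw [IsFractionRing.isAlgebraic_iff (Algebra.adjoin C S) F L]
    exact halg
  let e := RatFunc.algEquivOfTranscendental ξ hξF
  let ψ : RatFunc F →ₐ[F] L := (IntermediateField.val _).comp e.toAlgHom
  let _ : Algebra (RatFunc F) L := ψ.toRingHom.toAlgebra
  have hst1 : IsScalarTower F (RatFunc F) L := IsScalarTower.of_algebraMap_eq fun x =>
    (ψ.commutes x).symm
  have hst2 : IsScalarTower C (RatFunc F) L := by
    apply IsScalarTower.of_algebraMap_eq
    intro x
    have h1 : algebraMap C (RatFunc F) x = algebraMap F (RatFunc F) (algebraMap C F x) := by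
      rfl
    rw [h1]
    change _ = ψ _
    rw [ψ.commutes]
    exact IsScalarTower.algebraMap_apply C F L x
  have hess : Algebra.EssFiniteType (RatFunc F) L := Algebra.EssFiniteType.of_comp C (RatFunc F) L
  have halgM := ht2.isAlgebraic_field
  let M : IntermediateField C L := IntermediateField.adjoin C (Set.range ((↑) : t → L))
  have hle : M ≤ IntermediateField.restrictScalars C (IntermediateField.adjoin F {ξ}) := by
    apply IntermediateField.adjoin_le_iff.mpr
    rintro x ⟨i, rfl⟩
    by_cases hi : i = i0
    · subst hi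
      exact IntermediateField.mem_adjoin_simple_self F ξ
    · have hx : (i : L) ∈ F := IntermediateField.subset_adjoin C S ⟨i, hi, rfl⟩
      exact (IntermediateField.adjoin F {ξ}).algebraMap_mem ⟨(i : L), hx⟩
  let f0 : M →+* (IntermediateField.restrictScalars C (IntermediateField.adjoin F {ξ})) :=
    (IntermediateField.inclusion hle).toRingHom
  let f1 : M →+* RatFunc F := (e.symm.toRingEquiv.toRingHom : _ →+* RatFunc F).comp f0
  have hcomp : (algebraMap (RatFunc F) L).comp f1 = (RingHom.id L).comp (algebraMap M L) := by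
    ext x
    have h1 := congrArg Subtype.val (e.apply_symm_apply (f0 x))
    exact h1
  have halg : Algebra.IsAlgebraic (RatFunc F) L := by
    refine ⟨fun x => ?_⟩
    have h1 : IsAlgebraic M x := Algebra.IsAlgebraic.isAlgebraic x
    exact h1.ringHom_of_comp_eq f1 (RingHom.id L) f1.injective hcomp
  have hfin : FiniteDimensional (RatFunc F) L := Algebra.finite_of_essFiniteType_of_isAlgebraic
  have hcz : CharZero F := charZero_of_injective_algebraMap (algebraMap C F).injective
  obtain ⟨D, φ, h1, h2⟩ := residue_ratFunc_case C F L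
  refine ⟨D, φ, h1, ?_⟩
  have h3 : algebraMap (RatFunc F) L RatFunc.X = ξ := by
    change ((e RatFunc.X : IntermediateField.adjoin F {ξ}) : L) = ξ
    simp [e]
  rwa [h3] at h2

end Pool.Agent.Helper241.Residue
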