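import Mathlib
import Pool.Agent.Helper241.Residue

set_option autoImplicit false

namespace Pool.Agent.Helper241.Bound

open Pool.Agent.Helper241.Residue

section

variable {C L : Type} [Field C] [Field L] [Algebra C L]

/-- Horizontal functionals which are linearly independent over the constants are linearly
independent over the field. -/
theorem linInd_of_horizontal (δ : Derivation C L L)
    (hconst : ∀ x, δ x = 0 → ∃ c, algebraMap C L c = x) (n : ℕ)
    (ω : Fin n → (Derivation C L L →ₗ[L] L))
    (hω : ∀ j X, δ (ω j X) = ω j ⁅δ, X⁆)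
    (hC : LinearIndependent C ω) : LinearIndependent L ω := by
  induction n with
  | zero => exact linearIndependent_empty_type
  | succ n ih =>
    rw [linearIndependent_finSucc]
    have h1 : LinearIndependent L (Fin.tail ω) := by
      apply ih
      · intro j X
        exact hω j.succ X
      · exact (linearIndependent_finSucc.mp hC).1
    refine ⟨h1, ?_⟩
    intro hmem
    rw [Submodule.mem_span_range_iff_exists_fun] at hmem
    obtain ⟨a, ha⟩ := hmem
    have h2 : ∀ j, δ (a j) = 0 := by
      have h3 : ∑ j, δ (a j) • Fin.tail ω j = 0 := by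
        apply LinearMap.ext
        intro X
        have e1 : δ (ω 0 X) = ω 0 ⁅δ, X⁆ := hω 0 X
        rw [← ha] at e1
        simp only [LinearMap.sum_apply, LinearMap.smul_apply, smul_eq_mul, map_sum] at e1
        simp only [LinearMap.sum_apply, LinearMap.smul_apply, smul_eq_mul, LinearMap.zero_apply]
        have e2 : ∀ j, δ (a j * Fin.tail ω j X) = a j * Fin.tail ω j ⁅δ, X⁆ + δ (a j) * Fin.tail ω j X := by
          intro j
          rw [Derivation.leibniz, smul_eq_mul, smul_eq_mul]
          have := hω j.succ X
          change δ (Fin.tail ω j X) = Fin.tail ω j ⁅δ, X⁆ at this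
          rw [this]
          ring
        rw [Finset.sum_congr rfl (fun j _ => e2 j), Finset.sum_add_distrib] at e1
        exact left_eq_add.mp e1.symm
      exact fun j => Fintype.linearIndependent_iff.mp h1 _ h3 j
    choose c hc using fun j => hconst (a j) (h2 j)
    have h4 : ω 0 ∈ Submodule.span C (Set.range (Fin.tail ω)) := by
      rw [Submodule.mem_span_range_iff_exists_fun]
      refine ⟨c, ?_⟩
      rw [← ha]
      apply Finset.sum_congr rfl
      intro j _
      rw [← hc j, algebraMap_smul]
    exact (linearIndependent_finSucc.mp hC).2 h4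

/-- The logarithmic differential as a functional on derivations. -/
noncomputable def logForm (ξ : L) : Derivation C L L →ₗ[L] L where
  toFun X := X ξ / ξ
  map_add' X Y := by rw [Derivation.add_apply, add_div]
  map_smul' a X := by rw [Derivation.smul_apply, smul_eq_mul, RingHom.id_apply, smul_eq_mul, mul_div_assoc]

lemma logForm_apply (ξ : L) (X : Derivation C L L) : logForm ξ X = X ξ / ξ := rfl

lemma logForm_bracket (δ : Derivation C L L) (ξ : L) (hξ : ξ ≠ 0) (X : Derivation C L L) :
    δ (logForm ξ X) = logForm ξ ⁅δ, X⁆ + X (δ ξ / ξ) := by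
  rw [logForm_apply, logForm_apply, Derivation.commutator_apply, Derivation.leibniz_div,
    Derivation.leibniz_div]
  simp only [smul_eq_mul]
  field_simp
  ring

/-- The bound on the number of independent elements. -/
theorem card_le [CharZero C] [Module.Finite L (Derivation C L L)] (δ : Derivation C L L)
    (hconst : ∀ x, δ x = 0 → ∃ c, algebraMap C L c = x) (V : Submodule C L)
    [FiniteDimensional C V] (ι : Type) [Fintype ι] [DecidableEq ι] (ξ : ι → L)
    (hξ : ∀ j, ξ j ≠ 0) (hs : ∀ j, δ (ξ j) / ξ j ∈ V) (D : ι → Derivation C L L)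
    (φ : ι → L → ℤ) (hres : ∀ i, IsRes C L (D i) (φ i))
    (hdet : (Matrix.of fun i j => φ i (ξ j)).det ≠ 0) :
    Fintype.card ι ≤ Module.finrank C V + Module.finrank L (Derivation C L L) := by
  let F : (ι → C) →ₗ[C] V := Fintype.linearCombination C (fun j => (⟨δ (ξ j) / ξ j, hs j⟩ : V))
  let Ω : (ι → C) →ₗ[C] (Derivation C L L →ₗ[L] L) :=
    Fintype.linearCombination C (fun j => logForm (ξ j))
  have hF : ∀ c, (F c : L) = ∑ j, algebraMap C L (c j) * (δ (ξ j) / ξ j) := by
    intro c
    simp only [F, Fintype.linearCombination_apply]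
    rw [Submodule.coe_sum]
    apply Finset.sum_congr rfl
    intro j _
    rw [Submodule.coe_smul, Algebra.smul_def]
  have hΩ : ∀ c X, Ω c X = ∑ j, algebraMap C L (c j) * (X (ξ j) / ξ j) := by
    intro c X
    simp only [Ω, Fintype.linearCombination_apply]
    rw [LinearMap.sum_apply]
    apply Finset.sum_congr rfl
    intro j _
    rw [LinearMap.smul_apply, Algebra.smul_def]
    rfl
  have hΩinj : Function.Injective Ω := by
    rw [injective_iff_map_eq_zero]
    intro c hc
    have h1 : ∀ i, ∑ j, c j * (φ i (ξ j) : C) = 0 := by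
      intro i
      apply hres i ι Finset.univ c ξ (fun j _ => hξ j)
      rw [← hΩ, hc]
      rfl
    have h2 : (Matrix.of fun i j => ((φ i (ξ j) : ℤ) : C)).mulVec c = 0 := by
      ext i
      simp only [Matrix.mulVec, dotProduct, Matrix.of_apply, Pi.zero_apply]
      rw [← h1 i]
      exact Finset.sum_congr rfl fun j _ => mul_comm _ _
    have h3 : (Matrix.of fun i j => ((φ i (ξ j) : ℤ) : C)).det ≠ 0 := by
      have h4 : (Matrix.of fun i j => ((φ i (ξ j) : ℤ) : C)) =
          (Matrix.of fun i j => φ i (ξ j)).map (Int.castRingHom C) := by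
        ext i j; simp
      have h5 : (Matrix.of fun i j => ((φ i (ξ j) : ℤ) : C)).det =
          ((Matrix.of fun i j => φ i (ξ j)).det : C) := by
        rw [h4, ← RingHom.mapMatrix_apply, ← RingHom.map_det]
        rfl
      rw [h5]
      exact_mod_cast hdet
    exact Matrix.eq_zero_of_mulVec_eq_zero h3 h2
  let Kr := LinearMap.ker F
  let b := Module.finBasis C Kr
  let ω : Fin (Module.finrank C Kr) → (Derivation C L L →ₗ[L] L) := fun i => Ω (b i : ι → C)
  have hωC : LinearIndependent C ω := by
    have h1 : LinearIndependent C (fun i => (b i : ι → C)) :=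
      b.linearIndependent.map' Kr.subtype (Submodule.ker_subtype _)
    exact h1.map' Ω (LinearMap.ker_eq_bot.mpr hΩinj)
  have hωh : ∀ j X, δ (ω j X) = ω j ⁅δ, X⁆ := by
    intro i X
    simp only [ω]
    set c : ι → C := (b i : ι → C) with hc
    have hker : F c = 0 := (b i).2
    have hker' : ∑ j, algebraMap C L (c j) * (δ (ξ j) / ξ j) = 0 := by
      rw [← hF, hker]; rfl
    rw [hΩ, hΩ, map_sum]
    have e1 : ∀ j, δ (algebraMap C L (c j) * (X (ξ j) / ξ j)) =
        algebraMap C L (c j) * (⁅δ, X⁆ (ξ j) / ξ j) +
          X (algebraMap C L (c j) * (δ (ξ j) / ξ j)) := by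
      intro j
      have := logForm_bracket δ (ξ j) (hξ j) X
      rw [logForm_apply, logForm_apply] at this
      rw [← Algebra.smul_def, Derivation.map_smul, this, ← Algebra.smul_def, ← Algebra.smul_def,
        Derivation.map_smul, smul_add]
    rw [Finset.sum_congr rfl (fun j _ => e1 j), Finset.sum_add_distrib, ← map_sum, hker', map_zero,
      add_zero]
  have hωL := linInd_of_horizontal δ hconst _ ω hωh hωC
  have h1 : Module.finrank C Kr ≤ Module.finrank L (Derivation C L L) := by
    have h2 := hωL.fintype_card_le_finrank
    rw [Fintype.card_fin] at h2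
    rw [show Module.finrank L (Derivation C L L →ₗ[L] L) = Module.finrank L (Derivation C L L) from
      Subspace.dual_finrank_eq] at h2
    exact h2
  have h2 := LinearMap.finrank_range_add_finrank_ker F
  have h3 : Module.finrank C (LinearMap.range F) ≤ Module.finrank C V := Submodule.finrank_le _
  have h4 : Module.finrank C (ι → C) = Fintype.card ι := Module.finrank_fintype_fun_eq_card C
  rw [h4] at h2
  change Module.finrank C (LinearMap.range F) + Module.finrank C Kr = _ at h2
  omega

end

end Pool.Agent.Helper241.Bound
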