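import Mathlib

set_option autoImplicit false

namespace Pool.Helper241.Brouwer

open Matrix Finset

variable {V I : Type} [Fintype V] [DecidableEq V] [Fintype I] [DecidableEq I]

/-- Indicator matrix of a colouring `c : V → I`. -/
def Cm (c : V → I) : Matrix V I ℝ := Matrix.of fun v i => if c v = i then 1 else 0

/-- Block sum matrix. -/
noncomputable def M (Z : Matrix I V ℝ) (c : V → I) : Matrix I I ℝ :=
  Matrix.of fun i j => ∑ v, Z i v * (if c v = j then 1 else 0)

theorem M_eq (Z : Matrix I V ℝ) (c : V → I) : M Z c = Z * Cm c := by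
  ext i j
  simp [M, Cm, Matrix.mul_apply]

/-- rank one matrix -/
def R1 {J K : Type} (x : J → ℝ) (y : K → ℝ) : Matrix J K ℝ := Matrix.of fun v i => x v * y i

theorem det_one_R1 (u v : I → ℝ) : (1 + R1 u v).det = 1 + ∑ i, v i * u i := by
  have h := det_one_add_replicateCol_mul_replicateRow (ι := Unit) u v
  have h2 : R1 u v = replicateCol Unit u * replicateRow Unit v := by
    ext i j
    simp [R1, Matrix.mul_apply]
  rw [h2, h]
  rfl

theorem det_R1 (A : Matrix I I ℝ) (hA : IsUnit A.det) (u v : I → ℝ) :
    (A + R1 u v).det = A.det * (1 + ∑ i, v i * (A⁻¹ *ᵥ u) i) := by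
  have h1 : A + R1 u v = A * (1 + R1 (A⁻¹ *ᵥ u) v) := by
    rw [Matrix.mul_add, Matrix.mul_one]
    congr 1
    have h3 : A *ᵥ (A⁻¹ *ᵥ u) = u := by
      rw [Matrix.mulVec_mulVec, Matrix.mul_nonsing_inv A hA, Matrix.one_mulVec]
    ext i j
    have h4 := congrFun h3 i
    simp only [Matrix.mulVec, dotProduct] at h4
    simp only [R1, Matrix.mul_apply, Matrix.of_apply, Matrix.mulVec, dotProduct]
    calc u i * v j = (∑ x, A i x * ∑ y, A⁻¹ x y * u y) * v j := by rw [h4]
      _ = ∑ x, A i x * ((∑ y, A⁻¹ x y * u y) * v j) := by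
          rw [Finset.sum_mul]
          exact Finset.sum_congr rfl fun x _ => mul_assoc _ _ _
  rw [h1, Matrix.det_mul, det_one_R1]

theorem det_update (Z : Matrix I V ℝ) (c : V → I) (hM : IsUnit (M Z c).det) (v : V) (a : I) :
    (M Z (Function.update c v a)).det = (M Z c).det *
      (1 + (((M Z c)⁻¹ * Z) a v - ((M Z c)⁻¹ * Z) (c v) v)) := by
  have h1 : M Z (Function.update c v a) = M Z c +
      R1 (fun i => Z i v) (Pi.single a (1:ℝ) - Pi.single (c v) (1:ℝ)) := by
    ext i j
    simp only [M, R1, Matrix.of_apply, Matrix.add_apply, Pi.sub_apply]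
    rw [← Finset.sum_erase_add _ _ (Finset.mem_univ v), ← Finset.sum_erase_add (a := v) Finset.univ (fun w => Z i w * (if c w = j then 1 else 0)) (Finset.mem_univ v)]
    have h2 : ∑ w ∈ Finset.univ.erase v, Z i w * (if Function.update c v a w = j then (1:ℝ) else 0)
        = ∑ w ∈ Finset.univ.erase v, Z i w * (if c w = j then (1:ℝ) else 0) := by
      apply Finset.sum_congr rfl
      intro w hw
      rw [Function.update_of_ne (Finset.ne_of_mem_erase hw)]
    rw [h2]
    simp only [Function.update_self, Pi.single_apply, eq_comm (a := j)]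
    ring
  rw [h1, det_R1 _ hM]
  congr 2
  simp only [Pi.sub_apply, sub_mul, Finset.sum_sub_distrib, Pi.single_apply]
  simp [Matrix.mulVec, dotProduct, Matrix.mul_apply]


theorem sum_colour (c : V → I) (F : V → I → ℝ) :
    ∑ v, F v (c v) = ∑ a, ∑ v, (if c v = a then (1:ℝ) else 0) * F v a := by
  rw [Finset.sum_comm]
  apply Finset.sum_congr rfl
  intro v _
  simp [ite_mul]

/-- **Core inequality.** `Z` has rows spanning an invariant subspace (`Z L = T Z`), and some
colouring has nonsingular block sum matrix.  Then the trace of the restriction is at least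
`e(G) - C(n-m+1, 2)`. -/
theorem core (G : SimpleGraph V) [DecidableRel G.Adj] (Z : Matrix I V ℝ) (T : Matrix I I ℝ)
    (hT : Z * G.lapMatrix ℝ = T * Z) (hne : ∃ c : V → I, (M Z c).det ≠ 0) :
    2 * (G.edgeFinset.card : ℝ) - 2 * T.trace ≤
      ((Fintype.card V : ℝ) - Fintype.card I) * ((Fintype.card V : ℝ) - Fintype.card I + 1) := by
  classical
  obtain ⟨c0, hc0⟩ := hne
  haveI : Nonempty (V → I) := ⟨c0⟩
  obtain ⟨c, hc⟩ := Finite.exists_max (fun c : V → I => |(M Z c).det|)
  have hdet : (M Z c).det ≠ 0 := by
    intro h0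
    have := hc c0
    simp only [h0, abs_zero] at this
    exact hc0 (abs_nonpos_iff.mp this)
  have hunit : IsUnit (M Z c).det := isUnit_iff_ne_zero.mpr hdet
  set H : Matrix I V ℝ := (M Z c)⁻¹ * Z with hH
  set t : V → I → ℝ := fun v a => H (c v) v - H a v with ht
  -- nonnegativity
  have t0 : ∀ v a, 0 ≤ t v a := by
    intro v a
    have h1 := hc (Function.update c v a)
    have h1 : |(M Z (Function.update c v a)).det| ≤ |(M Z c).det| := h1
    rw [det_update Z c hunit v a, abs_mul] at h1
    have h2 : |(M Z c).det| > 0 := abs_pos.mpr hdet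
    have h3 : |1 + (H a v - H (c v) v)| ≤ 1 := by
      by_contra hcon
      push Not at hcon
      have := mul_lt_mul_of_pos_left hcon h2
      rw [mul_one] at this
      exact absurd h1 (not_le.mpr this)
    have h4 := (abs_le.mp h3).2
    simp only [ht]
    linarith
  -- biorthogonality
  have hHC : ∀ a b, ∑ v, (if c v = b then (1:ℝ) else 0) * H a v = if a = b then 1 else 0 := by
    intro a b
    have h1 : H * Cm c = 1 := by
      rw [hH, Matrix.mul_assoc, ← M_eq]
      exact Matrix.nonsing_inv_mul _ hunit
    have h2 := congrFun (congrFun h1 a) b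
    rw [Matrix.mul_apply, Matrix.one_apply] at h2
    rw [← h2]
    apply Finset.sum_congr rfl
    intro v _
    simp [Cm]
  have tc : ∀ v, t v (c v) = 0 := by intro v; simp [ht]
  have tsum : ∀ a b, ∑ v, (if c v = a then (1:ℝ) else 0) * t v b = 1 - if b = a then 1 else 0 := by
    intro a b
    have h1 : ∀ v, (if c v = a then (1:ℝ) else 0) * t v b =
        (if c v = a then (1:ℝ) else 0) * H a v - (if c v = a then (1:ℝ) else 0) * H b v := by
      intro v
      by_cases h : c v = a
      · simp [h, ht]
      · simp [h]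
    simp only [h1, Finset.sum_sub_distrib, hHC]
    simp
  have t1 : ∀ v a, t v a ≤ 1 := by
    intro v a
    by_cases h : a = c v
    · rw [h, tc]; norm_num
    · have h1 := tsum (c v) a
      rw [if_neg h, sub_zero] at h1
      rw [← h1]
      have h2 : t v a = (if c v = c v then (1:ℝ) else 0) * t v a := by simp
      rw [h2]
      apply Finset.single_le_sum (f := fun w => (if c w = c v then (1:ℝ) else 0) * t w a) ?_
        (Finset.mem_univ v)
      intro w _
      apply mul_nonneg
      · split_ifs <;> norm_num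
      · exact t0 w a
  set N : I → ℝ := fun a => ∑ v, (if c v = a then (1:ℝ) else 0) with hN
  have Nsum : ∑ a, N a = Fintype.card V := by
    simp only [hN]
    rw [Finset.sum_comm]
    simp
  have s1 : ∀ a b, ∑ v, (if c v = a then (1:ℝ) else 0) * (1 - t v b) =
      (N a - 1) + if a = b then 1 else 0 := by
    intro a b
    simp only [mul_sub, mul_one, Finset.sum_sub_distrib, tsum, hN]
    by_cases h : a = b
    · simp [h]
    · simp [h, Ne.symm h]
  -- double sum
  have hdouble : ∑ v, ∑ w, (1 - t w (c v)) * (1 - t v (c w)) =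
      ((Fintype.card V : ℝ) - Fintype.card I) ^ 2 + 2 * Fintype.card V - Fintype.card I := by
    have e1 : ∑ v, ∑ w, (1 - t w (c v)) * (1 - t v (c w)) =
        ∑ a, ∑ b, (∑ v, (if c v = a then (1:ℝ) else 0) * (1 - t v b)) *
          (∑ w, (if c w = b then (1:ℝ) else 0) * (1 - t w a)) := by
      have e2 : ∀ v, ∑ w, (1 - t w (c v)) * (1 - t v (c w)) =
          ∑ b, ∑ w, (if c w = b then (1:ℝ) else 0) * ((1 - t w (c v)) * (1 - t v b)) := by
        intro v
        exact sum_colour c (fun w b => (1 - t w (c v)) * (1 - t v b))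
      rw [Finset.sum_congr rfl fun v _ => e2 v]
      rw [sum_colour c (fun v a => ∑ b, ∑ w, (if c w = b then (1:ℝ) else 0) *
        ((1 - t w a) * (1 - t v b)))]
      apply Finset.sum_congr rfl
      intro a _
      simp only [Finset.mul_sum, Finset.sum_mul]
      rw [Finset.sum_comm]
      apply Finset.sum_congr rfl
      intro b _
      rw [Finset.sum_comm]
      apply Finset.sum_congr rfl
      intro w _
      apply Finset.sum_congr rfl
      intro v _
      ring
    rw [e1]
    simp only [s1]
    have e3 : ∀ a b : I, (N a - 1 + if a = b then (1:ℝ) else 0) * (N b - 1 + if b = a then 1 else 0)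
        = (N a - 1) * (N b - 1) + (if a = b then (2 * N a - 1) else 0) := by
      intro a b
      by_cases h : a = b
      · subst h; simp; ring
      · simp [h, Ne.symm h]
    simp only [e3, Finset.sum_add_distrib, Finset.sum_ite_eq, Finset.mem_univ, if_true]
    rw [← Finset.sum_mul_sum]
    simp only [Finset.sum_sub_distrib, ← Finset.mul_sum, Nsum]
    simp
    ring
  -- trace
  have htr : T.trace = ∑ w, ∑ v, H (c w) v * (G.lapMatrix ℝ) v w := by
    have h1 : (M Z c)⁻¹ * T * (M Z c) = H * G.lapMatrix ℝ * Cm c := by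
      rw [hH, Matrix.mul_assoc (M Z c)⁻¹ Z, hT, M_eq]
      simp only [Matrix.mul_assoc]
    have h2 : T.trace = (H * G.lapMatrix ℝ * Cm c).trace := by
      rw [← h1, Matrix.trace_mul_comm, ← Matrix.mul_assoc, Matrix.mul_nonsing_inv _ hunit,
        Matrix.one_mul]
    rw [h2, Matrix.trace]
    simp only [Matrix.diag_apply, Matrix.mul_apply]
    rw [Finset.sum_comm]
    apply Finset.sum_congr rfl
    intro w _
    have h3 : ∀ x, (∑ j, H x j * (G.lapMatrix ℝ) j w) * Cm c w x =
        if c w = x then ∑ j, H x j * (G.lapMatrix ℝ) j w else 0 := by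
      intro x
      simp [Cm]
    simp only [h3, Finset.sum_ite_eq, Finset.mem_univ, if_true]
  set A : V → V → ℝ := fun v w => if G.Adj v w then 1 else 0 with hA
  have hAs : ∀ v w, A v w = A w v := by intro v w; simp [hA, G.adj_comm]
  have hdeg : ∀ w, (G.degree w : ℝ) = ∑ v, A v w := by
    intro w
    simp only [hA]
    rw [← G.card_neighborFinset_eq_degree, Finset.sum_boole]
    congr 2
    ext v
    simp [G.adj_comm]
  have hL : ∀ v w, (G.lapMatrix ℝ) v w = (if v = w then (G.degree w : ℝ) else 0) - A v w := by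
    intro v w
    simp only [SimpleGraph.lapMatrix, Matrix.sub_apply, SimpleGraph.degMatrix,
      Matrix.diagonal_apply, SimpleGraph.adjMatrix_apply, hA]
    by_cases h : v = w
    · subst h; simp
    · simp [h]
  have htr2 : T.trace = ∑ v, ∑ w, A v w * (H (c w) w - H (c w) v) := by
    rw [htr, Finset.sum_comm (f := fun v w => A v w * (H (c w) w - H (c w) v))]
    apply Finset.sum_congr rfl
    intro w _
    simp only [hL, mul_sub, Finset.sum_sub_distrib, mul_ite, mul_zero, Finset.sum_ite_eq',
      Finset.mem_univ, if_true]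
    rw [hdeg, Finset.mul_sum]
    congr 1
    · apply Finset.sum_congr rfl; intro v _; ring
    · apply Finset.sum_congr rfl; intro v _; ring
  have htr3 : 2 * T.trace = ∑ v, ∑ w, A v w * (t w (c v) + t v (c w)) := by
    have h1 : T.trace = ∑ v, ∑ w, A v w * (H (c v) v - H (c v) w) := by
      rw [htr2, Finset.sum_comm]
      apply Finset.sum_congr rfl
      intro v _
      apply Finset.sum_congr rfl
      intro w _
      rw [hAs]
    rw [two_mul]
    nth_rewrite 1 [htr2]
    rw [h1, ← Finset.sum_add_distrib]
    apply Finset.sum_congr rfl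
    intro v _
    rw [← Finset.sum_add_distrib]
    apply Finset.sum_congr rfl
    intro w _
    simp only [ht]
    ring
  have hedge : 2 * (G.edgeFinset.card : ℝ) = ∑ v, ∑ w, A v w := by
    have h1 := G.sum_degrees_eq_twice_card_edges
    have h2 : ((∑ v, G.degree v : ℕ) : ℝ) = ((2 * G.edgeFinset.card : ℕ) : ℝ) := by
      exact_mod_cast h1
    push_cast at h2
    rw [← h2, Finset.sum_comm]
    exact Finset.sum_congr rfl fun w _ => hdeg w
  have hterm : ∀ v w, A v w * (1 - t w (c v) - t v (c w)) ≤
      (1 - t w (c v)) * (1 - t v (c w)) - if v = w then 1 else 0 := by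
    intro v w
    by_cases h : v = w
    · subst h
      simp [hA, tc]
    · rw [if_neg h, sub_zero]
      have a1 := t0 w (c v)
      have a2 := t0 v (c w)
      have a3 := t1 w (c v)
      have a4 := t1 v (c w)
      by_cases hadj : G.Adj v w
      · simp only [hA, hadj, if_true, one_mul]
        nlinarith [mul_nonneg a1 a2]
      · simp only [hA, hadj, if_false, zero_mul]
        exact mul_nonneg (by linarith) (by linarith)
  have hfin : 2 * (G.edgeFinset.card : ℝ) - 2 * T.trace =
      ∑ v, ∑ w, A v w * (1 - t w (c v) - t v (c w)) := by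
    rw [hedge, htr3, ← Finset.sum_sub_distrib]
    apply Finset.sum_congr rfl
    intro v _
    rw [← Finset.sum_sub_distrib]
    apply Finset.sum_congr rfl
    intro w _
    ring
  rw [hfin]
  calc ∑ v, ∑ w, A v w * (1 - t w (c v) - t v (c w))
      ≤ ∑ v, ∑ w, ((1 - t w (c v)) * (1 - t v (c w)) - if v = w then 1 else 0) :=
        Finset.sum_le_sum fun v _ => Finset.sum_le_sum fun w _ => hterm v w
    _ = ((Fintype.card V : ℝ) - Fintype.card I) ^ 2 + 2 * Fintype.card V - Fintype.card I
          - Fintype.card V := by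
        simp only [Finset.sum_sub_distrib, hdouble]
        simp
    _ = _ := by ring

end Pool.Helper241.Brouwer
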