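import Pool.Agent.Helper241.BrCore

set_option autoImplicit false

namespace Pool.Helper241.Brouwer

open Matrix Finset

variable {V I : Type} [Fintype V] [DecidableEq V] [Fintype I] [DecidableEq I]

theorem exists_colouring [Nonempty V] (Z : Matrix I V ℝ)
    (hind : ∀ y : I → ℝ, (∀ v, ∑ i, y i * Z i v = 0) → y = 0)
    (a : I → ℝ) (ha : ∀ v, ∑ i, a i * Z i v = 1) :
    ∃ c : V → I, (M Z c).det ≠ 0 := by
  classical
  set z : V → (I → ℝ) := fun v i => Z i v with hz
  set s : I → ℝ := ∑ v, z v with hs
  have hs0 : s ≠ 0 := by
    intro h0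
    have h1 : ∑ i, a i * s i = Fintype.card V := by
      have h2 : ∀ i, s i = ∑ v, Z i v := by intro i; simp [hs, hz, Finset.sum_apply]
      simp only [h2, Finset.mul_sum]
      rw [Finset.sum_comm]
      simp [ha]
    rw [h0] at h1
    simp only [Pi.zero_apply, mul_zero, Finset.sum_const_zero] at h1
    have h3 : (0:ℝ) < Fintype.card V := by exact_mod_cast Fintype.card_pos
    linarith
  set w : Option V → (I → ℝ) := fun o => o.elim s z with hw
  have hsingle : LinearIndepOn ℝ w {none} := by
    rw [linearIndepOn_singleton_iff]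
    simpa [hw] using hs0
  obtain ⟨b, -, hsb, hspan, hbi⟩ := exists_linearIndepOn_extension hsingle (Set.subset_univ _)
  have hnone : (none : Option V) ∈ b := hsb rfl
  have htop : Submodule.span ℝ (w '' b) = ⊤ := by
    by_contra hne
    obtain ⟨f, hf0, hf⟩ := Submodule.exists_le_ker_of_lt_top _ (lt_top_iff_ne_top.mpr hne)
    apply hf0
    have hfz : ∀ v, f (z v) = 0 := by
      intro v
      have : z v ∈ w '' Set.univ := ⟨some v, trivial, rfl⟩
      exact hf (hspan this)
    have hfe : ∀ x : I → ℝ, f x = ∑ i, f (Pi.single i 1) * x i := by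
      intro x
      have hx : x = ∑ i, x i • (Pi.single i (1:ℝ) : I → ℝ) := by
        ext j
        simp [Finset.sum_apply, Pi.single_apply]
      conv_lhs => rw [hx]
      rw [map_sum]
      apply Finset.sum_congr rfl
      intro i _
      rw [map_smul, smul_eq_mul, mul_comm]
    have h0 := hind (fun i => f (Pi.single i 1)) (fun v => by rw [← hfe (z v)]; exact hfz v)
    ext i
    have := congrFun h0 i
    simpa using this
  have hcard : Fintype.card b = Fintype.card I := by
    have hli : LinearIndependent ℝ (fun β : b => w β) := hbi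
    have hsp : ⊤ ≤ Submodule.span ℝ (Set.range (fun β : b => w β)) := by
      rw [← Set.image_eq_range, htop]
    have h1 := Module.finrank_eq_card_basis (Module.Basis.mk hli hsp)
    rw [← h1]
    simp
  obtain ⟨e⟩ : Nonempty (I ≃ b) := Fintype.card_eq.mp hcard.symm
  set i0 : I := e.symm ⟨none, hnone⟩ with hi0
  set c : V → I := fun v => if h : some v ∈ b then e.symm ⟨some v, h⟩ else i0 with hc
  refine ⟨c, ?_⟩
  intro hdet
  obtain ⟨x, hx0, hx⟩ := Matrix.exists_mulVec_eq_zero_iff.mpr hdet
  apply hx0
  have h1 : ∑ v, x (c v) • z v = 0 := by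
    ext i
    have h2 := congrFun hx i
    simp only [Matrix.mulVec, dotProduct, M, Matrix.of_apply, Pi.zero_apply] at h2
    simp only [Finset.sum_apply, Pi.smul_apply, smul_eq_mul, Pi.zero_apply, hz]
    rw [← h2]
    simp only [Finset.sum_mul]
    rw [Finset.sum_comm]
    apply Finset.sum_congr rfl
    intro v _
    simp [mul_comm]
  have h3 : ∑ v, (x (c v) - x i0) • z v + x i0 • s = 0 := by
    rw [hs, Finset.smul_sum, ← Finset.sum_add_distrib, ← h1]
    apply Finset.sum_congr rfl
    intro v _
    rw [← add_smul]
    congr 1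
    ring
  set g : Option V → ℝ := fun o => o.elim (x i0) (fun v => x (c v) - x i0) with hg
  have h4 : ∑ β : b, g β • w β = 0 := by
    have h5 : ∑ β : b, g β • w β = ∑ o : Option V, if o ∈ b then g o • w o else 0 := by
      rw [← Finset.sum_filter]
      symm
      apply Finset.sum_subtype
      intro o
      simp
    rw [h5, Fintype.sum_option]
    simp only [hnone, if_true]
    have h7 : (∑ v : V, if some v ∈ b then g (some v) • w (some v) else 0)
        = ∑ v, (x (c v) - x i0) • z v := by
      apply Finset.sum_congr rfl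
      intro v _
      by_cases hv : some v ∈ b
      · simp [hv, hg, hw]
      · have : c v = i0 := by simp [hc, hv]
        simp [hv, this]
    rw [h7, add_comm]
    exact h3
  have hgz := Fintype.linearIndependent_iff.mp hbi (fun β => g β) h4
  have hx0' : x i0 = 0 := by
    have := hgz ⟨none, hnone⟩
    simpa [hg] using this
  ext j
  rcases hej : e j with ⟨o, ho⟩
  cases o with
  | none =>
    have : j = i0 := by rw [hi0, ← hej, Equiv.symm_apply_apply]
    rw [this]; exact hx0'
  | some v =>
    have h6 : c v = j := by
      simp only [hc, dif_pos ho]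
      rw [← hej, Equiv.symm_apply_apply]
    have := hgz ⟨some v, ho⟩
    simp only [hg, Option.elim, h6, hx0'] at this
    simpa using this

end Pool.Helper241.Brouwer
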