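import Pool.Agent.Helper241.BrExist

set_option autoImplicit false

namespace Pool.Helper241.Brouwer

open Matrix Finset

/-- **Brouwer's conjecture**: any `k` Laplacian eigenvalues sum to at most `e(G) + C(k+1,2)`. -/
theorem brouwer {V : Type} [Fintype V] [DecidableEq V] (G : SimpleGraph V) [DecidableRel G.Adj]
    (hA : (G.lapMatrix ℝ).IsHermitian) (S : Finset V) :
    ∑ i ∈ S, hA.eigenvalues i ≤
      (G.edgeFinset.card : ℝ) + ((Nat.choose (S.card + 1) 2 : ℕ) : ℝ) := by
  classical
  have hchoose : ((Nat.choose (S.card + 1) 2 : ℕ) : ℝ) = (S.card : ℝ) * (S.card + 1) / 2 := by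
    rw [Nat.cast_choose_two]
    push_cast
    ring
  rw [hchoose]
  rcases isEmpty_or_nonempty V with hV | hV
  · have : S = ∅ := Finset.eq_empty_of_isEmpty S
    subst this
    simp
  set b := hA.eigenvectorBasis with hb
  set lam := hA.eigenvalues with hlam
  -- orthonormality
  have horth : ∀ i j, ∑ v, (b i) v * (b j) v = if i = j then 1 else 0 := by
    intro i j
    have h := orthonormal_iff_ite.mp b.orthonormal i j
    rw [← h, PiLp.inner_apply]
    apply Finset.sum_congr rfl
    intro v _
    simp [mul_comm]
  have heig : ∀ i w, ∑ v, (G.lapMatrix ℝ) w v * (b i) v = lam i * (b i) w := by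
    intro i w
    have h := congrFun (hA.mulVec_eigenvectorBasis i) w
    simpa [Matrix.mulVec, dotProduct] using h
  have hsymm : ∀ v w, (G.lapMatrix ℝ) v w = (G.lapMatrix ℝ) w v := by
    intro v w
    exact (G.isSymm_lapMatrix (R := ℝ)).apply w v
  set al : V → ℝ := fun i => ∑ v, (b i) v with hal
  have hones : ∀ v, ∑ i, al i * (b i) v = 1 := by
    intro v
    have h := b.sum_repr' (WithLp.toLp 2 (fun _ => (1:ℝ)) : EuclideanSpace ℝ V)
    have h2 := congrArg (fun x : EuclideanSpace ℝ V => x v) h
    simp only [] at h2
    rw [← show (WithLp.toLp 2 (fun _ => (1:ℝ)) : EuclideanSpace ℝ V) v = 1 from rfl, ← h2]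
    simp only [WithLp.ofLp_sum, Finset.sum_apply, WithLp.ofLp_smul, Pi.smul_apply, smul_eq_mul]
    apply Finset.sum_congr rfl
    intro i _
    congr 1
    rw [PiLp.inner_apply]
    simp [hal]
  have hlal : ∀ i, lam i * al i = 0 := by
    intro i
    simp only [hal, Finset.mul_sum]
    have h1 : ∀ w, lam i * (b i) w = ∑ v, (G.lapMatrix ℝ) w v * (b i) v := fun w => (heig i w).symm
    rw [Finset.sum_congr rfl fun w _ => h1 w, Finset.sum_comm]
    apply Finset.sum_eq_zero
    intro v _
    rw [← Finset.sum_mul]
    have h2 := congrFun (G.lapMatrix_mulVec_const_eq_zero (R := ℝ)) v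
    simp only [Matrix.mulVec, dotProduct, mul_one, Pi.zero_apply] at h2
    rw [Finset.sum_congr rfl fun w _ => hsymm w v, h2, zero_mul]
  have htrace : ∑ i, lam i = 2 * (G.edgeFinset.card : ℝ) := by
    have h1 := hA.trace_eq_sum_eigenvalues
    have h2 : (G.lapMatrix ℝ).trace = 2 * (G.edgeFinset.card : ℝ) := by
      have h3 := G.sum_degrees_eq_twice_card_edges
      have h4 : ((∑ v, G.degree v : ℕ) : ℝ) = ((2 * G.edgeFinset.card : ℕ) : ℝ) := by
        exact_mod_cast h3
      push_cast at h4
      rw [← h4, Matrix.trace]
      apply Finset.sum_congr rfl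
      intro v _
      simp [SimpleGraph.lapMatrix, SimpleGraph.degMatrix]
    rw [← h2, h1]
    simp [hlam]
  have hsplit : ∑ i ∈ S, lam i + ∑ i ∈ Sᶜ, lam i = 2 * (G.edgeFinset.card : ℝ) := by
    rw [Finset.sum_add_sum_compl, htrace]
  have hsub : ∀ F : V → ℝ, ∑ i : {i // i ∉ S}, F i = ∑ i ∈ Sᶜ, F i := by
    intro F
    symm
    apply Finset.sum_subtype
    intro i
    simp
  have hcardS : (Fintype.card {i // i ∉ S} : ℝ) = Fintype.card V - S.card := by
    have h1 : Fintype.card {i // i ∉ S} = Fintype.card V - S.card := by
      rw [← Finset.card_compl, Fintype.card_subtype]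
      congr 1
      ext i
      simp
    rw [h1, Nat.cast_sub (Finset.card_le_univ S)]
  by_cases hcase : ∀ i ∈ S, al i = 0
  · -- the all-ones vector lies in the span of the remaining eigenvectors
    set Z : Matrix {i // i ∉ S} V ℝ := Matrix.of fun i v => (b i) v with hZ
    have hT : Z * G.lapMatrix ℝ = (Matrix.diagonal fun i : {i // i ∉ S} => lam i) * Z := by
      ext i w
      rw [Matrix.mul_apply, Matrix.diagonal_mul]
      simp only [hZ, Matrix.of_apply]
      rw [← heig i w]
      apply Finset.sum_congr rfl
      intro v _
      rw [hsymm v w]; ring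
    have hind : ∀ y : {i // i ∉ S} → ℝ, (∀ v, ∑ i, y i * Z i v = 0) → y = 0 := by
      intro y hy
      ext j
      have h1 : ∑ v, (∑ i, y i * Z i v) * (b j) v = 0 := by
        simp [hy]
      simp only [hZ, Matrix.of_apply, Finset.sum_mul] at h1
      rw [Finset.sum_comm] at h1
      have h2 : ∀ i : {i // i ∉ S}, ∑ v, y i * (b i) v * (b j) v = if i = j then y i else 0 := by
        intro i
        have h3 := horth i j
        have h4 : ∑ v, y i * (b i) v * (b j) v = y i * ∑ v, (b i) v * (b j) v := by
          rw [Finset.mul_sum]; exact Finset.sum_congr rfl fun v _ => by ring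
        rw [h4, h3]
        by_cases h : i = j
        · simp [h]
        · have : (i : V) ≠ j := fun h' => h (Subtype.ext h')
          simp [h, this]
      simp only [h2] at h1
      simpa using h1
    have ha : ∀ v, ∑ i : {i // i ∉ S}, al i * Z i v = 1 := by
      intro v
      have h1 := hsub (fun i => al i * (b i) v)
      simp only [hZ, Matrix.of_apply]
      rw [h1, ← hones v, ← Finset.sum_add_sum_compl S]
      rw [Finset.sum_eq_zero (s := S)]
      · rw [zero_add]
      · intro i hi
        rw [hcase i hi, zero_mul]
    have hc := core G Z _ hT (exists_colouring Z hind (fun i => al i) ha)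
    rw [Matrix.trace_diagonal, hsub (fun i => lam i), hcardS] at hc
    nlinarith [hc, hsplit]
  · -- the projection of the all-ones vector is a kernel vector
    push Not at hcase
    obtain ⟨i1, hi1, hi1'⟩ := hcase
    set u : V → ℝ := fun v => ∑ i ∈ S, al i * (b i) v with hu
    set Z : Matrix (Option {i // i ∉ S}) V ℝ :=
      Matrix.of fun o v => o.elim (u v) (fun i => (b i) v) with hZ
    set d : Option {i // i ∉ S} → ℝ := fun o => o.elim 0 (fun i => lam i) with hd
    have hT : Z * G.lapMatrix ℝ = (Matrix.diagonal d) * Z := by
      ext o w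
      rw [Matrix.mul_apply, Matrix.diagonal_mul]
      cases o with
      | none =>
        simp only [hZ, Matrix.of_apply, Option.elim, hd, hu, zero_mul, Finset.sum_mul]
        rw [Finset.sum_comm]
        apply Finset.sum_eq_zero
        intro i _
        have h1 : ∑ v, al i * (b i) v * (G.lapMatrix ℝ) v w = (lam i * al i) * (b i) w := by
          have h2 : ∑ v, al i * (b i) v * (G.lapMatrix ℝ) v w
              = al i * ∑ v, (G.lapMatrix ℝ) w v * (b i) v := by
            rw [Finset.mul_sum]
            exact Finset.sum_congr rfl fun v _ => by rw [hsymm v w]; ring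
          rw [h2, heig]; ring
        rw [h1, hlal, zero_mul]
      | some i =>
        simp only [hZ, Matrix.of_apply, Option.elim, hd]
        rw [← heig i w]
        apply Finset.sum_congr rfl
        intro v _
        rw [hsymm v w]; ring
    have hou : ∀ j, j ∉ S → ∑ v, u v * (b j) v = 0 := by
      intro j hj
      simp only [hu, Finset.sum_mul]
      rw [Finset.sum_comm]
      apply Finset.sum_eq_zero
      intro i hi
      have h4 : ∑ v, al i * (b i) v * (b j) v = al i * ∑ v, (b i) v * (b j) v := by
        rw [Finset.mul_sum]; exact Finset.sum_congr rfl fun v _ => by ring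
      have hne : i ≠ j := by
        intro h
        apply hj
        rw [← h]
        exact hi
      rw [h4, horth, if_neg hne, mul_zero]
    have hou1 : ∑ v, u v * (b i1) v = al i1 := by
      simp only [hu, Finset.sum_mul]
      rw [Finset.sum_comm]
      have h4 : ∀ i, ∑ v, al i * (b i) v * (b i1) v = if i = i1 then al i1 else 0 := by
        intro i
        have : ∑ v, al i * (b i) v * (b i1) v = al i * ∑ v, (b i) v * (b i1) v := by
          rw [Finset.mul_sum]; exact Finset.sum_congr rfl fun v _ => by ring
        rw [this, horth]
        by_cases h : i = i1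
        · simp [h]
        · simp [h]
      simp only [h4]
      simp [hi1]
    have hind : ∀ y : Option {i // i ∉ S} → ℝ, (∀ v, ∑ i, y i * Z i v = 0) → y = 0 := by
      intro y hy
      have hy' : ∀ v, y none * u v + ∑ i : {i // i ∉ S}, y (some i) * (b i) v = 0 := by
        intro v
        have := hy v
        rw [Fintype.sum_option] at this
        simpa [hZ] using this
      have key : ∀ j : V, y none * (∑ v, u v * (b j) v) +
          ∑ i : {i // i ∉ S}, y (some i) * (if (i:V) = j then 1 else 0) = 0 := by
        intro j
        have h1 : ∑ v, (y none * u v + ∑ i : {i // i ∉ S}, y (some i) * (b i) v) * (b j) v = 0 := by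
          simp [hy']
        simp only [add_mul, Finset.sum_add_distrib, Finset.sum_mul] at h1
        rw [Finset.sum_comm (s := univ) (t := univ)] at h1
        refine Eq.trans ?_ h1
        congr 1
        · rw [Finset.mul_sum]; exact Finset.sum_congr rfl fun v _ => by ring
        · apply Finset.sum_congr rfl
          intro i _
          rw [← horth i j, Finset.mul_sum]
          exact Finset.sum_congr rfl fun v _ => by ring
      have hn : y none = 0 := by
        have h1 := key i1
        rw [hou1] at h1
        have h2 : ∑ i : {i // i ∉ S}, y (some i) * (if (i:V) = i1 then (1:ℝ) else 0) = 0 := by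
          apply Finset.sum_eq_zero
          intro i _
          have hne : (i : V) ≠ i1 := by
            intro h
            apply i.2
            rw [h]
            exact hi1
          rw [if_neg hne, mul_zero]
        rw [h2, add_zero] at h1
        exact (mul_eq_zero.mp h1).resolve_right hi1'
      ext o
      cases o with
      | none => exact hn
      | some j =>
        have h1 := key j
        rw [hn, zero_mul, zero_add] at h1
        have h2 : ∑ i : {i // i ∉ S}, y (some i) * (if (i:V) = j then (1:ℝ) else 0) = y (some j) := by
          rw [Finset.sum_eq_single j]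
          · simp
          · intro i _ hij
            have : (i : V) ≠ j := fun h' => hij (Subtype.ext h')
            simp [this]
          · simp
        rw [h2] at h1
        simpa using h1
    have ha : ∀ v, ∑ o : Option {i // i ∉ S}, (o.elim 1 (fun i => al i) : ℝ) * Z o v = 1 := by
      intro v
      rw [Fintype.sum_option]
      simp only [hZ, Matrix.of_apply, Option.elim, one_mul]
      rw [hsub (fun i => al i * (b i) v), ← hones v, ← Finset.sum_add_sum_compl S]
    have hc := core G Z _ hT (exists_colouring Z hind _ ha)
    rw [Matrix.trace_diagonal, Fintype.sum_option, Fintype.card_option] at hc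
    simp only [hd, Option.elim] at hc
    rw [hsub (fun i => lam i)] at hc
    push_cast at hc
    rw [hcardS] at hc
    have hk : (0:ℝ) ≤ S.card := Nat.cast_nonneg _
    nlinarith [hc, hsplit]

end Pool.Helper241.Brouwer
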