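import Mathlib
import Pool.Agent.Helper241.Residue
import Pool.Agent.Helper241.Bound

set_option autoImplicit false

namespace Pool.Agent.Helper241.FinGen

open Pool.Agent.Helper241.Residue Pool.Agent.Helper241.Bound

section

variable {C L : Type} [Field C] [Field L] [Algebra C L] [CharZero C]

/-- Independent systems of eigenvectors with residue data. -/
def Good (δ : Derivation C L L) (S : AddSubgroup L) (ι : Type) [Fintype ι] [DecidableEq ι] (ξ : ι → L)
    (D : ι → Derivation C L L) (φ : ι → L → ℤ) : Prop :=
  (∀ j, ξ j ≠ 0) ∧ (∀ j, δ (ξ j) / ξ j ∈ S) ∧ (∀ i, IsRes C L (D i) (φ i)) ∧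
    (Matrix.of fun i j => φ i (ξ j)).det ≠ 0

/-- A residue functional only depends on the eigenvalue and is additive. -/
lemma res_add (δ : Derivation C L L)
    (hconst : ∀ x, δ x = 0 → ∃ c, algebraMap C L c = x) (D : Derivation C L L) (φ : L → ℤ)
    (hφ : IsRes C L D φ) (x y z : L) (hx : x ≠ 0) (hy : y ≠ 0) (hz : z ≠ 0)
    (h : δ z / z = δ x / x + δ y / y) : φ z = φ x + φ y := by
  have h1 : δ (z / (x * y)) = 0 := by
    rw [Derivation.leibniz_div, Derivation.leibniz]
    simp only [smul_eq_mul]
    have h2 : δ z * (x * y) = z * (y * δ x + x * δ y) := by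
      field_simp at h
      linear_combination h
    have h3 : x * y * δ z - z * (x * δ y + y * δ x) = 0 := by linear_combination h2
    rw [h3]
    simp
  obtain ⟨c, hc⟩ := hconst _ h1
  have h4 : z = algebraMap C L c * (x * y) := by
    rw [hc]; field_simp
  have hc0 : algebraMap C L c ≠ 0 := by
    intro h0
    rw [h0, zero_mul] at h4
    exact hz h4
  have h5 : D z / z = D x / x + D y / y := by
    rw [h4, Derivation.leibniz, Derivation.map_algebraMap, smul_zero, add_zero,
      Derivation.leibniz]
    simp only [smul_eq_mul]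
    field_simp
    ring
  have h6 := hφ (Fin 3) Finset.univ ![1, -1, -1] ![z, x, y] (by
    intro i _
    fin_cases i
    · exact hz
    · exact hx
    · exact hy) (by
    rw [Fin.sum_univ_three]
    simp only [Matrix.cons_val_zero, Matrix.cons_val_one, Matrix.cons_val]
    rw [h5]
    simp only [map_one, map_neg]
    ring)
  rw [Fin.sum_univ_three] at h6
  simp only [Matrix.cons_val_zero, Matrix.cons_val_one, Matrix.cons_val] at h6
  have h7 : ((φ z : ℤ) : C) = ((φ x + φ y : ℤ) : C) := by
    push_cast
    linear_combination h6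
  exact_mod_cast h7

theorem finite_of_const [Algebra.EssFiniteType C L] [Module.Finite L (Derivation C L L)]
    (δ : Derivation C L L)
    (hconst : ∀ x, δ x = 0 → ∃ c, algebraMap C L c = x) (V : Submodule C L)
    [FiniteDimensional C V] (S : AddSubgroup L) (hS : ∀ s ∈ S, ∃ ξ, ξ ≠ 0 ∧ δ ξ / ξ = s)
    (hSV : ∀ s ∈ S, s ∈ V) : Module.Finite ℤ S := by
  classical
  let P : ℕ → Prop := fun k => ∃ (ι : Type) (_ : Fintype ι) (_ : DecidableEq ι) (ξ : ι → L)
    (D : ι → Derivation C L L) (φ : ι → L → ℤ), Fintype.card ι = k ∧ Good δ S ι ξ D φ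
  have hP0 : P 0 := by
    refine ⟨Empty, inferInstance, inferInstance, Empty.elim, Empty.elim, Empty.elim, by simp, ?_⟩
    refine ⟨fun j => j.elim, fun j => j.elim, fun j => j.elim, ?_⟩
    simp
  set B := Module.finrank C V + Module.finrank L (Derivation C L L) with hB
  have hPB : ∀ k, P k → k ≤ B := by
    rintro k ⟨ι, _, _, ξ, D, φ, rfl, h1, h2, h3, h4⟩
    exact card_le δ hconst V ι ξ h1 (fun j => hSV _ (h2 j)) D φ h3 h4
  have hmax : ∃ k, P k ∧ ∀ m, P m → m ≤ k := by
    refine ⟨Nat.findGreatest P B, Nat.findGreatest_spec (m := 0) (Nat.zero_le _) hP0, ?_⟩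
    intro m hm
    exact Nat.le_findGreatest (hPB m hm) hm
  obtain ⟨k, ⟨ι, _, _, ξ, D, φ, hk, h1, h2, h3, h4⟩, hkmax⟩ := hmax
  -- elements killed by all residues are constants
  have hker : ∀ η : L, η ≠ 0 → δ η / η ∈ S → (∀ i, φ i η = 0) → δ η = 0 := by
    intro η hη hηS hη0
    by_contra hne
    have htr : Transcendental C η := by
      intro halg
      apply hne
      have hsep : (minpoly C η).Separable := (minpoly.irreducible halg.isIntegral).separable
      have h5 : δ (Polynomial.aeval η (minpoly C η)) =
          Polynomial.aeval η (Polynomial.derivative (minpoly C η)) * δ η := by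
        rw [Derivation.map_aeval, smul_eq_mul]
      rw [minpoly.aeval, map_zero] at h5
      rcases mul_eq_zero.mp h5.symm with h6 | h6
      · exact absurd h6 (hsep.aeval_derivative_ne_zero (minpoly.aeval C η))
      · exact h6
    obtain ⟨D', φ', hD', hφ'⟩ := exists_residue C L η htr
    have hP : P (k + 1) := by
      refine ⟨ι ⊕ Unit, inferInstance, inferInstance, Sum.elim ξ (fun _ => η),
        Sum.elim D (fun _ => D'), Sum.elim φ (fun _ => φ'), by simp [hk], ?_⟩
      refine ⟨?_, ?_, ?_, ?_⟩
      · rintro (j | j)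
        · exact h1 j
        · exact hη
      · rintro (j | j)
        · exact h2 j
        · exact hηS
      · rintro (j | j)
        · exact h3 j
        · exact hD'
      · have : (Matrix.of fun i j => Sum.elim φ (fun _ : Unit => φ') i (Sum.elim ξ (fun _ : Unit => η) j)) =
            Matrix.fromBlocks (Matrix.of fun i j => φ i (ξ j)) 0
              (Matrix.of fun _ j => φ' (ξ j)) (Matrix.of fun _ _ => φ' η) := by
          ext i j
          rcases i with i | i <;> rcases j with j | j
          · rfl
          · exact hη0 i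
          · rfl
          · rfl
        rw [this, Matrix.det_fromBlocks_zero₁₂]
        apply mul_ne_zero h4
        rw [Matrix.det_unique]
        exact hφ'
    have := hkmax _ hP
    omega
  choose ψ hψ0 hψ using hS
  let Φ : S →+ (ι → ℤ) :=
    { toFun := fun s i => φ i (ψ s.1 s.2)
      map_zero' := by
        funext i
        have := res_add δ hconst (D i) (φ i) (h3 i) (ψ 0 S.zero_mem) (ψ 0 S.zero_mem)
          (ψ 0 S.zero_mem) (hψ0 _ _) (hψ0 _ _) (hψ0 _ _) (by
            rw [hψ]; simp)
        change φ i (ψ 0 S.zero_mem) = 0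
        omega
      map_add' := by
        intro s t
        funext i
        exact res_add δ hconst (D i) (φ i) (h3 i) (ψ s.1 s.2) (ψ t.1 t.2)
          (ψ (s + t).1 (s + t).2) (hψ0 _ _) (hψ0 _ _) (hψ0 _ _) (by
            rw [hψ, hψ, hψ]; rfl) }
  have hΦ : Function.Injective Φ := by
    rw [injective_iff_map_eq_zero]
    intro s hs
    have h5 : δ (ψ s.1 s.2) = 0 := by
      apply hker _ (hψ0 _ _)
      · rw [hψ]; exact s.2
      · intro i
        exact congrFun hs i
    have h6 := hψ s.1 s.2
    rw [h5, zero_div] at h6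
    exact Subtype.ext h6.symm
  exact Module.Finite.of_injective (Φ.toIntLinearMap) hΦ

end

end Pool.Agent.Helper241.FinGen
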