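import Mathlib
import Pool.Agent.Helper241.FinGen

set_option autoImplicit false

namespace Pool.Agent.Helper241.FieldCase

open Pool.Agent.Helper241.FinGen

section

variable {K L : Type} [Field K] [Field L] [Algebra K L]

/-- The field of constants of a derivation. -/
def constField (δ : Derivation K L L) : IntermediateField K L where
  carrier := {x | δ x = 0}
  mul_mem' := by
    intro a b ha hb
    change δ (a * b) = 0
    change δ a = 0 at ha
    change δ b = 0 at hb
    rw [Derivation.leibniz, ha, hb, smul_zero, smul_zero, add_zero]
  one_mem' := by
    change δ 1 = 0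
    exact Derivation.map_one_eq_zero δ
  zero_mem' := by
    change δ 0 = 0
    exact map_zero δ
  add_mem' := by
    intro a b ha hb
    change δ (a + b) = 0
    change δ a = 0 at ha
    change δ b = 0 at hb
    rw [map_add, ha, hb, add_zero]
  algebraMap_mem' := by
    intro a
    change δ _ = 0
    exact Derivation.map_algebraMap δ a
  inv_mem' := by
    intro a ha
    change δ (a⁻¹) = 0
    change δ a = 0 at ha
    rw [Derivation.leibniz_inv, ha, smul_zero]

lemma mem_constField (δ : Derivation K L L) (x : L) : x ∈ constField δ ↔ δ x = 0 := Iff.rfl

/-- A derivation is linear over its constants. -/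
def overConst (δ : Derivation K L L) : Derivation (constField δ) L L :=
  Derivation.mk'
    { toFun := δ
      map_add' := map_add δ
      map_smul' := by
        intro c x
        have hc : δ (c : L) = 0 := c.2
        change δ ((c : L) * x) = (c : L) * δ x
        rw [Derivation.leibniz, hc, smul_zero, add_zero, smul_eq_mul] }
    (fun a b => δ.leibniz a b)

lemma overConst_apply (δ : Derivation K L L) (x : L) : overConst δ x = δ x := rfl

theorem finite_of_field [CharZero K] [Algebra.EssFiniteType K L] (δ : Derivation K L L)
    (W : Submodule K L) [FiniteDimensional K W] (S : AddSubgroup L)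
    (hS : ∀ s ∈ S, ∃ ξ, ξ ≠ 0 ∧ δ ξ / ξ = s) (hSW : ∀ s ∈ S, s ∈ W) : Module.Finite ℤ S := by
  have h1 : Algebra.EssFiniteType (constField δ) L := Algebra.EssFiniteType.of_comp K (constField δ) L
  have h0 : CharZero (constField δ) := charZero_of_injective_algebraMap
    (algebraMap K (constField δ)).injective
  have h2 : Module.Finite L (Derivation (constField δ) L L) := by
    have : Module.Finite L (Ω[L⁄(constField δ)]) := inferInstance
    exact Module.Finite.equiv (KaehlerDifferential.linearMapEquivDerivation (constField δ) L (M := L))
  obtain ⟨s, hs⟩ := (Submodule.fg_iff_finiteDimensional W).mpr inferInstance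
  let V : Submodule (constField δ) L := Submodule.span (constField δ) (s : Set L)
  have h3 : FiniteDimensional (constField δ) V :=
    FiniteDimensional.span_of_finite _ s.finite_toSet
  have hWV : ∀ w ∈ W, w ∈ V := by
    intro w hw
    rw [← hs] at hw
    have : Submodule.span K (s : Set L) ≤ V.restrictScalars K := by
      rw [Submodule.span_le]
      exact Submodule.subset_span
    exact this hw
  refine finite_of_const (overConst δ) ?_ V S hS (fun x hx => hWV x (hSW x hx))
  intro x hx
  exact ⟨⟨x, hx⟩, rfl⟩

end

end Pool.Agent.Helper241.FieldCase
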