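import Mathlib

set_option autoImplicit false

namespace Pool.Agent.Helper241.DegNorm

open MvPolynomial

section

variable (σ K : Type) [Field K]

open Classical in
/-- The degree valuation on a polynomial ring. -/
noncomputable def degVal : Valuation (MvPolynomial σ K) NNReal where
  toFun f := if f = 0 then 0 else 2 ^ f.totalDegree
  map_zero' := by simp
  map_one' := by simp
  map_mul' f g := by
    by_cases hf : f = 0
    · simp [hf]
    by_cases hg : g = 0
    · simp [hg]
    rw [if_neg hf, if_neg hg, if_neg (mul_ne_zero hf hg), totalDegree_mul_of_isDomain hf hg, pow_add]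
  map_add_le_max' f g := by
    by_cases hf : f = 0
    · simp [hf]
    by_cases hg : g = 0
    · simp [hg]
    by_cases hfg : f + g = 0
    · simp [hfg]
    rw [if_neg hf, if_neg hg, if_neg hfg]
    rcases le_max_iff.mp (totalDegree_add f g) with h | h
    · exact le_max_of_le_left (pow_le_pow_right₀ (by norm_num) h)
    · exact le_max_of_le_right (pow_le_pow_right₀ (by norm_num) h)

variable {σ K}

lemma degVal_of_ne (f : MvPolynomial σ K) (hf : f ≠ 0) : degVal σ K f = 2 ^ f.totalDegree := by
  classical
  change (if f = 0 then 0 else 2 ^ f.totalDegree) = _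
  rw [if_neg hf]

lemma degVal_ne_zero (f : MvPolynomial σ K) (hf : f ≠ 0) : degVal σ K f ≠ 0 := by
  rw [degVal_of_ne f hf]
  positivity

lemma degVal_pderiv_le (i : σ) (f : MvPolynomial σ K) :
    degVal σ K (pderiv i f) ≤ degVal σ K f := by
  by_cases hf : pderiv i f = 0
  · rw [hf, map_zero]; exact zero_le
  have hf' : f ≠ 0 := by
    rintro rfl
    exact hf (map_zero _)
  rw [degVal_of_ne _ hf, degVal_of_ne _ hf']
  apply pow_le_pow_right₀ (by norm_num)
  rw [totalDegree_eq, totalDegree_eq]
  apply Finset.sup_le
  intro m hm
  rw [mem_support_iff, coeff_pderiv] at hm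
  have h1 : m + Finsupp.single i 1 ∈ f.support := by
    rw [mem_support_iff]
    exact left_ne_zero_of_mul hm
  refine le_trans ?_ (Finset.le_sup h1)
  rw [Finsupp.card_toMultiset, Finsupp.card_toMultiset, Finsupp.sum_add_index' (fun _ => rfl)
    (fun _ _ _ => rfl)]
  exact Nat.le_add_right _ _

variable (σ K)

/-- The degree valuation on the rational function field. -/
noncomputable def ratVal : Valuation (FractionRing (MvPolynomial σ K)) NNReal :=
  (degVal σ K).extendToLocalization (S := nonZeroDivisors (MvPolynomial σ K)) (by
    intro f hf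
    change f ∉ (degVal σ K).supp
    rw [Valuation.mem_supp_iff]
    exact degVal_ne_zero f (nonZeroDivisors.ne_zero hf)) (FractionRing (MvPolynomial σ K))

lemma ratVal_algebraMap (f : MvPolynomial σ K) :
    ratVal σ K (algebraMap _ (FractionRing (MvPolynomial σ K)) f) = degVal σ K f :=
  Valuation.extendToLocalization_apply_map_apply _ _ _ _

/-- The degree absolute value. -/
noncomputable def ratAbs : AbsoluteValue (FractionRing (MvPolynomial σ K)) ℝ where
  toFun x := (ratVal σ K x : ℝ)
  map_mul' x y := by rw [map_mul]; push_cast; rfl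
  nonneg' x := NNReal.coe_nonneg _
  eq_zero' x := by simp
  add_le' x y := by
    refine le_trans ?_ (max_le_add_of_nonneg (NNReal.coe_nonneg _) (NNReal.coe_nonneg _))
    exact_mod_cast (ratVal σ K).map_add x y

/-- The normed field structure. -/
noncomputable abbrev ratNormed : NormedField (FractionRing (MvPolynomial σ K)) :=
  (ratAbs σ K).toNormedField

lemma ratNormed_ultra : @IsUltrametricDist (FractionRing (MvPolynomial σ K))
    (ratNormed σ K).toMetricSpace.toPseudoMetricSpace.toDist := by
  let _ := ratNormed σ K
  apply IsUltrametricDist.isUltrametricDist_of_forall_norm_add_le_max_norm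
  intro x y
  exact_mod_cast (ratVal σ K).map_add x y

end

end Pool.Agent.Helper241.DegNorm
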