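import Mathlib

set_option autoImplicit false

namespace Pool.Agent.Helper241.Growth

variable {L : Type*} [Field L]

/-- A derivation bounded by `c` for a power-multiplicative nonarchimedean norm has all its
logarithmic derivatives bounded by `c`. -/
theorem logDeriv_bound (N : L → ℝ) (hN0 : ∀ x, 0 ≤ N x) (hzero : N 0 = 0) (hone : N 1 = 1)
    (hmul : ∀ x y, N (x * y) ≤ N x * N y) (hadd : ∀ x y, N (x + y) ≤ max (N x) (N y))
    (hneg : ∀ x, N (-x) = N x)
    (hpow : ∀ (x : L) (n : ℕ), N (x ^ n) = N x ^ n) (δ : L → L)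
    (hδ : ∀ x y, δ (x * y) = x * δ y + y * δ x) (c : ℝ) (hc : 0 ≤ c)
    (hbound : ∀ x, N (δ x) ≤ c * N x) (ξ : L) (hξ : ξ ≠ 0) : N (δ ξ / ξ) ≤ c := by
  by_contra hlt
  push Not at hlt
  set r := δ ξ / ξ with hr
  set ρ := N r with hρ
  have hρ0 : 0 < ρ := lt_of_le_of_lt hc hlt
  let P : ℕ → L := fun m => Nat.rec 1 (fun _ p => r * p + δ p) m
  have hP0 : P 0 = 1 := rfl
  have hPs : ∀ m, P (m + 1) = r * P m + δ (P m) := fun m => rfl
  have hrξ : δ ξ = r * ξ := by rw [hr]; field_simp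
  have hit : ∀ m, δ^[m] ξ = P m * ξ := by
    intro m
    induction m with
    | zero => simp [hP0]
    | succ m ih =>
      rw [Function.iterate_succ_apply', ih, hδ, hrξ, hPs]
      ring
  have hNit : ∀ m, N (δ^[m] ξ) ≤ c ^ m * N ξ := by
    intro m
    induction m with
    | zero => simp
    | succ m ih =>
      rw [Function.iterate_succ_apply']
      calc N (δ (δ^[m] ξ)) ≤ c * N (δ^[m] ξ) := hbound _
        _ ≤ c * (c ^ m * N ξ) := mul_le_mul_of_nonneg_left ih hc
        _ = c ^ (m + 1) * N ξ := by ring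
  have hNP : ∀ m, N (P m) ≤ c ^ m * (N ξ * N ξ⁻¹) := by
    intro m
    have h1 : P m = (P m * ξ) * ξ⁻¹ := by field_simp
    calc N (P m) = N ((P m * ξ) * ξ⁻¹) := by rw [← h1]
      _ ≤ N (P m * ξ) * N ξ⁻¹ := hmul _ _
      _ ≤ (c ^ m * N ξ) * N ξ⁻¹ := by
        apply mul_le_mul_of_nonneg_right _ (hN0 _)
        rw [← hit]; exact hNit m
      _ = c ^ m * (N ξ * N ξ⁻¹) := by ring
  have hclose : ∀ m, N (P m - r ^ m) * ρ ≤ c * ρ ^ m := by
    intro m
    induction m with
    | zero => rw [hP0]; simp [hzero, hc]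
    | succ m ih =>
      have h1 : P (m + 1) - r ^ (m + 1) = r * (P m - r ^ m) + δ (P m) := by rw [hPs]; ring
      have h2 : N (P m - r ^ m) ≤ ρ ^ m := by
        by_contra h
        push Not at h
        have : ρ ^ m * ρ < N (P m - r ^ m) * ρ := mul_lt_mul_of_pos_right h hρ0
        have h3 : c * ρ ^ m ≤ ρ ^ m * ρ := by
          rw [mul_comm]; exact mul_le_mul_of_nonneg_left hlt.le (by positivity)
        linarith
      have h3 : N (P m) ≤ ρ ^ m := by
        have : P m = (P m - r ^ m) + r ^ m := by ring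
        rw [this]
        refine (hadd _ _).trans (max_le h2 ?_)
        rw [hpow]
      rw [h1]
      have h4 : N (r * (P m - r ^ m)) * ρ ≤ c * ρ ^ (m + 1) := by
        calc N (r * (P m - r ^ m)) * ρ ≤ (ρ * N (P m - r ^ m)) * ρ :=
              mul_le_mul_of_nonneg_right (hmul _ _) hρ0.le
          _ = ρ * (N (P m - r ^ m) * ρ) := by ring
          _ ≤ ρ * (c * ρ ^ m) := mul_le_mul_of_nonneg_left ih hρ0.le
          _ = c * ρ ^ (m + 1) := by ring
      have h5 : N (δ (P m)) * ρ ≤ c * ρ ^ (m + 1) := by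
        calc N (δ (P m)) * ρ ≤ (c * N (P m)) * ρ :=
              mul_le_mul_of_nonneg_right (hbound _) hρ0.le
          _ ≤ (c * ρ ^ m) * ρ :=
              mul_le_mul_of_nonneg_right (mul_le_mul_of_nonneg_left h3 hc) hρ0.le
          _ = c * ρ ^ (m + 1) := by ring
      rcases le_max_iff.mp (hadd (r * (P m - r ^ m)) (δ (P m))) with h | h
      · exact (mul_le_mul_of_nonneg_right h hρ0.le).trans h4
      · exact (mul_le_mul_of_nonneg_right h hρ0.le).trans h5
  have hlow : ∀ m, ρ ^ m ≤ N (P m) := by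
    intro m
    by_contra h
    push Not at h
    have h1 : r ^ m = P m + -(P m - r ^ m) := by ring
    have h2 : ρ ^ m ≤ max (N (P m)) (N (P m - r ^ m)) := by
      calc ρ ^ m = N (r ^ m) := (hpow r m).symm
        _ = N (P m + -(P m - r ^ m)) := by rw [← h1]
        _ ≤ max (N (P m)) (N (-(P m - r ^ m))) := hadd _ _
        _ = _ := by rw [hneg]
    rcases le_max_iff.mp h2 with h3 | h3
    · linarith
    · have h4 := hclose m
      have h5 : ρ ^ m * ρ ≤ c * ρ ^ m := (mul_le_mul_of_nonneg_right h3 hρ0.le).trans h4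
      have h6 : 0 < ρ ^ m := by positivity
      nlinarith
  set κ := N ξ * N ξ⁻¹ with hκ
  have hκ0 : 0 ≤ κ := mul_nonneg (hN0 _) (hN0 _)
  have hfin : ∀ m, ρ ^ m ≤ c ^ m * κ := fun m => (hlow m).trans (hNP m)
  have hq : c / ρ < 1 := by rw [div_lt_one hρ0]; exact hlt
  obtain ⟨m, hm⟩ := exists_pow_lt_of_lt_one (show (0 : ℝ) < 1 / (κ + 1) by positivity) hq
  have h1 := hfin m
  have h2 : 1 ≤ (c / ρ) ^ m * κ := by
    rw [div_pow]
    rw [div_mul_eq_mul_div, le_div_iff₀ (by positivity)]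
    linarith
  have h3 : (c / ρ) ^ m * κ ≤ 1 / (κ + 1) * κ := mul_le_mul_of_nonneg_right hm.le hκ0
  have h4 : 1 / (κ + 1) * κ < 1 := by
    rw [div_mul_eq_mul_div, one_mul, div_lt_one (by positivity)]
    linarith
  linarith

end Pool.Agent.Helper241.Growth
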