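import Mathlib
import Pool.Agent.Helper241.Growth

set_option autoImplicit false

namespace Pool.Agent.Helper241.TraceNorm

section

variable {E L : Type*} [NormedField E] [IsUltrametricDist E] [Field L] [Algebra E L]
  [FiniteDimensional E L]

lemma norm_trace_le (y : L) : ‖Algebra.trace E L y‖ ≤ spectralNorm E L y := by
  rw [trace_eq_finrank_mul_minpoly_nextCoeff, norm_mul, norm_neg]
  have hint : IsIntegral E y := IsIntegral.of_finite E y
  have hdeg : (minpoly E y).natDegree ≠ 0 := (minpoly.natDegree_pos hint).ne'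
  have h1 : ‖(minpoly E y).nextCoeff‖ ≤ spectralNorm E L y := by
    rw [Polynomial.nextCoeff_of_natDegree_pos (Nat.pos_of_ne_zero hdeg)]
    have h2 := le_ciSup (spectralValueTerms_bddAbove (minpoly E y)) ((minpoly E y).natDegree - 1)
    rw [spectralValueTerms_of_lt_natDegree _ (by omega)] at h2
    have h3 : (((minpoly E y).natDegree : ℝ) - (((minpoly E y).natDegree - 1 : ℕ) : ℝ)) = 1 := by
      rw [Nat.cast_sub (by omega)]
      push_cast
      ring
    rw [h3, div_one, Real.rpow_one] at h2
    exact h2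
  calc ‖((Module.finrank (IntermediateField.adjoin E {y}) L : ℕ) : E)‖ * ‖(minpoly E y).nextCoeff‖
      ≤ 1 * ‖(minpoly E y).nextCoeff‖ :=
        mul_le_mul_of_nonneg_right (IsUltrametricDist.norm_natCast_le_one E _) (norm_nonneg _)
    _ = ‖(minpoly E y).nextCoeff‖ := one_mul _
    _ ≤ _ := h1

lemma spec_mul_le (x y : L) : spectralNorm E L (x * y) ≤ spectralNorm E L x * spectralNorm E L y :=
  spectralNorm_mul (Algebra.IsAlgebraic.isAlgebraic x) (Algebra.IsAlgebraic.isAlgebraic y)

lemma spec_add_le (x y : L) :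
    spectralNorm E L (x + y) ≤ max (spectralNorm E L x) (spectralNorm E L y) :=
  isNonarchimedean_spectralNorm x y

lemma spec_add_le' (x y : L) :
    spectralNorm E L (x + y) ≤ spectralNorm E L x + spectralNorm E L y :=
  (spec_add_le x y).trans (max_le (by linarith [spectralNorm_nonneg (K := E) y])
    (by linarith [spectralNorm_nonneg (K := E) x]))

lemma spec_neg (x : L) : spectralNorm E L (-x) = spectralNorm E L x :=
  spectralNorm_neg (Algebra.IsAlgebraic.isAlgebraic x)

lemma spec_sum_le {ι : Type*} (s : Finset ι) (f : ι → L) :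
    spectralNorm E L (∑ i ∈ s, f i) ≤ ∑ i ∈ s, spectralNorm E L (f i) := by
  classical
  induction s using Finset.induction_on with
  | empty => simp [spectralNorm_zero]
  | insert a s ha ih =>
    rw [Finset.sum_insert ha, Finset.sum_insert ha]
    exact (spec_add_le' _ _).trans (add_le_add le_rfl ih)

theorem exists_bound [Algebra.IsSeparable E L] (δ : L → L)
    (hadd : ∀ x y, δ (x + y) = δ x + δ y) (hmul : ∀ x y, δ (x * y) = x * δ y + y * δ x)
    (c1 : ℝ) (hc1 : 0 ≤ c1) (h : ∀ e : E, spectralNorm E L (δ (algebraMap E L e)) ≤ c1 * ‖e‖) :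
    ∃ c, 0 ≤ c ∧ ∀ f, spectralNorm E L (δ f) ≤ c * spectralNorm E L f := by
  classical
  let b := Module.finBasis E L
  let β := b.traceDual
  have hnn : ∀ x : L, 0 ≤ spectralNorm E L x := spectralNorm_nonneg
  have hδ0 : δ 0 = 0 := by
    have := hadd 0 0
    rw [add_zero] at this
    exact left_eq_add.mp this
  have hsum : ∀ (s : Finset (Fin (Module.finrank E L))) (f : Fin (Module.finrank E L) → L),
      δ (∑ i ∈ s, f i) = ∑ i ∈ s, δ (f i) := by
    intro s f
    induction s using Finset.induction_on with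
    | empty => simpa using hδ0
    | insert a s ha ih => rw [Finset.sum_insert ha, Finset.sum_insert ha, hadd, ih]
  refine ⟨∑ i, spectralNorm E L (b i) * (c1 * spectralNorm E L (β i) + spectralNorm E L (δ (β i))),
    Finset.sum_nonneg fun i _ => mul_nonneg (hnn _) (add_nonneg (mul_nonneg hc1 (hnn _)) (hnn _)), ?_⟩
  intro f
  have hf : f = ∑ i, algebraMap E L (Algebra.trace E L (f * b i)) * β i := by
    conv_lhs => rw [← β.sum_repr f]
    apply Finset.sum_congr rfl
    intro i _
    rw [Module.Basis.traceDual_repr_apply, Algebra.traceForm_apply, Algebra.smul_def]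
  have hδf : δ f = ∑ i, (algebraMap E L (Algebra.trace E L (f * b i)) * δ (β i) +
      β i * δ (algebraMap E L (Algebra.trace E L (f * b i)))) := by
    conv_lhs => rw [hf]
    rw [hsum]
    exact Finset.sum_congr rfl fun i _ => hmul _ _
  rw [hδf, Finset.sum_mul]
  refine (spec_sum_le _ _).trans (Finset.sum_le_sum fun i _ => ?_)
  have ht : ‖Algebra.trace E L (f * b i)‖ ≤ spectralNorm E L f * spectralNorm E L (b i) :=
    (norm_trace_le _).trans (spec_mul_le _ _)
  have h1 : spectralNorm E L (algebraMap E L (Algebra.trace E L (f * b i)) * δ (β i)) ≤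
      (spectralNorm E L f * spectralNorm E L (b i)) * spectralNorm E L (δ (β i)) := by
    refine (spec_mul_le _ _).trans ?_
    rw [spectralNorm_extends]
    exact mul_le_mul_of_nonneg_right ht (hnn _)
  have h2 : spectralNorm E L (β i * δ (algebraMap E L (Algebra.trace E L (f * b i)))) ≤
      spectralNorm E L (β i) * (c1 * (spectralNorm E L f * spectralNorm E L (b i))) := by
    refine (spec_mul_le _ _).trans ?_
    exact mul_le_mul_of_nonneg_left ((h _).trans (mul_le_mul_of_nonneg_left ht hc1)) (hnn _)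
  refine (spec_add_le' _ _).trans ((add_le_add h1 h2).trans (le_of_eq ?_))
  ring

theorem exists_logDeriv_bound [Algebra.IsSeparable E L] (δ : L → L)
    (hadd : ∀ x y, δ (x + y) = δ x + δ y) (hmul : ∀ x y, δ (x * y) = x * δ y + y * δ x)
    (c1 : ℝ) (hc1 : 0 ≤ c1) (h : ∀ e : E, spectralNorm E L (δ (algebraMap E L e)) ≤ c1 * ‖e‖) :
    ∃ c, 0 ≤ c ∧ ∀ ξ, ξ ≠ 0 → spectralNorm E L (δ ξ / ξ) ≤ c := by
  obtain ⟨c, hc, hb⟩ := exists_bound δ hadd hmul c1 hc1 h
  refine ⟨c, hc, fun ξ hξ => ?_⟩
  refine Growth.logDeriv_bound (spectralNorm E L) spectralNorm_nonneg spectralNorm_zero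
    spectralNorm_one spec_mul_le spec_add_le spec_neg ?_ δ hmul c hc hb ξ hξ
  intro x n
  rcases Nat.eq_zero_or_pos n with hn | hn
  · subst hn
    rw [pow_zero, pow_zero, spectralNorm_one]
  · exact isPowMul_spectralNorm x hn

end

end Pool.Agent.Helper241.TraceNorm
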