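import Mathlib
import Pool.Agent.Helper241.TraceNorm
import Pool.Agent.Helper241.DegNorm

set_option autoImplicit false

namespace Pool.Agent.Helper241.FinDim

open MvPolynomial Pool.Agent.Helper241.DegNorm Pool.Agent.Helper241.TraceNorm

section

variable {K : Type} [Field K] {σ : Type} [Fintype σ]

/-- The chain rule for derivations out of a polynomial ring. -/
lemma der_eq_sum {L : Type} [Field L] [Algebra K L] [Algebra (MvPolynomial σ K) L]
    [IsScalarTower K (MvPolynomial σ K) L] (δ : Derivation K L L) (f : MvPolynomial σ K) :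
    δ (algebraMap _ L f) = ∑ j, algebraMap (MvPolynomial σ K) L (pderiv j f) *
      δ (algebraMap (MvPolynomial σ K) L (X j)) := by
  classical
  induction f using MvPolynomial.induction_on with
  | C a =>
    have h1 : algebraMap (MvPolynomial σ K) L (C a) = algebraMap K L a := by
      rw [IsScalarTower.algebraMap_apply K (MvPolynomial σ K) L]; rfl
    rw [h1, Derivation.map_algebraMap]
    simp
  | add p q hp hq =>
    rw [map_add, map_add, hp, hq, ← Finset.sum_add_distrib]
    apply Finset.sum_congr rfl
    intro j _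
    rw [map_add, map_add, add_mul]
  | mul_X p i hp =>
    rw [map_mul, Derivation.leibniz, hp, smul_eq_mul, smul_eq_mul, Finset.mul_sum]
    have h1 : algebraMap (MvPolynomial σ K) L p * δ (algebraMap (MvPolynomial σ K) L (X i)) =
        ∑ j, algebraMap (MvPolynomial σ K) L (p * pderiv j (X i)) *
          δ (algebraMap (MvPolynomial σ K) L (X j)) := by
      rw [Finset.sum_eq_single i]
      · rw [pderiv_X_self, mul_one]
      · intro j _ hj
        rw [pderiv_X_of_ne hj.symm, mul_zero, map_zero, zero_mul]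
      · intro h; exact absurd (Finset.mem_univ i) h
    rw [h1, ← Finset.sum_add_distrib]
    apply Finset.sum_congr rfl
    intro j _
    rw [pderiv_mul, map_add, map_mul (algebraMap (MvPolynomial σ K) L) (pderiv j p)]
    ring

variable {E L : Type} [NormedField E] [IsUltrametricDist E] [Algebra (MvPolynomial σ K) E]
  [IsFractionRing (MvPolynomial σ K) E] [Algebra K E] [IsScalarTower K (MvPolynomial σ K) E]
  [Field L] [Algebra E L] [FiniteDimensional E L] [Algebra K L] [Algebra (MvPolynomial σ K) L]
  [IsScalarTower K (MvPolynomial σ K) L] [IsScalarTower (MvPolynomial σ K) E L]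
  [IsScalarTower K E L]

lemma bound_base (hE : ∀ f : MvPolynomial σ K, ‖algebraMap (MvPolynomial σ K) E f‖ = degVal σ K f)
    (δ : Derivation K L L) : ∃ c1 : ℝ, 0 ≤ c1 ∧
      ∀ e : E, spectralNorm E L (δ (algebraMap E L e)) ≤ c1 * ‖e‖ := by
  have hnn : ∀ x : L, 0 ≤ spectralNorm E L x := spectralNorm_nonneg
  have hc1 : 0 ≤ ∑ j : σ, spectralNorm E L (δ (algebraMap (MvPolynomial σ K) L (X j))) :=
    Finset.sum_nonneg fun j _ => hnn _
  refine ⟨∑ j : σ, spectralNorm E L (δ (algebraMap (MvPolynomial σ K) L (X j))), hc1, ?_⟩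
  set c1 := ∑ j : σ, spectralNorm E L (δ (algebraMap (MvPolynomial σ K) L (X j))) with hc1def
  have hpoly : ∀ f : MvPolynomial σ K, spectralNorm E L (δ (algebraMap (MvPolynomial σ K) L f)) ≤
      c1 * ‖algebraMap (MvPolynomial σ K) E f‖ := by
    intro f
    rw [der_eq_sum, hc1def, Finset.sum_mul]
    refine (spec_sum_le _ _).trans (Finset.sum_le_sum fun j _ => ?_)
    refine (spec_mul_le _ _).trans ?_
    rw [mul_comm]
    apply mul_le_mul_of_nonneg_left _ (hnn _)
    rw [IsScalarTower.algebraMap_apply (MvPolynomial σ K) E L, spectralNorm_extends, hE, hE]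
    exact_mod_cast degVal_pderiv_le j f
  intro e
  obtain ⟨f, g, hg, rfl⟩ := IsFractionRing.div_surjective (A := MvPolynomial σ K) e
  have hg0 : algebraMap (MvPolynomial σ K) E g ≠ 0 :=
    IsFractionRing.to_map_ne_zero_of_mem_nonZeroDivisors hg
  have hg0' : algebraMap (MvPolynomial σ K) L g ≠ 0 := by
    rw [IsScalarTower.algebraMap_apply (MvPolynomial σ K) E L]
    exact fun h => hg0 ((algebraMap E L).injective (by rw [h, map_zero]))
  have hng : 0 < ‖algebraMap (MvPolynomial σ K) E g‖ := norm_pos_iff.mpr hg0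
  rw [map_div₀, ← IsScalarTower.algebraMap_apply, ← IsScalarTower.algebraMap_apply,
    Derivation.leibniz_div]
  simp only [smul_eq_mul]
  have h1 : spectralNorm E L (algebraMap (MvPolynomial σ K) L g * δ (algebraMap (MvPolynomial σ K) L f) -
      algebraMap (MvPolynomial σ K) L f * δ (algebraMap (MvPolynomial σ K) L g)) ≤
      c1 * (‖algebraMap (MvPolynomial σ K) E f‖ * ‖algebraMap (MvPolynomial σ K) E g‖) := by
    rw [sub_eq_add_neg]
    refine (spec_add_le _ _).trans (max_le ?_ ?_)
    · refine (spec_mul_le _ _).trans ?_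
      rw [IsScalarTower.algebraMap_apply (MvPolynomial σ K) E L g, spectralNorm_extends]
      calc _ ≤ ‖algebraMap (MvPolynomial σ K) E g‖ * (c1 * ‖algebraMap (MvPolynomial σ K) E f‖) :=
            mul_le_mul_of_nonneg_left (hpoly f) (norm_nonneg _)
        _ = _ := by ring
    · rw [spec_neg]
      refine (spec_mul_le _ _).trans ?_
      rw [IsScalarTower.algebraMap_apply (MvPolynomial σ K) E L f, spectralNorm_extends]
      calc _ ≤ ‖algebraMap (MvPolynomial σ K) E f‖ * (c1 * ‖algebraMap (MvPolynomial σ K) E g‖) :=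
            mul_le_mul_of_nonneg_left (hpoly g) (norm_nonneg _)
        _ = _ := by ring
  have h2 : (algebraMap (MvPolynomial σ K) L g)⁻¹ ^ 2 =
      algebraMap E L ((algebraMap (MvPolynomial σ K) E g)⁻¹ ^ 2) := by
    rw [map_pow, map_inv₀, ← IsScalarTower.algebraMap_apply]
  rw [h2]
  refine (spec_mul_le _ _).trans ?_
  rw [spectralNorm_extends, norm_pow, norm_inv, norm_div]
  calc _ ≤ (‖algebraMap (MvPolynomial σ K) E g‖⁻¹ ^ 2) *
        (c1 * (‖algebraMap (MvPolynomial σ K) E f‖ * ‖algebraMap (MvPolynomial σ K) E g‖)) :=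
        mul_le_mul_of_nonneg_left h1 (by positivity)
    _ = _ := by field_simp

theorem finDim_core [CharZero K]
    (hE : ∀ f : MvPolynomial σ K, ‖algebraMap (MvPolynomial σ K) E f‖ = degVal σ K f)
    (δ : Derivation K L L) : ∃ W : Submodule K L, FiniteDimensional K W ∧
      ∀ r : L, IsIntegral (MvPolynomial σ K) r → (∃ ξ : L, ξ ≠ 0 ∧ δ ξ / ξ = r) → r ∈ W := by
  classical
  have : CharZero E := charZero_of_injective_algebraMap (algebraMap K E).injective
  obtain ⟨c1, hc1, hbase⟩ := bound_base (E := E) hE δ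
  obtain ⟨c, hc, hlog⟩ := exists_logDeriv_bound (E := E) δ (map_add δ)
    (fun x y => by rw [Derivation.leibniz, smul_eq_mul, smul_eq_mul]) c1 hc1 hbase
  obtain ⟨s, b, hb⟩ := FiniteDimensional.exists_is_basis_integral (MvPolynomial σ K) E L
  let β := b.traceDual
  have hnn : ∀ x : L, 0 ≤ spectralNorm E L x := spectralNorm_nonneg
  obtain ⟨d, hd⟩ := pow_unbounded_of_one_lt (c * ∑ i, spectralNorm E L (b i)) (one_lt_two (α := ℝ))
  let ℓ : MvPolynomial σ K →ₗ[K] E := (Algebra.linearMap (MvPolynomial σ K) E).restrictScalars K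
  let V : Submodule K E := (restrictTotalDegree σ K d).map ℓ
  let T : s → (L →ₗ[K] E) := fun i =>
    ((Algebra.trace E L).restrictScalars K).comp (LinearMap.mulRight K (b i))
  have hT : ∀ i r, T i r = Algebra.trace E L (r * b i) := fun i r => rfl
  have hVfin : Module.Finite K V := by
    have : Module.Finite K (restrictTotalDegree σ K d) := inferInstance
    exact Module.Finite.map _ _
  let W : Submodule K L := ⨅ i, V.comap (T i)
  have hW : ∀ r, r ∈ W ↔ ∀ i, T i r ∈ V := by
    intro r
    simp only [W, Submodule.mem_iInf, Submodule.mem_comap]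
  refine ⟨W, ?_, ?_⟩
  · let F : W →ₗ[K] (s → V) := LinearMap.pi fun i =>
      ((T i).comp W.subtype).codRestrict V (fun r => (hW _).mp r.2 i)
    have hF : Function.Injective F := by
      rw [injective_iff_map_eq_zero]
      intro r hr
      have h1 : ∀ i, Algebra.trace E L ((r : L) * b i) = 0 := by
        intro i
        have := congrArg Subtype.val (congrFun hr i)
        exact this
      have h2 : (r : L) = 0 := by
        rw [← β.sum_repr (r : L)]
        apply Finset.sum_eq_zero
        intro i _
        rw [Module.Basis.traceDual_repr_apply, Algebra.traceForm_apply, h1 i, zero_smul]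
      exact Subtype.ext h2
    exact Module.Finite.of_injective F hF
  · rintro r hr ⟨ξ, hξ, rfl⟩
    rw [hW]
    intro i
    rw [hT]
    have h1 : IsIntegral (MvPolynomial σ K) (Algebra.trace E L (δ ξ / ξ * b i)) :=
      Algebra.isIntegral_trace (hr.mul (hb i))
    obtain ⟨p, hp⟩ := IsIntegrallyClosed.isIntegral_iff.mp h1
    refine ⟨p, ?_, hp⟩
    rw [SetLike.mem_coe, mem_restrictTotalDegree]
    by_cases hp0 : p = 0
    · rw [hp0, totalDegree_zero]; exact Nat.zero_le _
    have h2 : ((2 : ℝ)) ^ p.totalDegree ≤ c * ∑ i, spectralNorm E L (b i) := by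
      have h3 : ‖algebraMap (MvPolynomial σ K) E p‖ = (2 : ℝ) ^ p.totalDegree := by
        rw [hE, degVal_of_ne p hp0]
        push_cast
        rfl
      rw [← h3, hp]
      refine (norm_trace_le _).trans ((spec_mul_le _ _).trans ?_)
      apply mul_le_mul (hlog ξ hξ) _ (hnn _) hc
      exact Finset.single_le_sum (f := fun i => spectralNorm E L (b i)) (fun i _ => hnn _)
        (Finset.mem_univ i)
    have h4 : (2 : ℝ) ^ p.totalDegree < 2 ^ d := lt_of_le_of_lt h2 hd
    exact ((pow_lt_pow_iff_right₀ one_lt_two).mp h4).le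

end

end Pool.Agent.Helper241.FinDim
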