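import Mathlib
import Pool.Agent.Helper241.FinDim
import Pool.Agent.Helper241.FieldCase

set_option autoImplicit false

namespace Pool.Agent.Helper241.DarbouxFG

open Pool.Agent.Helper241.DegNorm Pool.Agent.Helper241.FinDim Pool.Agent.Helper241.FieldCase

/-- The eigenvalues lying in a finitely generated domain span a finite-dimensional space. -/
theorem exists_finDim (K R L : Type) [Field K] [CharZero K] [CommRing R] [IsDomain R] [Algebra K R]
    [Algebra.FiniteType K R] [Field L] [Algebra R L] [IsFractionRing R L] [Algebra K L]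
    [IsScalarTower K R L] (δ : Derivation K L L) : ∃ W : Submodule K L, FiniteDimensional K W ∧
      ∀ r : R, (∃ ξ : L, ξ ≠ 0 ∧ δ ξ / ξ = algebraMap R L r) → algebraMap R L r ∈ W := by
  obtain ⟨s, g, hinj, hfin⟩ := exists_integral_inj_algHom_of_fg K R
  let _ : Algebra (MvPolynomial (Fin s) K) R := g.toRingHom.toAlgebra
  let _ : Algebra (MvPolynomial (Fin s) K) L := ((algebraMap R L).comp g.toRingHom).toAlgebra
  have i1 : IsScalarTower (MvPolynomial (Fin s) K) R L := IsScalarTower.of_algebraMap_eq fun _ => rfl
  have i2 : IsScalarTower K (MvPolynomial (Fin s) K) R := IsScalarTower.of_algebraMap_eq fun x =>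
    (g.commutes x).symm
  have i3 : IsScalarTower K (MvPolynomial (Fin s) K) L := by
    apply IsScalarTower.of_algebraMap_eq
    intro x
    rw [IsScalarTower.algebraMap_apply K R L]
    exact congrArg (algebraMap R L) (g.commutes x).symm
  have hint : Algebra.IsIntegral (MvPolynomial (Fin s) K) R := ⟨fun x => hfin x⟩
  have i4 : FaithfulSMul (MvPolynomial (Fin s) K) R :=
    (faithfulSMul_iff_algebraMap_injective _ _).mpr hinj
  have i5 : FaithfulSMul (MvPolynomial (Fin s) K) L :=
    (faithfulSMul_iff_algebraMap_injective _ _).mpr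
      ((IsFractionRing.injective R L).comp hinj)
  let _ : NormedField (FractionRing (MvPolynomial (Fin s) K)) := ratNormed (Fin s) K
  have i6 : IsUltrametricDist (FractionRing (MvPolynomial (Fin s) K)) := ratNormed_ultra (Fin s) K
  let _ : Algebra (FractionRing (MvPolynomial (Fin s) K)) L :=
    FractionRing.liftAlgebra (MvPolynomial (Fin s) K) L
  have i7 : IsScalarTower (MvPolynomial (Fin s) K) (FractionRing (MvPolynomial (Fin s) K)) L :=
    inferInstance
  have i8 : IsScalarTower K (FractionRing (MvPolynomial (Fin s) K)) L := by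
    apply IsScalarTower.of_algebraMap_eq
    intro x
    rw [IsScalarTower.algebraMap_apply K (MvPolynomial (Fin s) K) (FractionRing (MvPolynomial (Fin s) K)),
      ← IsScalarTower.algebraMap_apply (MvPolynomial (Fin s) K) (FractionRing (MvPolynomial (Fin s) K)) L,
      ← IsScalarTower.algebraMap_apply K (MvPolynomial (Fin s) K) L]
  have j1 : Algebra.EssFiniteType K L := by
    have : Algebra.EssFiniteType K R := inferInstance
    have : Algebra.EssFiniteType R L := Algebra.EssFiniteType.of_isLocalization L (nonZeroDivisors R)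
    exact Algebra.EssFiniteType.comp K R L
  have j2 : Algebra.EssFiniteType (FractionRing (MvPolynomial (Fin s) K)) L :=
    Algebra.EssFiniteType.of_comp K _ L
  have j3 : Algebra.IsAlgebraic (MvPolynomial (Fin s) K) L := by
    have : Algebra.IsAlgebraic (MvPolynomial (Fin s) K) R := inferInstance
    have : Algebra.IsAlgebraic R L := IsLocalization.isAlgebraic L (nonZeroDivisors R)
    exact Algebra.IsAlgebraic.trans (MvPolynomial (Fin s) K) R L
  have j4 : Algebra.IsAlgebraic (FractionRing (MvPolynomial (Fin s) K)) L :=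
    (IsFractionRing.comap_isAlgebraic_iff (A := MvPolynomial (Fin s) K)).mp j3
  have j5 : FiniteDimensional (FractionRing (MvPolynomial (Fin s) K)) L :=
    Algebra.finite_of_essFiniteType_of_isAlgebraic
  obtain ⟨W, hW, hWr⟩ := finDim_core (K := K) (σ := Fin s)
    (E := FractionRing (MvPolynomial (Fin s) K)) (L := L) (by
      intro f
      change ((ratVal (Fin s) K (algebraMap _ _ f) : NNReal) : ℝ) = _
      rw [ratVal_algebraMap]) δ
  refine ⟨W, hW, fun r hr => hWr _ ?_ hr⟩
  exact (hint.isIntegral r).algebraMap

/-- The additive group generated by the differences of eigenvalues is finitely generated. -/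
theorem main' (K R L : Type) [Field K] [CharZero K] [CommRing R] [IsDomain R] [Algebra K R]
    [Algebra.FiniteType K R] [Field L] [Algebra R L] [IsFractionRing R L] [Algebra K L]
    [IsScalarTower K R L] (δ : Derivation K R R) :
    (AddSubgroup.closure
      {r : R | ∃ a b : R, a ≠ 0 ∧ b ≠ 0 ∧ δ a * b - a * δ b = r * a * b}).FG := by
  have : Algebra.FormallyEtale R L := Algebra.FormallyEtale.of_isLocalization (nonZeroDivisors R)
  obtain ⟨D, hD⟩ := DerExt.exists_extend K R L
    ((Algebra.linearMap R L).compDer δ : Derivation K R L)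
  have hD' : ∀ r : R, D (algebraMap R L r) = algebraMap R L (δ r) := fun r => hD r
  have hinj : Function.Injective (algebraMap R L) := IsFractionRing.injective R L
  obtain ⟨W, hW, hWr⟩ := exists_finDim K R L D
  let S : AddSubgroup L :=
    { carrier := {s | (∃ ξ, ξ ≠ 0 ∧ D ξ / ξ = s) ∧ ∃ r : R, algebraMap R L r = s}
      zero_mem' := ⟨⟨1, one_ne_zero, by simp⟩, 0, map_zero _⟩
      add_mem' := by
        rintro _ _ ⟨⟨ξ, hξ, rfl⟩, r, hr⟩ ⟨⟨η, hη, rfl⟩, t, ht⟩
        refine ⟨⟨ξ * η, mul_ne_zero hξ hη, ?_⟩, r + t, by rw [map_add, hr, ht]⟩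
        rw [Derivation.leibniz, smul_eq_mul, smul_eq_mul]
        field_simp
        ring
      neg_mem' := by
        rintro _ ⟨⟨ξ, hξ, rfl⟩, r, hr⟩
        refine ⟨⟨ξ⁻¹, inv_ne_zero hξ, ?_⟩, -r, by rw [map_neg, hr]⟩
        rw [Derivation.leibniz_inv, smul_eq_mul]
        field_simp }
  have hEss : Algebra.EssFiniteType K L := by
    have : Algebra.EssFiniteType K R := inferInstance
    have : Algebra.EssFiniteType R L := Algebra.EssFiniteType.of_isLocalization L (nonZeroDivisors R)
    exact Algebra.EssFiniteType.comp K R L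
  have hSfin : Module.Finite ℤ S := by
    refine finite_of_field D W S (fun s hs => hs.1) ?_
    rintro s ⟨h1, r, rfl⟩
    exact hWr r h1
  set G := AddSubgroup.closure
      {r : R | ∃ a b : R, a ≠ 0 ∧ b ≠ 0 ∧ δ a * b - a * δ b = r * a * b} with hG
  have hGS : G ≤ S.comap (algebraMap R L).toAddMonoidHom := by
    rw [hG, AddSubgroup.closure_le]
    rintro r ⟨a, b, ha, hb, hab⟩
    have ha' : algebraMap R L a ≠ 0 := fun h => ha (hinj (by rw [h, map_zero]))
    have hb' : algebraMap R L b ≠ 0 := fun h => hb (hinj (by rw [h, map_zero]))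
    refine ⟨⟨algebraMap R L a / algebraMap R L b, div_ne_zero ha' hb', ?_⟩, r, rfl⟩
    have h1 := congrArg (algebraMap R L) hab
    simp only [map_sub, map_mul] at h1
    rw [Derivation.leibniz_div, hD', hD']
    simp only [smul_eq_mul]
    change _ = algebraMap R L r
    field_simp
    linear_combination h1
  let F : G →+ S :=
    { toFun := fun x => ⟨algebraMap R L x.1, hGS x.2⟩
      map_zero' := Subtype.ext (map_zero _)
      map_add' := fun x y => Subtype.ext (map_add _ _ _) }
  have hF : Function.Injective F := by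
    intro x y hxy
    exact Subtype.ext (hinj (congrArg Subtype.val hxy))
  have hfin : Module.Finite ℤ G := Module.Finite.of_injective F.toIntLinearMap hF
  have h1 : AddGroup.FG G := Module.Finite.iff_addGroup_fg.mp hfin
  exact (AddGroup.fg_iff_addSubgroup_fg G).mp h1

theorem main (K R : Type) [Field K] [CharZero K] [CommRing R] [IsDomain R] [Algebra K R]
    [Algebra.FiniteType K R] (δ : Derivation K R R) :
    (AddSubgroup.closure
      {r : R | ∃ a b : R, a ≠ 0 ∧ b ≠ 0 ∧ δ a * b - a * δ b = r * a * b}).FG :=
  main' K R (FractionRing R) δ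

end Pool.Agent.Helper241.DarbouxFG
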