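import Mathlib

namespace Pool.Agent.Helper241.Ln

/-! A small checker for refutations by unit propagation.  Clauses are pairs of bit masks
(positive and negative literals), stored in a binary trie. -/

inductive Tr where
  | lf : Tr
  | nd : Tr → ℕ → ℕ → Tr → Tr

def holds (v : ℕ → Bool) (P N : ℕ) : Prop :=
  ∃ i, (P.testBit i = true ∧ v i = true) ∨ (N.testBit i = true ∧ v i = false)

def agree (v : ℕ → Bool) (T F : ℕ) : Prop :=
  ∀ i, (T.testBit i = true → v i = true) ∧ (F.testBit i = true → v i = false)

def Tr.get : Tr → ℕ → ℕ × ℕ
  | .lf, _ => (1, 1)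
  | .nd l P N r, n =>
    bif Nat.beq n 0 then (P, N)
    else bif Nat.beq (n % 2) 1 then l.get (n / 2) else r.get (n / 2 - 1)

def Tr.ins : Tr → ℕ → ℕ → ℕ → Tr
  | .lf, _, P, N => .nd .lf P N .lf
  | .nd l p q r, n, P, N =>
    bif Nat.beq n 0 then .nd l P N r
    else bif Nat.beq (n % 2) 1 then .nd (l.ins (n / 2) P N) p q r
    else .nd l p q (r.ins (n / 2 - 1) P N)

def Tr.ok (v : ℕ → Bool) : Tr → Prop
  | .lf => True
  | .nd l P N r => l.ok v ∧ holds v P N ∧ r.ok v

theorem holds_one (v : ℕ → Bool) : holds v 1 1 := by
  refine ⟨0, ?_⟩
  cases h : v 0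
  · right; simp
  · left; simp

theorem Tr.ok_get (v : ℕ → Bool) (t : Tr) (n : ℕ) (h : t.ok v) :
    holds v (t.get n).1 (t.get n).2 := by
  induction t generalizing n with
  | lf => exact holds_one v
  | nd l P N r ihl ihr =>
    simp only [Tr.get]
    cases h0 : Nat.beq n 0
    · cases h1 : Nat.beq (n % 2) 1
      · exact ihr _ h.2.2
      · exact ihl _ h.1
    · exact h.2.1

theorem Tr.ok_ins (v : ℕ → Bool) (t : Tr) (n P N : ℕ) (h : t.ok v) (hc : holds v P N) :
    (t.ins n P N).ok v := by
  induction t generalizing n with
  | lf => exact ⟨trivial, hc, trivial⟩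
  | nd l p q r ihl ihr =>
    simp only [Tr.ins]
    cases h0 : Nat.beq n 0
    · cases h1 : Nat.beq (n % 2) 1
      · exact ⟨h.1, h.2.1, ihr _ h.2.2⟩
      · exact ⟨ihl _ h.1, h.2.1, h.2.2⟩
    · exact ⟨h.1, hc, h.2.2⟩

/-- unit propagation along a list of hints; `true` when a conflict is reached -/
def rup (t : Tr) : List ℕ → ℕ → ℕ → Bool
  | [], _, _ => false
  | h :: hs, T, F =>
    let c := t.get h
    let P := Nat.xor c.1 (Nat.land c.1 F)
    let N := Nat.xor c.2 (Nat.land c.2 T)
    bif Nat.beq N 0 then
      bif Nat.beq P 0 then true
      else bif Nat.beq P (2 ^ Nat.log2 P) then rup t hs (Nat.lor T P) F else false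
    else
      bif Nat.beq P 0 then
        bif Nat.beq N (2 ^ Nat.log2 N) then rup t hs T (Nat.lor F N) else false
      else false

theorem tb_rest (P F i : ℕ) : (Nat.xor P (Nat.land P F)).testBit i = (P.testBit i && !F.testBit i) := by
  have : Nat.xor P (Nat.land P F) = P ^^^ (P &&& F) := rfl
  rw [this, Nat.testBit_xor, Nat.testBit_and]
  cases P.testBit i <;> cases F.testBit i <;> rfl

theorem tb_lor (P F i : ℕ) : (Nat.lor P F).testBit i = (P.testBit i || F.testBit i) := by
  have : Nat.lor P F = P ||| F := rfl
  rw [this, Nat.testBit_or]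

theorem holds_rest (v : ℕ → Bool) (T F P N : ℕ) (ha : agree v T F) (h : holds v P N) :
    holds v (Nat.xor P (Nat.land P F)) (Nat.xor N (Nat.land N T)) := by
  obtain ⟨i, h | h⟩ := h
  · refine ⟨i, Or.inl ⟨?_, h.2⟩⟩
    rw [tb_rest, h.1]
    cases hf : F.testBit i
    · rfl
    · have := (ha i).2 hf
      rw [h.2] at this; exact absurd this (by decide)
  · refine ⟨i, Or.inr ⟨?_, h.2⟩⟩
    rw [tb_rest, h.1]
    cases hf : T.testBit i
    · rfl
    · have := (ha i).1 hf
      rw [h.2] at this; exact absurd this (by decide)

theorem rup_sound (v : ℕ → Bool) (t : Tr) (ht : t.ok v) (hs : List ℕ) (T F : ℕ)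
    (ha : agree v T F) (h : rup t hs T F = true) : False := by
  induction hs generalizing T F with
  | nil => simp [rup] at h
  | cons a hs ih =>
    have hc := holds_rest v T F _ _ ha (t.ok_get v a ht)
    simp only [rup] at h
    generalize hP : Nat.xor (t.get a).1 (Nat.land (t.get a).1 F) = P at h hc
    generalize hN : Nat.xor (t.get a).2 (Nat.land (t.get a).2 T) = N at h hc
    cases hN0 : Nat.beq N 0
    · rw [hN0] at h
      simp only [cond_false] at h
      cases hP0 : Nat.beq P 0
      · rw [hP0] at h; simp at h
      · rw [hP0] at h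
        simp only [cond_true] at h
        have hP0' : P = 0 := Nat.eq_of_beq_eq_true hP0
        cases hl : Nat.beq N (2 ^ Nat.log2 N)
        · rw [hl] at h; simp at h
        · rw [hl] at h
          simp only [cond_true] at h
          have hl' : N = 2 ^ Nat.log2 N := Nat.eq_of_beq_eq_true hl
          refine ih T (Nat.lor F N) ?_ h
          intro i
          refine ⟨(ha i).1, ?_⟩
          intro hi
          rw [tb_lor] at hi
          rcases (Bool.or_eq_true _ _).mp hi with hi | hi
          · exact (ha i).2 hi
          · obtain ⟨j, hj | hj⟩ := hc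
            · rw [hP0'] at hj; simp at hj
            · rw [hl', Nat.testBit_two_pow] at hi
              have hj1 := hj.1
              rw [hl', Nat.testBit_two_pow] at hj1
              have e1 : Nat.log2 N = i := by simpa using hi
              have e2 : Nat.log2 N = j := by simpa using hj1
              rw [← e1, e2]; exact hj.2
    · rw [hN0] at h
      simp only [cond_true] at h
      have hN0' : N = 0 := Nat.eq_of_beq_eq_true hN0
      cases hP0 : Nat.beq P 0
      · rw [hP0] at h
        simp only [cond_false] at h
        cases hl : Nat.beq P (2 ^ Nat.log2 P)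
        · rw [hl] at h; simp at h
        · rw [hl] at h
          simp only [cond_true] at h
          have hl' : P = 2 ^ Nat.log2 P := Nat.eq_of_beq_eq_true hl
          refine ih (Nat.lor T P) F ?_ h
          intro i
          refine ⟨?_, (ha i).2⟩
          intro hi
          rw [tb_lor] at hi
          rcases (Bool.or_eq_true _ _).mp hi with hi | hi
          · exact (ha i).1 hi
          · obtain ⟨j, hj | hj⟩ := hc
            · rw [hl', Nat.testBit_two_pow] at hi
              have hj1 := hj.1
              rw [hl', Nat.testBit_two_pow] at hj1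
              have e1 : Nat.log2 P = i := by simpa using hi
              have e2 : Nat.log2 P = j := by simpa using hj1
              rw [← e1, e2]; exact hj.2
            · rw [hN0'] at hj; simp at hj
      · have hP0' : P = 0 := Nat.eq_of_beq_eq_true hP0
        obtain ⟨j, hj | hj⟩ := hc
        · rw [hP0'] at hj; simp at hj
        · rw [hN0'] at hj; simp at hj

/-- proof steps: an instance of a known clause, or a learnt clause with hints -/
inductive Stp where
  | o (code : ℕ) : Stp
  | l (P N : ℕ) (hs : List ℕ) : Stp

/-- run the certificate; `gen` produces the clause of a code (or `none`) -/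
def run (gen : ℕ → Option (ℕ × ℕ)) (T F : ℕ) : List Stp → ℕ → Tr → Bool
  | [], _, _ => false
  | .o code :: rest, n, t =>
    match gen code with
    | none => false
    | some c => run gen T F rest (n + 1) (t.ins n c.1 c.2)
  | .l P N hs :: rest, n, t =>
    bif rup t hs (Nat.lor T N) (Nat.lor F P) then
      bif Nat.beq P 0 && Nat.beq N 0 then true else run gen T F rest (n + 1) (t.ins n P N)
    else false

theorem run_sound (v : ℕ → Bool) (gen : ℕ → Option (ℕ × ℕ))
    (hg : ∀ code c, gen code = some c → holds v c.1 c.2)
    (T F : ℕ) (ha : agree v T F) (st : List Stp) (n : ℕ) (t : Tr) (ht : t.ok v)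
    (h : run gen T F st n t = true) : False := by
  induction st generalizing n t with
  | nil => simp [run] at h
  | cons a st ih =>
    cases a with
    | o code =>
      simp only [run] at h
      cases hc : gen code with
      | none => rw [hc] at h; simp at h
      | some c =>
        rw [hc] at h
        exact ih _ _ (t.ok_ins v _ _ _ ht (hg _ _ hc)) h
    | l P N hs =>
      simp only [run] at h
      cases hr : rup t hs (Nat.lor T N) (Nat.lor F P)
      · rw [hr] at h; simp at h
      · rw [hr] at h
        simp only [cond_true] at h
        have hc : holds v P N := by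
          by_contra hn
          refine rup_sound v t ht hs _ _ ?_ hr
          intro i
          rw [tb_lor, tb_lor]
          constructor
          · intro hi
            rcases (Bool.or_eq_true _ _).mp hi with hi | hi
            · exact (ha i).1 hi
            · by_contra hv
              exact hn ⟨i, Or.inr ⟨hi, by simpa using hv⟩⟩
          · intro hi
            rcases (Bool.or_eq_true _ _).mp hi with hi | hi
            · exact (ha i).2 hi
            · by_contra hv
              exact hn ⟨i, Or.inl ⟨hi, by simpa using hv⟩⟩
        cases he : (Nat.beq P 0 && Nat.beq N 0)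
        · rw [he] at h
          exact ih _ _ (t.ok_ins v _ _ _ ht hc) h
        · have he' := (Bool.and_eq_true _ _).mp he
          have h1 : P = 0 := Nat.eq_of_beq_eq_true he'.1
          have h2 : N = 0 := Nat.eq_of_beq_eq_true he'.2
          obtain ⟨j, hj | hj⟩ := hc
          · rw [h1] at hj; simp at hj
          · rw [h2] at hj; simp at hj

end Pool.Agent.Helper241.Ln
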