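import Mathlib

namespace Pool.Agent.Helper241.Ln

/-- Euclidean 3-space. -/
abbrev E3 := EuclideanSpace ℝ (Fin 3)

/-- The distance of two subsets of 3-space: the infimum of the distances of their points. -/
noncomputable def setDist (A B : Set E3) : ℝ :=
  sInf {r : ℝ | ∃ x ∈ A, ∃ y ∈ B, r = dist x y}

/-- A line of 3-space: a nonempty affine subspace whose direction is one-dimensional. -/
def IsLine (l : AffineSubspace ℝ E3) : Prop :=
  (l : Set E3).Nonempty ∧ Module.finrank ℝ l.direction = 1

/-- A family of `k` pairwise distinct lines, any two of them at distance 1. -/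
def IsEquidistant {k : ℕ} (l : Fin k → AffineSubspace ℝ E3) : Prop :=
  (∀ i, IsLine (l i)) ∧ Function.Injective l ∧
    ∀ i j, i ≠ j → setDist (l i : Set E3) (l j : Set E3) = 1

end Pool.Agent.Helper241.Ln
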