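import Mathlib
import Pool.Agent.Helper241.LnStmt

namespace Pool.Agent.Helper241.Ln

/-- vectors of three-space in coordinates -/
abbrev V3 := Fin 3 → ℝ

/-- determinant -/
def dt (x y z : V3) : ℝ :=
  x 0 * (y 1 * z 2 - y 2 * z 1) - x 1 * (y 0 * z 2 - y 2 * z 0) + x 2 * (y 0 * z 1 - y 1 * z 0)

/-- dot product -/
def dp (x y : V3) : ℝ := x 0 * y 0 + x 1 * y 1 + x 2 * y 2

/-- squared length of the cross product -/
def w2 (x y : V3) : ℝ :=
  (x 1 * y 2 - x 2 * y 1) ^ 2 + (x 2 * y 0 - x 0 * y 2) ^ 2 + (x 0 * y 1 - x 1 * y 0) ^ 2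

/-- cross product -/
def cr (x y : V3) : V3 := ![x 1 * y 2 - x 2 * y 1, x 2 * y 0 - x 0 * y 2, x 0 * y 1 - x 1 * y 0]

/-- the mutual moment of two lines in Pluecker coordinates -/
def hh (u m v n : V3) : ℝ := dp u n + dp v m

/-- `l` is the line through `p` with direction `u`, in coordinates -/
def Par (l : AffineSubspace ℝ E3) (p u : V3) : Prop :=
  ∀ x : E3, x ∈ l ↔ ∃ t : ℝ, ∀ i, x i = p i + t * u i

/-- configuration of `n` lines in general position at pairwise distance one -/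
structure Conf (n : ℕ) where
  u : Fin n → V3
  m : Fin n → V3
  um : ∀ i, dp (u i) (m i) = 0
  hw : ∀ i j, i ≠ j → (hh (u i) (m i) (u j) (m j)) ^ 2 = w2 (u i) (u j)
  wpos : ∀ i j, i ≠ j → 0 < w2 (u i) (u j)
  dne : ∀ i j k, i ≠ j → j ≠ k → i ≠ k → dt (u i) (u j) (u k) ≠ 0

end Pool.Agent.Helper241.Ln
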