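import Mathlib
import Pool.Agent.Helper241.LnDefs

namespace Pool.Agent.Helper241.Ln

/-- sign of a bit: `true` means a flip -/
def sgn (b : Bool) : ℝ := if b then -1 else 1

theorem sgn_sq (b : Bool) : sgn b * sgn b = 1 := by cases b <;> simp [sgn]

theorem sgn_ne (b : Bool) : sgn b ≠ 0 := by cases b <;> simp [sgn]

theorem decide_sgn_mul (b : Bool) (r : ℝ) (hr : r ≠ 0) :
    decide (0 < sgn b * r) = (decide (0 < r) ^^ b) := by
  cases b
  · simp [sgn]
  · rcases lt_or_gt_of_ne hr with h | h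
    · have h1 : ¬ 0 < r := by linarith
      simp [sgn, h, h1]
    · have h1 : ¬ r < 0 := by linarith
      simp [sgn, h, h1]

def Conf.H {n : ℕ} (c : Conf n) (i j : Fin n) : ℝ := hh (c.u i) (c.m i) (c.u j) (c.m j)
def Conf.D {n : ℕ} (c : Conf n) (i j k : Fin n) : ℝ := dt (c.u i) (c.u j) (c.u k)

noncomputable def Conf.s {n : ℕ} (c : Conf n) (i j : Fin n) : Bool := decide (0 < c.H i j)
noncomputable def Conf.x {n : ℕ} (c : Conf n) (i j k : Fin n) : Bool := decide (0 < c.D i j k)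

theorem Conf.H_ne {n : ℕ} (c : Conf n) {i j : Fin n} (h : i ≠ j) : c.H i j ≠ 0 := by
  intro h0
  have h1 := c.hw i j h
  have h2 := c.wpos i j h
  rw [Conf.H] at h0
  rw [h0] at h1
  norm_num at h1
  linarith

theorem Conf.D_ne {n : ℕ} (c : Conf n) {i j k : Fin n} (h : i ≠ j) (h' : j ≠ k) (h'' : i ≠ k) :
    c.D i j k ≠ 0 := c.dne i j k h h' h''

theorem Conf.H_symm {n : ℕ} (c : Conf n) (i j : Fin n) : c.H i j = c.H j i := by
  simp only [Conf.H, hh, dp]; ring

theorem Conf.s_symm {n : ℕ} (c : Conf n) (i j : Fin n) : c.s i j = c.s j i := by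
  simp only [Conf.s, c.H_symm i j]

theorem Conf.D_swap12 {n : ℕ} (c : Conf n) (i j k : Fin n) : c.D j i k = - c.D i j k := by
  simp only [Conf.D, dt]; ring

theorem Conf.D_swap23 {n : ℕ} (c : Conf n) (i j k : Fin n) : c.D i k j = - c.D i j k := by
  simp only [Conf.D, dt]; ring

theorem decide_neg_pos (r : ℝ) (hr : r ≠ 0) : decide (0 < -r) = !decide (0 < r) := by
  have := decide_sgn_mul true r hr
  simpa [sgn] using this

theorem Conf.x_swap12 {n : ℕ} (c : Conf n) {i j k : Fin n} (h : i ≠ j) (h' : j ≠ k) (h'' : i ≠ k) :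
    c.x j i k = !c.x i j k := by
  simp only [Conf.x, c.D_swap12 i j k]
  exact decide_neg_pos _ (c.D_ne h h' h'')

theorem Conf.x_swap23 {n : ℕ} (c : Conf n) {i j k : Fin n} (h : i ≠ j) (h' : j ≠ k) (h'' : i ≠ k) :
    c.x i k j = !c.x i j k := by
  simp only [Conf.x, c.D_swap23 i j k]
  exact decide_neg_pos _ (c.D_ne h h' h'')

theorem hh_smul (a b μ : ℝ) (u m v n : V3) :
    hh (a • u) ((a * μ) • m) (b • v) ((b * μ) • n) = a * b * μ * hh u m v n := by
  simp only [hh, dp, Pi.smul_apply, smul_eq_mul]; ring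

theorem w2_smul (a b : ℝ) (u v : V3) (ha : a * a = 1) (hb : b * b = 1) :
    w2 (a • u) (b • v) = w2 u v := by
  simp only [w2, Pi.smul_apply, smul_eq_mul]
  have : (a * a) * (b * b) = 1 := by rw [ha, hb]; norm_num
  linear_combination ((u 1 * v 2 - u 2 * v 1) ^ 2 + (u 2 * v 0 - u 0 * v 2) ^ 2 +
    (u 0 * v 1 - u 1 * v 0) ^ 2) * this

theorem dt_smul (a b c : ℝ) (u v w : V3) :
    dt (a • u) (b • v) (c • w) = a * b * c * dt u v w := by
  simp only [dt, Pi.smul_apply, smul_eq_mul]; ring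

/-- relabelling by a permutation, reversing orientations (`e`), and mirroring (`μ`) -/
noncomputable def Conf.rel {n : ℕ} (c : Conf n) (σ : Equiv.Perm (Fin n)) (e : Fin n → Bool) (μ : Bool) :
    Conf n where
  u i := sgn (e i) • c.u (σ i)
  m i := (sgn (e i) * sgn μ) • c.m (σ i)
  um i := by
    have := c.um (σ i)
    simp only [dp, Pi.smul_apply, smul_eq_mul] at *
    linear_combination sgn (e i) * sgn (e i) * sgn μ * this
  hw i j h := by
    rw [hh_smul, w2_smul _ _ _ _ (sgn_sq _) (sgn_sq _), ← c.hw (σ i) (σ j) (fun h' => h (σ.injective h'))]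
    have h1 := sgn_sq (e i)
    have h2 := sgn_sq (e j)
    have h3 := sgn_sq μ
    have h4 : (sgn (e i) * sgn (e i)) * (sgn (e j) * sgn (e j)) * (sgn μ * sgn μ) = 1 := by
      rw [h1, h2, h3]; norm_num
    linear_combination (hh (c.u (σ i)) (c.m (σ i)) (c.u (σ j)) (c.m (σ j))) ^ 2 * h4
  wpos i j h := by
    rw [w2_smul _ _ _ _ (sgn_sq _) (sgn_sq _)]
    exact c.wpos _ _ (fun h' => h (σ.injective h'))
  dne i j k h h' h'' := by
    rw [dt_smul]
    exact mul_ne_zero (mul_ne_zero (mul_ne_zero (sgn_ne _) (sgn_ne _)) (sgn_ne _))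
      (c.dne _ _ _ (fun q => h (σ.injective q)) (fun q => h' (σ.injective q))
        (fun q => h'' (σ.injective q)))

theorem Conf.rel_s {n : ℕ} (c : Conf n) (σ : Equiv.Perm (Fin n)) (e : Fin n → Bool) (μ : Bool)
    {i j : Fin n} (h : i ≠ j) :
    (c.rel σ e μ).s i j = (((c.s (σ i) (σ j) ^^ μ) ^^ e j) ^^ e i) := by
  have hne : c.H (σ i) (σ j) ≠ 0 := c.H_ne (fun h' => h (σ.injective h'))
  have e1 : (c.rel σ e μ).H i j = sgn (e i) * (sgn (e j) * (sgn μ * c.H (σ i) (σ j))) := by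
    simp only [Conf.H, Conf.rel, hh_smul]; ring
  simp only [Conf.s, e1]
  rw [decide_sgn_mul, decide_sgn_mul, decide_sgn_mul _ _ hne]
  · exact mul_ne_zero (sgn_ne _) hne
  · exact mul_ne_zero (sgn_ne _) (mul_ne_zero (sgn_ne _) hne)

theorem Conf.rel_x {n : ℕ} (c : Conf n) (σ : Equiv.Perm (Fin n)) (e : Fin n → Bool) (μ : Bool)
    {i j k : Fin n} (h : i ≠ j) (h' : j ≠ k) (h'' : i ≠ k) :
    (c.rel σ e μ).x i j k = (((c.x (σ i) (σ j) (σ k) ^^ e k) ^^ e j) ^^ e i) := by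
  have hne : c.D (σ i) (σ j) (σ k) ≠ 0 := c.D_ne (fun q => h (σ.injective q))
    (fun q => h' (σ.injective q)) (fun q => h'' (σ.injective q))
  have e1 : (c.rel σ e μ).D i j k = sgn (e i) * (sgn (e j) * (sgn (e k) * c.D (σ i) (σ j) (σ k))) := by
    simp only [Conf.D, Conf.rel, dt_smul]; ring
  simp only [Conf.x, e1]
  rw [decide_sgn_mul, decide_sgn_mul, decide_sgn_mul _ _ hne]
  · exact mul_ne_zero (sgn_ne _) hne
  · exact mul_ne_zero (sgn_ne _) (mul_ne_zero (sgn_ne _) hne)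

/-- Grassmann-Pluecker relation -/
theorem Conf.gp {n : ℕ} (c : Conf n) (a b d e f : Fin n) :
    c.D a b d * c.D a e f - c.D a b e * c.D a d f + c.D a b f * c.D a d e = 0 := by
  simp only [Conf.D, dt]; ring

end Pool.Agent.Helper241.Ln
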