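import Mathlib
import Pool.Agent.Helper241.LnDefs

namespace Pool.Agent.Helper241.Ln

/-- a line has a parametrisation in coordinates -/
theorem line_param (l : AffineSubspace ℝ E3) (h : IsLine l) :
    ∃ p u : V3, u ≠ 0 ∧ Par l p u := by
  obtain ⟨⟨p, hp⟩, hdim⟩ := h
  obtain ⟨v, hv, hspan⟩ := finrank_eq_one_iff'.1 hdim
  refine ⟨fun i => p i, fun i => (v : E3) i, ?_, ?_⟩
  · intro h0
    apply hv
    apply Subtype.ext
    ext i
    have := congrFun h0 i
    simpa using this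
  · intro x
    rw [← AffineSubspace.vsub_right_mem_direction_iff_mem hp x, vsub_eq_sub]
    constructor
    · intro hx
      obtain ⟨t, ht⟩ := hspan ⟨x - p, hx⟩
      refine ⟨t, fun i => ?_⟩
      have h1 : t • (v : E3) = x - p := congrArg Subtype.val ht
      have h2 : t * (v : E3) i = x i - p i := by
        have := congrArg (fun w : E3 => w i) h1
        simpa using this
      linarith
    · rintro ⟨t, ht⟩
      have h1 : x - p = t • (v : E3) := by
        ext i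
        have := ht i
        simp only [PiLp.sub_apply, PiLp.smul_apply, smul_eq_mul]
        linarith
      rw [h1]
      exact Submodule.smul_mem _ t v.2

/-- distance of two non-parallel lines -/
theorem setDist_np (l l' : AffineSubspace ℝ E3) (p u q v : V3) (hl : Par l p u) (hl' : Par l' q v)
    (hw : 0 < w2 u v) :
    setDist (l : Set E3) (l' : Set E3) = |dt (fun i => p i - q i) u v| / Real.sqrt (w2 u v) := by
  have hsq : 0 < Real.sqrt (w2 u v) := Real.sqrt_pos.mpr hw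
  have hsq2 : Real.sqrt (w2 u v) * Real.sqrt (w2 u v) = w2 u v := Real.mul_self_sqrt hw.le
  have hdist : ∀ x y : E3, dist x y =
      Real.sqrt ((x 0 - y 0) ^ 2 + (x 1 - y 1) ^ 2 + (x 2 - y 2) ^ 2) := by
    intro x y
    rw [EuclideanSpace.dist_eq, Fin.sum_univ_three]
    simp [Real.dist_eq, sq_abs]
  -- Gram identity
  have gram : ∀ z : V3, (z 0 ^ 2 + z 1 ^ 2 + z 2 ^ 2) * w2 u v = (dt z u v) ^ 2
      + (dp z u) * (dp z u * dp v v - dp u v * dp z v)
      - (dp z v) * (dp z u * dp u v - dp u u * dp z v) := by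
    intro z
    unfold w2 dt dp
    ring
  have csw : ∀ z : V3, (dt z u v) ^ 2 ≤ (z 0 ^ 2 + z 1 ^ 2 + z 2 ^ 2) * w2 u v := by
    intro z
    have h : (z 0 ^ 2 + z 1 ^ 2 + z 2 ^ 2) * w2 u v - (dt z u v) ^ 2
        = (z 1 * (u 0 * v 1 - u 1 * v 0) - z 2 * (u 2 * v 0 - u 0 * v 2)) ^ 2
        + (z 2 * (u 1 * v 2 - u 2 * v 1) - z 0 * (u 0 * v 1 - u 1 * v 0)) ^ 2
        + (z 0 * (u 2 * v 0 - u 0 * v 2) - z 1 * (u 1 * v 2 - u 2 * v 1)) ^ 2 := by
      unfold w2 dt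
      ring
    nlinarith [sq_nonneg (z 1 * (u 0 * v 1 - u 1 * v 0) - z 2 * (u 2 * v 0 - u 0 * v 2)),
      sq_nonneg (z 2 * (u 1 * v 2 - u 2 * v 1) - z 0 * (u 0 * v 1 - u 1 * v 0)),
      sq_nonneg (z 0 * (u 2 * v 0 - u 0 * v 2) - z 1 * (u 1 * v 2 - u 2 * v 1))]
  have hinv : ∀ s t : ℝ, dt (fun i => (p i + s * u i) - (q i + t * v i)) u v
      = dt (fun i => p i - q i) u v := by
    intro s t
    unfold dt
    ring
  unfold setDist
  apply le_antisymm
  · -- attained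
    apply csInf_le
    · exact ⟨0, by rintro r ⟨x, _, y, _, rfl⟩; exact dist_nonneg⟩
    · set a := dp (fun i => p i - q i) u with ha
      set b := dp (fun i => p i - q i) v with hb
      set s := (b * dp u v - a * dp v v) / w2 u v with hs
      set t := (dp u u * b - dp u v * a) / w2 u v with ht
      have hw' : w2 u v ≠ 0 := hw.ne'
      have hws : s * w2 u v = b * dp u v - a * dp v v := by
        rw [hs]; field_simp
      have hwt : t * w2 u v = dp u u * b - dp u v * a := by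
        rw [ht]; field_simp
      have lag : w2 u v = dp u u * dp v v - dp u v ^ 2 := by unfold w2 dp; ring
      let x : E3 := (WithLp.equiv 2 (Fin 3 → ℝ)).symm (fun i => p i + s * u i)
      let y : E3 := (WithLp.equiv 2 (Fin 3 → ℝ)).symm (fun i => q i + t * v i)
      have hx : ∀ i, x i = p i + s * u i := fun i => rfl
      have hy : ∀ i, y i = q i + t * v i := fun i => rfl
      refine ⟨x, (hl x).2 ⟨s, hx⟩, y, (hl' y).2 ⟨t, hy⟩, ?_⟩
      rw [hdist, hx, hx, hx, hy, hy, hy]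
      set z : V3 := fun i => (p i + s * u i) - (q i + t * v i) with hz
      have hzu : dp z u = 0 := by
        have h1 : dp z u = a + s * dp u u - t * dp u v := by
          simp only [ha, hz, dp]; ring
        have h2 : dp z u * w2 u v = 0 := by
          rw [h1]
          calc (a + s * dp u u - t * dp u v) * w2 u v
              = a * w2 u v + (s * w2 u v) * dp u u - (t * w2 u v) * dp u v := by ring
            _ = 0 := by rw [hws, hwt, lag]; ring
        exact (mul_eq_zero.mp h2).resolve_right hw'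
      have hzv : dp z v = 0 := by
        have h1 : dp z v = b + s * dp u v - t * dp v v := by
          simp only [hb, hz, dp]; ring
        have h2 : dp z v * w2 u v = 0 := by
          rw [h1]
          calc (b + s * dp u v - t * dp v v) * w2 u v
              = b * w2 u v + (s * w2 u v) * dp u v - (t * w2 u v) * dp v v := by ring
            _ = 0 := by rw [hws, hwt, lag]; ring
        exact (mul_eq_zero.mp h2).resolve_right hw'
      have hg := gram z
      rw [hzu, hzv] at hg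
      have hd : dt z u v = dt (fun i => p i - q i) u v := hinv s t
      rw [hd] at hg
      have hz2 : z 0 ^ 2 + z 1 ^ 2 + z 2 ^ 2 = (|dt (fun i => p i - q i) u v| / Real.sqrt (w2 u v)) ^ 2 := by
        rw [div_pow, sq_abs, Real.sq_sqrt hw.le, eq_div_iff hw']
        linarith
      have hnn : 0 ≤ |dt (fun i => p i - q i) u v| / Real.sqrt (w2 u v) := by positivity
      have : (p 0 + s * u 0 - (q 0 + t * v 0)) ^ 2 + (p 1 + s * u 1 - (q 1 + t * v 1)) ^ 2 +
          (p 2 + s * u 2 - (q 2 + t * v 2)) ^ 2 = z 0 ^ 2 + z 1 ^ 2 + z 2 ^ 2 := rfl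
      rw [this, hz2, Real.sqrt_sq hnn]
  · apply le_csInf
    · refine ⟨_, (WithLp.equiv 2 (Fin 3 → ℝ)).symm (fun i => p i + 0 * u i), (hl _).2 ⟨0, fun i => rfl⟩,
        (WithLp.equiv 2 (Fin 3 → ℝ)).symm (fun i => q i + 0 * v i), (hl' _).2 ⟨0, fun i => rfl⟩, rfl⟩
    · rintro r ⟨x, hx, y, hy, rfl⟩
      obtain ⟨s, hs⟩ := (hl x).1 hx
      obtain ⟨t, ht⟩ := (hl' y).1 hy
      rw [hdist, hs, hs, hs, ht, ht, ht]
      set z : V3 := fun i => (p i + s * u i) - (q i + t * v i) with hz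
      have h := csw z
      rw [show dt z u v = dt (fun i => p i - q i) u v from hinv s t] at h
      have : (p 0 + s * u 0 - (q 0 + t * v 0)) ^ 2 + (p 1 + s * u 1 - (q 1 + t * v 1)) ^ 2 +
          (p 2 + s * u 2 - (q 2 + t * v 2)) ^ 2 = z 0 ^ 2 + z 1 ^ 2 + z 2 ^ 2 := rfl
      rw [this, div_le_iff₀ hsq, ← Real.sqrt_mul (by positivity)]
      apply Real.le_sqrt_of_sq_le
      rw [sq_abs]
      exact h

theorem setDist_par_pos (u : V3) (hu : u ≠ 0) : 0 < dp u u := by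
  unfold dp
  by_contra h
  apply hu
  have h0 : u 0 = 0 := by nlinarith [mul_self_nonneg (u 0), mul_self_nonneg (u 1), mul_self_nonneg (u 2)]
  have h1 : u 1 = 0 := by nlinarith [mul_self_nonneg (u 0), mul_self_nonneg (u 1), mul_self_nonneg (u 2)]
  have h2 : u 2 = 0 := by nlinarith [mul_self_nonneg (u 0), mul_self_nonneg (u 1), mul_self_nonneg (u 2)]
  funext i
  fin_cases i
  · exact h0
  · exact h1
  · exact h2

theorem setDist_par_dist (x y : E3) (z : V3) (hz : ∀ i, x i - y i = z i) :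
    dist x y = Real.sqrt (dp z z) := by
  rw [EuclideanSpace.dist_eq, Fin.sum_univ_three]
  simp only [Real.dist_eq, sq_abs, hz]
  unfold dp
  congr 1
  ring

/-- distance of two parallel lines -/
theorem setDist_par (l l' : AffineSubspace ℝ E3) (p u q v : V3) (hl : Par l p u) (hl' : Par l' q v)
    (hu : u ≠ 0) (hv : v ≠ 0) (hw : w2 u v = 0) :
    setDist (l : Set E3) (l' : Set E3) =
      Real.sqrt (w2 (fun i => p i - q i) u) / Real.sqrt (dp u u) := by
  have hU := setDist_par_pos u hu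
  rw [← Real.sqrt_div' _ hU.le]
  -- components
  have c0 : u 1 * v 2 - u 2 * v 1 = 0 := by
    unfold w2 at hw
    nlinarith [sq_nonneg (u 1 * v 2 - u 2 * v 1), sq_nonneg (u 2 * v 0 - u 0 * v 2),
      sq_nonneg (u 0 * v 1 - u 1 * v 0)]
  have c1 : u 2 * v 0 - u 0 * v 2 = 0 := by
    unfold w2 at hw
    nlinarith [sq_nonneg (u 1 * v 2 - u 2 * v 1), sq_nonneg (u 2 * v 0 - u 0 * v 2),
      sq_nonneg (u 0 * v 1 - u 1 * v 0)]
  have c2 : u 0 * v 1 - u 1 * v 0 = 0 := by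
    unfold w2 at hw
    nlinarith [sq_nonneg (u 1 * v 2 - u 2 * v 1), sq_nonneg (u 2 * v 0 - u 0 * v 2),
      sq_nonneg (u 0 * v 1 - u 1 * v 0)]
  have hvc : ∀ i, v i = dp u v / dp u u * u i := by
    intro i
    rw [div_mul_eq_mul_div, eq_div_iff hU.ne']
    unfold dp
    fin_cases i
    · simp only [Fin.zero_eta]
      linear_combination (-u 1) * c2 + u 2 * c1
    · simp only [Fin.mk_one]
      linear_combination u 0 * c2 - u 2 * c0
    · simp only [Fin.reduceFinMk]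
      linear_combination (-u 0) * c1 + u 1 * c0
  refine IsLeast.csInf_eq ⟨?_, ?_⟩
  · -- attained
    set s : ℝ := -dp (fun i => p i - q i) u / dp u u with hs
    have hsu : s * dp u u = -dp (fun i => p i - q i) u := by
      rw [hs, div_mul_cancel₀ _ hU.ne']
    refine ⟨WithLp.toLp 2 (fun i => p i + s * u i), (hl _).2 ⟨s, fun i => rfl⟩,
      WithLp.toLp 2 (fun i => q i + 0 * v i), (hl' _).2 ⟨0, fun i => rfl⟩, ?_⟩
    rw [setDist_par_dist _ _ (fun i => p i - q i + s * u i) (fun i => by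
      show (p i + s * u i) - (q i + 0 * v i) = _
      ring)]
    congr 1
    rw [div_eq_iff hU.ne']
    have key : w2 (fun i => p i - q i) u =
        dp (fun i => p i - q i + s * u i) (fun i => p i - q i + s * u i) * dp u u -
        (dp (fun i => p i - q i) u + s * dp u u) ^ 2 := by
      unfold w2 dp
      ring
    rw [key, hsu]
    ring
  · rintro r ⟨x, hx, y, hy, rfl⟩
    obtain ⟨s, hs⟩ := (hl x).1 hx
    obtain ⟨t, ht⟩ := (hl' y).1 hy
    set c : ℝ := dp u v / dp u u with hc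
    rw [setDist_par_dist x y (fun i => p i - q i + (s - t * c) * u i) (fun i => by
      rw [hs i, ht i, hvc i]; ring)]
    apply Real.sqrt_le_sqrt
    rw [div_le_iff₀ hU]
    have key : w2 (fun i => p i - q i) u =
        dp (fun i => p i - q i + (s - t * c) * u i) (fun i => p i - q i + (s - t * c) * u i) * dp u u -
        (dp (fun i => p i - q i) u + (s - t * c) * dp u u) ^ 2 := by
      unfold w2 dp
      ring
    rw [key]
    nlinarith [sq_nonneg (dp (fun i => p i - q i) u + (s - t * c) * dp u u)]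

theorem aux1_834 (u0 u1 u2 v0 v1 v2 w0 w1 w2 N0 N1 N2 n : ℝ) (hN0 : N0 = u1 * v2 - u2 * v1)
    (hN1 : N1 = u2 * v0 - u0 * v2) (hN2 : N2 = u0 * v1 - u1 * v0)
    (hn : n = N0 ^ 2 + N1 ^ 2 + N2 ^ 2)
    (hdt : u0 * (v1 * w2 - v2 * w1) - u1 * (v0 * w2 - v2 * w0) + u2 * (v0 * w1 - v1 * w0) = 0) :
    ∃ A B : ℝ, n * w0 = A * u0 + B * v0 ∧ n * w1 = A * u1 + B * v1 ∧ n * w2 = A * u2 + B * v2 := by
  refine ⟨(w1 * v2 - w2 * v1) * N0 + (w2 * v0 - w0 * v2) * N1 +
    (w0 * v1 - w1 * v0) * N2, (u1 * w2 - u2 * w1) * N0 + (u2 * w0 - u0 * w2) * N1 +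
    (u0 * w1 - u1 * w0) * N2, ?_, ?_, ?_⟩
  · rw [hn, hN0, hN1, hN2]; linear_combination (u1 * v2 - u2 * v1) * hdt
  · rw [hn, hN0, hN1, hN2]; linear_combination (u2 * v0 - u0 * v2) * hdt
  · rw [hn, hN0, hN1, hN2]; linear_combination (u0 * v1 - u1 * v0) * hdt

theorem aux2_834 (a0 a1 a2 w0 w1 w2 N0 N1 N2 n B : ℝ)
    (hn : n = N0 ^ 2 + N1 ^ 2 + N2 ^ 2) (hn0 : 0 < n)
    (c0 : n * (a1 * w2 - a2 * w1) = B * N0)
    (c1 : n * (a2 * w0 - a0 * w2) = B * N1)
    (c2 : n * (a0 * w1 - a1 * w0) = B * N2)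
    (hpos : 0 < (a1 * w2 - a2 * w1) ^ 2 + (a2 * w0 - a0 * w2) ^ 2 + (a0 * w1 - a1 * w0) ^ 2)
    (x0 x1 x2 : ℝ)
    (e : (x0 * (a1 * w2 - a2 * w1) - x1 * (a0 * w2 - a2 * w0) + x2 * (a0 * w1 - a1 * w0)) ^ 2 =
      (a1 * w2 - a2 * w1) ^ 2 + (a2 * w0 - a0 * w2) ^ 2 + (a0 * w1 - a1 * w0) ^ 2) :
    (x0 * N0 + x1 * N1 + x2 * N2) ^ 2 = n := by
  have f2 : n ^ 2 * ((a1 * w2 - a2 * w1) ^ 2 + (a2 * w0 - a0 * w2) ^ 2 + (a0 * w1 - a1 * w0) ^ 2) =
      B ^ 2 * n := by
    calc _ = (n * (a1 * w2 - a2 * w1)) ^ 2 + (n * (a2 * w0 - a0 * w2)) ^ 2 +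
        (n * (a0 * w1 - a1 * w0)) ^ 2 := by ring
      _ = _ := by rw [c0, c1, c2, hn]; ring
  have hB0 : 0 < B ^ 2 := by
    have h4 : 0 < B ^ 2 * n := by
      rw [← f2]; exact mul_pos (pow_pos hn0 2) hpos
    exact (pos_iff_pos_of_mul_pos h4).2 hn0
  have h5 : B * (x0 * N0 + x1 * N1 + x2 * N2) =
      n * (x0 * (a1 * w2 - a2 * w1) - x1 * (a0 * w2 - a2 * w0) + x2 * (a0 * w1 - a1 * w0)) := by
    linear_combination -x0 * c0 - x1 * c1 - x2 * c2
  have h4 : B ^ 2 * (x0 * N0 + x1 * N1 + x2 * N2) ^ 2 = B ^ 2 * n := by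
    calc B ^ 2 * (x0 * N0 + x1 * N1 + x2 * N2) ^ 2 = (B * (x0 * N0 + x1 * N1 + x2 * N2)) ^ 2 := by ring
      _ = n ^ 2 * (x0 * (a1 * w2 - a2 * w1) - x1 * (a0 * w2 - a2 * w0) +
          x2 * (a0 * w1 - a1 * w0)) ^ 2 := by rw [h5]; ring
      _ = _ := by rw [e, f2]
  exact mul_left_cancel₀ hB0.ne' h4

theorem aux3_834 (X Y n : ℝ) (hn0 : 0 < n) (g1 : X ^ 2 = n) (g2 : (X + Y) ^ 2 = n) (g3 : Y ^ 2 = n) :
    False := by
  have g4 : 2 * (X * Y) = -n := by linarith [show (X + Y) ^ 2 = X ^ 2 + 2 * (X * Y) + Y ^ 2 by ring]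
  have g5 : (2 * (X * Y)) ^ 2 = 4 * (n * n) := by
    calc (2 * (X * Y)) ^ 2 = 4 * (X ^ 2 * Y ^ 2) := by ring
      _ = _ := by rw [g1, g3]
  rw [g4] at g5
  have : 0 < n * n := mul_pos hn0 hn0
  have h6 : (-n) ^ 2 = n * n := by ring
  linarith

theorem aux4_834 (u0 u1 u2 v0 v1 v2 w0 w1 w2 p0 p1 p2 q0 q1 q2 r0 r1 r2 : ℝ)
    (h1 : 0 < (u1 * v2 - u2 * v1) ^ 2 + (u2 * v0 - u0 * v2) ^ 2 + (u0 * v1 - u1 * v0) ^ 2)
    (h2 : 0 < (u1 * w2 - u2 * w1) ^ 2 + (u2 * w0 - u0 * w2) ^ 2 + (u0 * w1 - u1 * w0) ^ 2)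
    (h3 : 0 < (v1 * w2 - v2 * w1) ^ 2 + (v2 * w0 - v0 * w2) ^ 2 + (v0 * w1 - v1 * w0) ^ 2)
    (e1 : ((p0 - q0) * (u1 * v2 - u2 * v1) - (p1 - q1) * (u0 * v2 - u2 * v0) +
      (p2 - q2) * (u0 * v1 - u1 * v0)) ^ 2 =
      (u1 * v2 - u2 * v1) ^ 2 + (u2 * v0 - u0 * v2) ^ 2 + (u0 * v1 - u1 * v0) ^ 2)
    (e2 : ((p0 - r0) * (u1 * w2 - u2 * w1) - (p1 - r1) * (u0 * w2 - u2 * w0) +
      (p2 - r2) * (u0 * w1 - u1 * w0)) ^ 2 =
      (u1 * w2 - u2 * w1) ^ 2 + (u2 * w0 - u0 * w2) ^ 2 + (u0 * w1 - u1 * w0) ^ 2)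
    (e3 : ((q0 - r0) * (v1 * w2 - v2 * w1) - (q1 - r1) * (v0 * w2 - v2 * w0) +
      (q2 - r2) * (v0 * w1 - v1 * w0)) ^ 2 =
      (v1 * w2 - v2 * w1) ^ 2 + (v2 * w0 - v0 * w2) ^ 2 + (v0 * w1 - v1 * w0) ^ 2)
    (hdt : u0 * (v1 * w2 - v2 * w1) - u1 * (v0 * w2 - v2 * w0) + u2 * (v0 * w1 - v1 * w0) = 0) :
    False := by
  obtain ⟨N0, hN0⟩ : ∃ N0, N0 = u1 * v2 - u2 * v1 := ⟨_, rfl⟩
  obtain ⟨N1, hN1⟩ : ∃ N1, N1 = u2 * v0 - u0 * v2 := ⟨_, rfl⟩
  obtain ⟨N2, hN2⟩ : ∃ N2, N2 = u0 * v1 - u1 * v0 := ⟨_, rfl⟩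
  obtain ⟨n, hn⟩ : ∃ n, n = N0 ^ 2 + N1 ^ 2 + N2 ^ 2 := ⟨_, rfl⟩
  obtain ⟨A, B, hw0, hw1, hw2⟩ := aux1_834 u0 u1 u2 v0 v1 v2 w0 w1 w2 N0 N1 N2 n hN0 hN1 hN2 hn hdt
  have hn0 : 0 < n := by rw [hn, hN0, hN1, hN2]; exact h1
  have g2 := aux2_834 u0 u1 u2 w0 w1 w2 N0 N1 N2 n B hn hn0
    (by rw [hN0]; linear_combination u1 * hw2 - u2 * hw1)
    (by rw [hN1]; linear_combination u2 * hw0 - u0 * hw2)
    (by rw [hN2]; linear_combination u0 * hw1 - u1 * hw0) h2 _ _ _ e2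
  have g3 := aux2_834 v0 v1 v2 w0 w1 w2 N0 N1 N2 n (-A) hn hn0
    (by rw [hN0]; linear_combination v1 * hw2 - v2 * hw1)
    (by rw [hN1]; linear_combination v2 * hw0 - v0 * hw2)
    (by rw [hN2]; linear_combination v0 * hw1 - v1 * hw0) h3 _ _ _ e3
  refine aux3_834 ((p0 - q0) * N0 + (p1 - q1) * N1 + (p2 - q2) * N2)
    ((q0 - r0) * N0 + (q1 - r1) * N1 + (q2 - r2) * N2) n hn0 ?_ ?_ g3
  · calc ((p0 - q0) * N0 + (p1 - q1) * N1 + (p2 - q2) * N2) ^ 2 =
        ((p0 - q0) * (u1 * v2 - u2 * v1) - (p1 - q1) * (u0 * v2 - u2 * v0) +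
      (p2 - q2) * (u0 * v1 - u1 * v0)) ^ 2 := by rw [hN0, hN1, hN2]; ring
      _ = n := by rw [e1, hn, hN0, hN1, hN2]
  · rw [← g2]
    ring

/-- three pairwise non-parallel lines with coplanar directions cannot be at pairwise distance 1 -/
theorem no_coplanar (u v w p q r : V3) (h1 : 0 < w2 u v) (h2 : 0 < w2 u w) (h3 : 0 < w2 v w)
    (e1 : (dt (fun i => p i - q i) u v) ^ 2 = w2 u v)
    (e2 : (dt (fun i => p i - r i) u w) ^ 2 = w2 u w)
    (e3 : (dt (fun i => q i - r i) v w) ^ 2 = w2 v w) : dt u v w ≠ 0 := by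
  intro hdt
  exact aux4_834 _ _ _ _ _ _ _ _ _ (p 0) (p 1) (p 2) (q 0) (q 1) (q 2) (r 0) (r 1) (r 2)
    h1 h2 h3 e1 e2 e3 hdt

theorem np_w2_nonneg (x y : V3) : 0 ≤ w2 x y := by unfold w2; positivity

theorem np_w2_zero {x y : V3} (h : w2 x y = 0) :
    x 1 * y 2 - x 2 * y 1 = 0 ∧ x 2 * y 0 - x 0 * y 2 = 0 ∧ x 0 * y 1 - x 1 * y 0 = 0 := by
  unfold w2 at h
  have h1 := sq_nonneg (x 1 * y 2 - x 2 * y 1)
  have h2 := sq_nonneg (x 2 * y 0 - x 0 * y 2)
  have h3 := sq_nonneg (x 0 * y 1 - x 1 * y 0)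
  refine ⟨?_, ?_, ?_⟩
  · have : (x 1 * y 2 - x 2 * y 1) ^ 2 = 0 := by linarith
    exact (pow_eq_zero_iff two_ne_zero).1 this
  · have : (x 2 * y 0 - x 0 * y 2) ^ 2 = 0 := by linarith
    exact (pow_eq_zero_iff two_ne_zero).1 this
  · have : (x 0 * y 1 - x 1 * y 0) ^ 2 = 0 := by linarith
    exact (pow_eq_zero_iff two_ne_zero).1 this

theorem np_dp_pos {x : V3} (hx : x ≠ 0) : 0 < dp x x := by
  unfold dp
  by_contra h
  push Not at h
  apply hx
  have h1 := mul_self_nonneg (x 0)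
  have h2 := mul_self_nonneg (x 1)
  have h3 := mul_self_nonneg (x 2)
  funext t
  fin_cases t
  · have e : x 0 * x 0 = 0 := by linarith
    exact mul_self_eq_zero.1 e
  · have e : x 1 * x 1 = 0 := by linarith
    exact mul_self_eq_zero.1 e
  · have e : x 2 * x 2 = 0 := by linarith
    exact mul_self_eq_zero.1 e

theorem np_scal {x y : V3} (hx : x ≠ 0) (h : w2 x y = 0) : ∃ c : ℝ, ∀ t, y t = c * x t := by
  obtain ⟨h1, h2, h3⟩ := np_w2_zero h
  have hp := np_dp_pos hx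
  have key : ∀ t, dp x x * y t = dp x y * x t := by
    intro t
    unfold dp
    fin_cases t
    · show (x 0 * x 0 + x 1 * x 1 + x 2 * x 2) * y 0 = (x 0 * y 0 + x 1 * y 1 + x 2 * y 2) * x 0
      linear_combination (-(x 1)) * h3 + (x 2) * h2
    · show (x 0 * x 0 + x 1 * x 1 + x 2 * x 2) * y 1 = (x 0 * y 0 + x 1 * y 1 + x 2 * y 2) * x 1
      linear_combination (x 0) * h3 + (-(x 2)) * h1
    · show (x 0 * x 0 + x 1 * x 1 + x 2 * x 2) * y 2 = (x 0 * y 0 + x 1 * y 1 + x 2 * y 2) * x 2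
      linear_combination (-(x 0)) * h2 + (x 1) * h1
  refine ⟨dp x y / dp x x, fun t => ?_⟩
  rw [div_mul_eq_mul_div, eq_div_iff hp.ne', mul_comm]
  exact key t

theorem np_w2_comm (x y : V3) : w2 x y = w2 y x := by unfold w2; ring

theorem np_scal_w2 {x y z : V3} {c : ℝ} (h : ∀ t, y t = c * x t) : w2 z y = c ^ 2 * w2 z x := by
  unfold w2; rw [h 0, h 1, h 2]; ring

theorem np_scal_dp {x y : V3} {c : ℝ} (h : ∀ t, y t = c * x t) : dp y y = c ^ 2 * dp x x := by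
  unfold dp; rw [h 0, h 1, h 2]; ring

theorem np_ne_zero {x y : V3} {c : ℝ} (hy : y ≠ 0) (h : ∀ t, y t = c * x t) : c ≠ 0 := by
  rintro rfl
  apply hy
  funext t
  rw [h t]
  simp

theorem np_trans {x y z : V3} (hy : y ≠ 0) (h : w2 x y = 0) (h' : w2 y z = 0) : w2 x z = 0 := by
  obtain ⟨c, hc⟩ := np_scal hy h'
  rw [np_scal_w2 hc, h, mul_zero]

/-- vectors orthogonal to a nonzero vector are coplanar -/
theorem np_orth {N x y z : V3} (hN : N ≠ 0) (hx : dp N x = 0) (hy : dp N y = 0)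
    (hz : dp N z = 0) : dt x y z = 0 := by
  by_contra h
  apply hN
  unfold dp at hx hy hz
  have key : ∀ t, N t * dt x y z = 0 := by
    intro t
    unfold dt
    fin_cases t
    · show N 0 * (x 0 * (y 1 * z 2 - y 2 * z 1) - x 1 * (y 0 * z 2 - y 2 * z 0) +
        x 2 * (y 0 * z 1 - y 1 * z 0)) = 0
      linear_combination (y 1 * z 2 - y 2 * z 1) * hx + (-(x 1 * z 2 - x 2 * z 1)) * hy +
        (x 1 * y 2 - x 2 * y 1) * hz
    · show N 1 * (x 0 * (y 1 * z 2 - y 2 * z 1) - x 1 * (y 0 * z 2 - y 2 * z 0) +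
        x 2 * (y 0 * z 1 - y 1 * z 0)) = 0
      linear_combination (-(y 0 * z 2 - y 2 * z 0)) * hx + (x 0 * z 2 - x 2 * z 0) * hy +
        (-(x 0 * y 2 - x 2 * y 0)) * hz
    · show N 2 * (x 0 * (y 1 * z 2 - y 2 * z 1) - x 1 * (y 0 * z 2 - y 2 * z 0) +
        x 2 * (y 0 * z 1 - y 1 * z 0)) = 0
      linear_combination (y 0 * z 1 - y 1 * z 0) * hx + (-(x 0 * z 1 - x 1 * z 0)) * hy +
        (x 0 * y 1 - x 1 * y 0) * hz
  funext t
  exact (mul_eq_zero.1 (key t)).resolve_right h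

theorem np_cr_ne {x y : V3} (h : 0 < w2 x y) : cr x y ≠ 0 := by
  intro h0
  have e0 : x 1 * y 2 - x 2 * y 1 = 0 := congrFun h0 0
  have e1 : x 2 * y 0 - x 0 * y 2 = 0 := congrFun h0 1
  have e2 : x 0 * y 1 - x 1 * y 0 = 0 := congrFun h0 2
  unfold w2 at h
  rw [e0, e1, e2] at h
  norm_num at h

theorem np_dp_cr (x y z : V3) : dp (cr x y) z = dt x y z := by
  show (x 1 * y 2 - x 2 * y 1) * z 0 + (x 2 * y 0 - x 0 * y 2) * z 1 +
    (x 0 * y 1 - x 1 * y 0) * z 2 = dt x y z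
  unfold dt; ring

/-- four pairwise parallel lines cannot be at mutual distance one -/
theorem np_four (a b c u : V3) (hu : 0 < dp u u) (ha : w2 a u = dp u u) (hb : w2 b u = dp u u)
    (hc : w2 c u = dp u u) (hab : w2 (fun t => a t - b t) u = dp u u)
    (hac : w2 (fun t => a t - c t) u = dp u u) (hbc : w2 (fun t => b t - c t) u = dp u u) :
    False := by
  have hu0 : u ≠ 0 := by
    rintro rfl
    simp [dp] at hu
  have o : ∀ x : V3, dp u (cr x u) = 0 := by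
    intro x
    show u 0 * (x 1 * u 2 - x 2 * u 1) + u 1 * (x 2 * u 0 - x 0 * u 2) +
      u 2 * (x 0 * u 1 - x 1 * u 0) = 0
    ring
  have hdt := np_orth hu0 (o a) (o b) (o c)
  have e : ∀ x : V3, dp (cr x u) (cr x u) = w2 x u := by
    intro x
    show (x 1 * u 2 - x 2 * u 1) * (x 1 * u 2 - x 2 * u 1) +
      (x 2 * u 0 - x 0 * u 2) * (x 2 * u 0 - x 0 * u 2) +
      (x 0 * u 1 - x 1 * u 0) * (x 0 * u 1 - x 1 * u 0) = w2 x u
    unfold w2; ring
  have e2 : ∀ x y : V3, dp (cr x u) (cr y u) =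
      (w2 x u + w2 y u - w2 (fun t => x t - y t) u) / 2 := by
    intro x y
    show (x 1 * u 2 - x 2 * u 1) * (y 1 * u 2 - y 2 * u 1) +
      (x 2 * u 0 - x 0 * u 2) * (y 2 * u 0 - y 0 * u 2) +
      (x 0 * u 1 - x 1 * u 0) * (y 0 * u 1 - y 1 * u 0) = _
    unfold w2; ring
  have gram : ∀ A B C : V3, (dt A B C) ^ 2 = dp A A * dp B B * dp C C +
      2 * dp A B * dp A C * dp B C - dp A A * (dp B C) ^ 2 - dp B B * (dp A C) ^ 2 -
      dp C C * (dp A B) ^ 2 := by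
    intro A B C
    unfold dt dp; ring
  have g := gram (cr a u) (cr b u) (cr c u)
  rw [hdt, e, e, e, e2, e2, e2, ha, hb, hc, hab, hac, hbc] at g
  have : (dp u u) ^ 3 = 0 := by linarith [g]
  exact (pow_pos hu 3).ne' this

/-- eight lines at pairwise distance one are pairwise non-parallel; `hcop` is the lemma that three
pairwise non-parallel directions are never coplanar (proved elsewhere) -/
theorem no_parallel (u p : Fin 8 → V3) (hu : ∀ i, u i ≠ 0)
    (hcop : ∀ i j k, i ≠ j → j ≠ k → i ≠ k → 0 < w2 (u i) (u j) → 0 < w2 (u j) (u k) →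
      0 < w2 (u i) (u k) → dt (u i) (u j) (u k) ≠ 0)
    (h1 : ∀ i j, i ≠ j → 0 < w2 (u i) (u j) →
      (dt (fun t => p i t - p j t) (u i) (u j)) ^ 2 = w2 (u i) (u j))
    (h2 : ∀ i j, i ≠ j → w2 (u i) (u j) = 0 →
      w2 (fun t => p i t - p j t) (u i) = dp (u i) (u i)) :
    ∀ i j, i ≠ j → 0 < w2 (u i) (u j) := by
  classical
  intro i j hij
  by_contra hcon
  have h0 : w2 (u i) (u j) = 0 := le_antisymm (not_lt.1 hcon) (np_w2_nonneg _ _)
  obtain ⟨c, hc⟩ := np_scal (hu i) h0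
  have hc0 : c ≠ 0 := np_ne_zero (hu j) hc
  obtain ⟨d, hd⟩ : ∃ d : V3, d = fun t => p i t - p j t := ⟨_, rfl⟩
  have hwd : w2 d (u i) = dp (u i) (u i) := by rw [hd]; exact h2 i j hij h0
  have hup := np_dp_pos (hu i)
  have hplane : ∀ k, dt d (u i) (u k) = 0 := by
    intro k
    by_cases hk : w2 (u i) (u k) = 0
    · obtain ⟨e1, e2, e3⟩ := np_w2_zero hk
      unfold dt
      linear_combination (d 0) * e1 + (d 1) * e2 + (d 2) * e3
    · have hkpos : 0 < w2 (u i) (u k) := lt_of_le_of_ne (np_w2_nonneg _ _) (Ne.symm hk)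
      have hik : i ≠ k := by
        rintro rfl
        apply hk
        unfold w2; ring
      have hjk : j ≠ k := by
        rintro rfl
        exact hk h0
      have X2 := h1 i k hik hkpos
      have hwj : w2 (u j) (u k) = c ^ 2 * w2 (u i) (u k) := by
        rw [np_w2_comm (u j), np_w2_comm (u i)]
        exact np_scal_w2 hc
      have hjkpos : 0 < w2 (u j) (u k) := by
        rw [hwj]; positivity
      have Y2 := h1 j k hjk hjkpos
      rw [hwj] at Y2
      obtain ⟨X, hX⟩ : ∃ X, X = dt (fun t => p i t - p k t) (u i) (u k) := ⟨_, rfl⟩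
      obtain ⟨Y, hY⟩ : ∃ Y, Y = dt (fun t => p j t - p k t) (u i) (u k) := ⟨_, rfl⟩
      have hYc : dt (fun t => p j t - p k t) (u j) (u k) = c * Y := by
        rw [hY]
        unfold dt
        rw [hc 0, hc 1, hc 2]
        ring
      rw [hYc] at Y2
      rw [← hX] at X2
      have Y3 : Y ^ 2 = w2 (u i) (u k) := by
        have : c ^ 2 * Y ^ 2 = c ^ 2 * w2 (u i) (u k) := by linarith [Y2]
        exact mul_left_cancel₀ (pow_ne_zero 2 hc0) this
      have hXY : X - Y = dt d (u i) (u k) := by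
        rw [hX, hY, hd]
        unfold dt
        ring
      have hle : dp (u i) (u i) * (dt d (u i) (u k)) ^ 2 ≤ w2 d (u i) * w2 (u i) (u k) := by
        have : w2 d (u i) * w2 (u i) (u k) - dp (u i) (u i) * (dt d (u i) (u k)) ^ 2 =
            (dp (cr d (u i)) (cr (u i) (u k))) ^ 2 := by
          have e : dp (cr d (u i)) (cr (u i) (u k)) =
            (d 1 * (u i) 2 - d 2 * (u i) 1) * ((u i) 1 * (u k) 2 - (u i) 2 * (u k) 1) +
            (d 2 * (u i) 0 - d 0 * (u i) 2) * ((u i) 2 * (u k) 0 - (u i) 0 * (u k) 2) +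
            (d 0 * (u i) 1 - d 1 * (u i) 0) * ((u i) 0 * (u k) 1 - (u i) 1 * (u k) 0) := rfl
          rw [e]
          unfold w2 dp dt
          ring
        nlinarith [sq_nonneg (dp (cr d (u i)) (cr (u i) (u k)))]
      rw [hwd] at hle
      have hle2 : (dt d (u i) (u k)) ^ 2 ≤ w2 (u i) (u k) := le_of_mul_le_mul_left hle hup
      rw [← hXY] at hle2 ⊢
      obtain ⟨S, hS⟩ : ∃ S, S = w2 (u i) (u k) := ⟨_, rfl⟩
      rw [← hS] at hle2 X2 Y3 hkpos
      have h5 : (X - Y) * (X + Y) = 0 := by nlinarith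
      rcases mul_eq_zero.1 h5 with h6 | h6
      · exact h6
      · exfalso
        have : Y = -X := by linarith
        rw [this] at hle2
        nlinarith
  have hN : cr d (u i) ≠ 0 := np_cr_ne (by rw [hwd]; exact hup)
  have hcopl : ∀ k l m, dt (u k) (u l) (u m) = 0 := by
    intro k l m
    apply np_orth hN
    · rw [np_dp_cr]; exact hplane k
    · rw [np_dp_cr]; exact hplane l
    · rw [np_dp_cr]; exact hplane m
  -- four pairwise parallel ones
  have hpos : ∀ k l, w2 (u k) (u l) ≠ 0 → 0 < w2 (u k) (u l) := fun k l h =>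
    lt_of_le_of_ne (np_w2_nonneg _ _) (Ne.symm h)
  obtain ⟨T, hT4, hTp⟩ : ∃ T : Finset (Fin 8), 4 ≤ T.card ∧ ∀ k ∈ T, ∀ l ∈ T,
      w2 (u k) (u l) = 0 := by
    by_cases hcard : 4 ≤ (Finset.univ.filter fun k : Fin 8 => w2 (u i) (u k) = 0).card
    · refine ⟨_, hcard, ?_⟩
      intro k hk l hl
      rw [Finset.mem_filter] at hk hl
      exact np_trans (hu i) (by rw [np_w2_comm]; exact hk.2) hl.2
    · refine ⟨Finset.univ.filter fun k : Fin 8 => ¬ w2 (u i) (u k) = 0, ?_, ?_⟩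
      · have := Finset.card_filter_add_card_filter_not (s := (Finset.univ : Finset (Fin 8)))
          (fun k : Fin 8 => w2 (u i) (u k) = 0)
        rw [Finset.card_univ, Fintype.card_fin] at this
        omega
      · intro k hk l hl
        rw [Finset.mem_filter] at hk hl
        by_contra hkl
        have hik : i ≠ k := by
          rintro rfl
          apply hk.2
          unfold w2; ring
        have hil : i ≠ l := by
          rintro rfl
          apply hl.2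
          unfold w2; ring
        have hkl' : k ≠ l := by
          rintro rfl
          apply hkl
          unfold w2; ring
        exact hcop i k l hik hkl' hil (hpos _ _ hk.2) (hpos _ _ hkl) (hpos _ _ hl.2)
          (hcopl i k l)
  obtain ⟨T', hT', hcT⟩ := Finset.exists_subset_card_eq hT4
  obtain ⟨k0, k1, k2, k3, n01, n02, n03, n12, n13, n23, hT''⟩ := Finset.card_eq_four.1 hcT
  have m0 : k0 ∈ T := hT' (by rw [hT'']; simp)
  have m1 : k1 ∈ T := hT' (by rw [hT'']; simp)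
  have m2 : k2 ∈ T := hT' (by rw [hT'']; simp)
  have m3 : k3 ∈ T := hT' (by rw [hT'']; simp)
  have hfin : ∀ k l, k ∈ T → l ∈ T → k ≠ l →
      w2 (fun t => p k t - p l t) (u k0) = dp (u k0) (u k0) := by
    intro k l hk hl hne
    obtain ⟨e, he⟩ := np_scal (hu k0) (hTp k0 m0 k hk)
    have he0 : e ≠ 0 := np_ne_zero (hu k) he
    have h3 := h2 k l hne (hTp k hk l hl)
    rw [np_scal_w2 he, np_scal_dp he] at h3
    exact mul_left_cancel₀ (pow_ne_zero 2 he0) h3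
  refine np_four (fun t => p k1 t - p k0 t) (fun t => p k2 t - p k0 t) (fun t => p k3 t - p k0 t)
    (u k0) (np_dp_pos (hu k0)) (hfin _ _ m1 m0 n01.symm) (hfin _ _ m2 m0 n02.symm)
    (hfin _ _ m3 m0 n03.symm) ?_ ?_ ?_
  · have := hfin _ _ m1 m2 n12
    simpa using this
  · have := hfin _ _ m1 m3 n13
    simpa using this
  · have := hfin _ _ m2 m3 n23
    simpa using this

end Pool.Agent.Helper241.Ln
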