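import Mathlib
import Pool.Agent.Helper241.LnC9
import Pool.Agent.Helper241.LnGeo
import Pool.Agent.Helper241.LnSeven

namespace Pool.Agent.Helper241.Ln

theorem w2_nonneg (x y : V3) : 0 ≤ w2 x y := by unfold w2; positivity

theorem sq_of_div_one {a b : ℝ} (hb : 0 < b) (h : |a| / Real.sqrt b = 1) : a ^ 2 = b := by
  have hs : 0 < Real.sqrt b := Real.sqrt_pos.mpr hb
  rw [div_eq_one_iff_eq (ne_of_gt hs)] at h
  rw [← sq_abs, h, Real.sq_sqrt (le_of_lt hb)]

theorem conf_of_lines (l : Fin 8 → AffineSubspace ℝ E3) (h : IsEquidistant l) :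
    ∃ c : Conf 8, True := by
  obtain ⟨hl, -, hd⟩ := h
  choose p u hu hpar using fun i => line_param (l i) (hl i)
  have D1 : ∀ i j, i ≠ j → 0 < w2 (u i) (u j) →
      (dt (fun t => p i t - p j t) (u i) (u j)) ^ 2 = w2 (u i) (u j) := by
    intro i j hij hw
    have h1 := hd i j hij
    rw [setDist_np (l i) (l j) (p i) (u i) (p j) (u j) (hpar i) (hpar j) hw] at h1
    exact sq_of_div_one hw h1
  have D2 : ∀ i j, i ≠ j → w2 (u i) (u j) = 0 →
      w2 (fun t => p i t - p j t) (u i) = dp (u i) (u i) := by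
    intro i j hij hw
    have h1 := hd i j hij
    rw [setDist_par (l i) (l j) (p i) (u i) (p j) (u j) (hpar i) (hpar j) (hu i) (hu j) hw] at h1
    have hp := np_dp_pos (hu i)
    have hs : 0 < Real.sqrt (dp (u i) (u i)) := Real.sqrt_pos.mpr hp
    rw [div_eq_one_iff_eq (ne_of_gt hs)] at h1
    have h2 : Real.sqrt (w2 (fun t => p i t - p j t) (u i)) ^ 2 =
        Real.sqrt (dp (u i) (u i)) ^ 2 := by rw [h1]
    rwa [Real.sq_sqrt (w2_nonneg _ _), Real.sq_sqrt (le_of_lt hp)] at h2
  have hcop : ∀ i j k, i ≠ j → j ≠ k → i ≠ k → 0 < w2 (u i) (u j) → 0 < w2 (u j) (u k) →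
      0 < w2 (u i) (u k) → dt (u i) (u j) (u k) ≠ 0 := by
    intro i j k hij hjk hik h1 h2 h3
    exact no_coplanar (u i) (u j) (u k) (p i) (p j) (p k) h1 h3 h2 (D1 i j hij h1)
      (D1 i k hik h3) (D1 j k hjk h2)
  have hnp := no_parallel u p hu hcop D1 D2
  refine ⟨{ u := u, m := fun i => cr (p i) (u i), um := ?_, hw := ?_, wpos := hnp, dne := ?_ },
    trivial⟩
  · intro i
    simp [dp, cr]
    ring
  · intro i j hij
    rw [← D1 i j hij (hnp i j hij)]
    have : hh (u i) (cr (p i) (u i)) (u j) (cr (p j) (u j)) =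
        dt (fun t => p i t - p j t) (u i) (u j) := by
      simp [hh, dp, cr, dt]
      ring
    rw [this]
  · intro i j k hij hjk hik
    exact hcop i j k hij hjk hik (hnp i j hij) (hnp j k hjk) (hnp i k hik)

theorem no_eight (l : Fin 8 → AffineSubspace ℝ E3) : ¬ IsEquidistant l := by
  intro h
  exact no_conf (conf_of_lines l h)

theorem upper {k : ℕ} (l : Fin k → AffineSubspace ℝ E3) (h : IsEquidistant l) : k ≤ 7 := by
  by_contra hk
  have h8 : 8 ≤ k := by omega
  refine no_eight (fun i => l (Fin.castLE h8 i)) ⟨fun i => h.1 _, ?_, ?_⟩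
  · intro i j hij
    exact Fin.castLE_injective h8 (h.2.1 hij)
  · intro i j hij
    exact h.2.2 _ _ (fun q => hij (Fin.castLE_injective h8 q))

/-- the line through `(x,y,0)` with direction `(a,b,1)` -/
noncomputable def mkLine (a b x y : ℝ) : AffineSubspace ℝ E3 :=
  AffineSubspace.mk' (!₂[x, y, 0] : E3) (Submodule.span ℝ {(!₂[a, b, 1] : E3)})

theorem mkLine_par (a b x y : ℝ) : Par (mkLine a b x y) ![x, y, 0] ![a, b, 1] := by
  intro z
  unfold mkLine
  rw [AffineSubspace.mem_mk', Submodule.mem_span_singleton]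
  constructor
  · rintro ⟨t, ht⟩
    refine ⟨t, fun i => ?_⟩
    have h1 := congrArg (fun w : E3 => w i) ht
    simp only [vsub_eq_sub, PiLp.smul_apply, PiLp.sub_apply, smul_eq_mul] at h1
    fin_cases i <;> simp at h1 ⊢ <;> linarith
  · rintro ⟨t, ht⟩
    refine ⟨t, ?_⟩
    ext i
    have h1 := ht i
    simp only [vsub_eq_sub, PiLp.smul_apply, PiLp.sub_apply, smul_eq_mul]
    fin_cases i <;> simp at h1 ⊢ <;> linarith

theorem mkLine_isLine (a b x y : ℝ) : IsLine (mkLine a b x y) := by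
  constructor
  · exact ⟨_, AffineSubspace.self_mem_mk' _ _⟩
  · unfold mkLine
    rw [AffineSubspace.direction_mk']
    apply finrank_span_singleton
    intro h
    have := congrArg (fun w : E3 => w 2) h
    simp at this

theorem setDist_self (l : AffineSubspace ℝ E3) (h : (l : Set E3).Nonempty) :
    setDist (l : Set E3) (l : Set E3) ≤ 0 := by
  obtain ⟨x, hx⟩ := h
  refine csInf_le ⟨0, ?_⟩ ⟨x, hx, x, hx, (dist_self x).symm⟩
  rintro r ⟨y, -, z, -, rfl⟩
  exact dist_nonneg

theorem seven : ∃ l : Fin 7 → AffineSubspace ℝ E3, IsEquidistant l := by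
  obtain ⟨L, hP, hN⟩ := seven_exists
  have hd : ∀ i j, i ≠ j → setDist (mkLine (L i 0) (L i 1) (L i 2) (L i 3) : Set E3)
      (mkLine (L j 0) (L j 1) (L j 2) (L j 3) : Set E3) = 1 := by
    intro i j hij
    have h1 := hP i j hij
    have h2 := hN i j hij
    have hw : 0 < w2 ![L i 0, L i 1, 1] ![L j 0, L j 1, 1] := by
      simp only [w2, Matrix.cons_val_zero, Matrix.cons_val_one, Matrix.cons_val]
      rcases h2 with h2 | h2
      · have : 0 < (1 * L j 0 - L i 0 * 1) ^ 2 := by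
          apply sq_pos_of_ne_zero
          intro h0; apply h2; linarith
        nlinarith [sq_nonneg (L i 1 * 1 - 1 * L j 1), sq_nonneg (L i 0 * L j 1 - L i 1 * L j 0)]
      · have : 0 < (L i 1 * 1 - 1 * L j 1) ^ 2 := by
          apply sq_pos_of_ne_zero
          intro h0; apply h2; linarith
        nlinarith [sq_nonneg (1 * L j 0 - L i 0 * 1), sq_nonneg (L i 0 * L j 1 - L i 1 * L j 0)]
    rw [setDist_np _ _ _ _ _ _ (mkLine_par _ _ _ _) (mkLine_par _ _ _ _) hw]
    have e : (dt (fun t => (![L i 2, L i 3, 0] : V3) t - (![L j 2, L j 3, 0] : V3) t)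
        ![L i 0, L i 1, 1] ![L j 0, L j 1, 1]) ^ 2 = w2 ![L i 0, L i 1, 1] ![L j 0, L j 1, 1] := by
      simp only [w2, dt, Matrix.cons_val_zero, Matrix.cons_val_one, Matrix.cons_val]
      unfold Phi at h1
      linear_combination h1
    rw [← Real.sqrt_sq_eq_abs, e]
    exact div_self (ne_of_gt (Real.sqrt_pos.mpr hw))
  refine ⟨fun i => mkLine (L i 0) (L i 1) (L i 2) (L i 3), fun i => mkLine_isLine _ _ _ _, ?_, hd⟩
  intro i j hij
  by_contra hne
  have h1 := hd i j hne
  simp only at hij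
  rw [← hij] at h1
  have h2 := setDist_self _ (mkLine_isLine (L i 0) (L i 1) (L i 2) (L i 3)).1
  linarith

end Pool.Agent.Helper241.Ln
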