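import Mathlib
import Pool.Agent.Helper241.LnConf

namespace Pool.Agent.Helper241.Ln

theorem tri (u v1 v2 v3 : V3) (c0 c1 c2 c3 : ℝ)
    (hd : ∀ i, c0 * u i + c1 * v1 i + c2 * v2 i + c3 * v3 i = 0)
    (h1 : 0 ≤ c1) (h2 : 0 < c2) (h3 : 0 < c3) (hdt : dt u v2 v3 ≠ 0) :
    c1 * Real.sqrt (w2 u v1) < c2 * Real.sqrt (w2 u v2) + c3 * Real.sqrt (w2 u v3) := by
  have k0 : c1 * (u 1 * v1 2 - u 2 * v1 1) =
      -(c2 * (u 1 * v2 2 - u 2 * v2 1) + c3 * (u 1 * v3 2 - u 2 * v3 1)) := by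
    linear_combination u 1 * hd 2 - u 2 * hd 1
  have k1 : c1 * (u 2 * v1 0 - u 0 * v1 2) =
      -(c2 * (u 2 * v2 0 - u 0 * v2 2) + c3 * (u 2 * v3 0 - u 0 * v3 2)) := by
    linear_combination u 2 * hd 0 - u 0 * hd 2
  have k2 : c1 * (u 0 * v1 1 - u 1 * v1 0) =
      -(c2 * (u 0 * v2 1 - u 1 * v2 0) + c3 * (u 0 * v3 1 - u 1 * v3 0)) := by
    linear_combination u 0 * hd 1 - u 1 * hd 0
  obtain ⟨ab, hab⟩ : ∃ ab : ℝ, ab = (u 1 * v2 2 - u 2 * v2 1) * (u 1 * v3 2 - u 2 * v3 1) +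
      (u 2 * v2 0 - u 0 * v2 2) * (u 2 * v3 0 - u 0 * v3 2) +
      (u 0 * v2 1 - u 1 * v2 0) * (u 0 * v3 1 - u 1 * v3 0) := ⟨_, rfl⟩
  have hX : c1 ^ 2 * w2 u v1 = c2 ^ 2 * w2 u v2 + c3 ^ 2 * w2 u v3 + 2 * c2 * c3 * ab := by
    have e : c1 ^ 2 * w2 u v1 = (c1 * (u 1 * v1 2 - u 2 * v1 1)) ^ 2 +
        (c1 * (u 2 * v1 0 - u 0 * v1 2)) ^ 2 + (c1 * (u 0 * v1 1 - u 1 * v1 0)) ^ 2 := by
      unfold w2; ring
    rw [e, k0, k1, k2, hab]
    unfold w2; ring
  have hid : w2 u v2 * w2 u v3 - ab ^ 2 =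
      (u 0 ^ 2 + u 1 ^ 2 + u 2 ^ 2) * dt u v2 v3 ^ 2 := by
    rw [hab]; unfold w2 dt; ring
  have hu : 0 < u 0 ^ 2 + u 1 ^ 2 + u 2 ^ 2 := by
    by_contra hcon
    have h0 : u 0 ^ 2 + u 1 ^ 2 + u 2 ^ 2 = 0 :=
      le_antisymm (not_lt.1 hcon) (by positivity)
    have a0 : u 0 = 0 := by
      have q0 := sq_nonneg (u 0)
      have q1 := sq_nonneg (u 1)
      have q2 := sq_nonneg (u 2)
      have : u 0 ^ 2 = 0 := by linarith
      exact pow_eq_zero_iff (two_ne_zero) |>.1 this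
    have a1 : u 1 = 0 := by
      have q0 := sq_nonneg (u 0)
      have q1 := sq_nonneg (u 1)
      have q2 := sq_nonneg (u 2)
      have : u 1 ^ 2 = 0 := by linarith
      exact pow_eq_zero_iff (two_ne_zero) |>.1 this
    have a2 : u 2 = 0 := by
      have q0 := sq_nonneg (u 0)
      have q1 := sq_nonneg (u 1)
      have q2 := sq_nonneg (u 2)
      have : u 2 ^ 2 = 0 := by linarith
      exact pow_eq_zero_iff (two_ne_zero) |>.1 this
    apply hdt
    unfold dt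
    rw [a0, a1, a2]; ring
  have hpos : 0 < w2 u v2 * w2 u v3 - ab ^ 2 := by
    rw [hid]
    exact mul_pos hu (by positivity)
  have n2 : 0 ≤ w2 u v2 := by unfold w2; positivity
  have n3 : 0 ≤ w2 u v3 := by unfold w2; positivity
  have n1 : 0 ≤ w2 u v1 := by unfold w2; positivity
  obtain ⟨s1, hs1⟩ : ∃ s, s = Real.sqrt (w2 u v1) := ⟨_, rfl⟩
  obtain ⟨s2, hs2⟩ : ∃ s, s = Real.sqrt (w2 u v2) := ⟨_, rfl⟩
  obtain ⟨s3, hs3⟩ : ∃ s, s = Real.sqrt (w2 u v3) := ⟨_, rfl⟩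
  have q1 : s1 ^ 2 = w2 u v1 := by rw [hs1]; exact Real.sq_sqrt n1
  have q2 : s2 ^ 2 = w2 u v2 := by rw [hs2]; exact Real.sq_sqrt n2
  have q3 : s3 ^ 2 = w2 u v3 := by rw [hs3]; exact Real.sq_sqrt n3
  have p2 : 0 ≤ s2 := by rw [hs2]; exact Real.sqrt_nonneg _
  have p3 : 0 ≤ s3 := by rw [hs3]; exact Real.sqrt_nonneg _
  rw [← hs1, ← hs2, ← hs3]
  rw [← q2, ← q3] at hpos
  rw [← q1, ← q2, ← q3] at hX
  have hab' : ab < s2 * s3 := by
    have h4 : |ab| < |s2 * s3| := by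
      rw [← sq_lt_sq]
      have e : (s2 * s3) ^ 2 = s2 ^ 2 * s3 ^ 2 := by ring
      rw [e]
      linarith
    rw [abs_of_nonneg (mul_nonneg p2 p3)] at h4
    exact lt_of_le_of_lt (le_abs_self _) h4
  have hlt : (c1 * s1) ^ 2 < (c2 * s2 + c3 * s3) ^ 2 := by
    have h5 : 0 < 2 * c2 * c3 * (s2 * s3 - ab) :=
      mul_pos (by positivity) (sub_pos.2 hab')
    have e : (c2 * s2 + c3 * s3) ^ 2 - (c1 * s1) ^ 2 = 2 * c2 * c3 * (s2 * s3 - ab) := by
      linear_combination -hX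
    linarith
  exact lt_of_pow_lt_pow_left₀ 2 (by positivity) hlt



theorem four_rel (u0 u1 u2 u3 m0 m1 m2 m3 : V3)
    (h0 : dp u0 m0 = 0) (h1 : dp u1 m1 = 0) (h2 : dp u2 m2 = 0) (h3 : dp u3 m3 = 0)
    (c0 c1 c2 c3 : ℝ) (hd : ∀ i, c0 * u0 i + c1 * u1 i + c2 * u2 i + c3 * u3 i = 0) :
    c0 * c1 * hh u0 m0 u1 m1 + c0 * c2 * hh u0 m0 u2 m2 + c0 * c3 * hh u0 m0 u3 m3 +
      c1 * c2 * hh u1 m1 u2 m2 + c1 * c3 * hh u1 m1 u3 m3 + c2 * c3 * hh u2 m2 u3 m3 = 0 := by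
  have e0 := hd 0
  have e1 := hd 1
  have e2 := hd 2
  simp only [hh, dp] at *
  linear_combination (c0 * m0 0 + c1 * m1 0 + c2 * m2 0 + c3 * m3 0) * e0 +
    (c0 * m0 1 + c1 * m1 1 + c2 * m2 1 + c3 * m3 1) * e1 +
    (c0 * m0 2 + c1 * m1 2 + c2 * m2 2 + c3 * m3 2) * e2 - c0 ^ 2 * h0 - c1 ^ 2 * h1 -
    c2 ^ 2 * h2 - c3 ^ 2 * h3

theorem cramer (u0 u1 u2 u3 : V3) (i : Fin 3) :
    dt u1 u2 u3 * u0 i - dt u0 u2 u3 * u1 i + dt u0 u1 u3 * u2 i - dt u0 u1 u2 * u3 i = 0 := by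
  fin_cases i <;> simp [dt] <;> ring

/-- the length `|u_i × u_j|` -/
noncomputable def Conf.W {n : ℕ} (c : Conf n) (i j : Fin n) : ℝ := Real.sqrt (w2 (c.u i) (c.u j))

theorem Conf.f2_W {n : ℕ} (c : Conf n) {i j : Fin n} (h : i ≠ j) :
    Real.sqrt (w2 (c.u i) (c.u j)) = |c.H i j| := by
  rw [← c.hw i j h, Real.sqrt_sq_eq_abs]; rfl

theorem Conf.f2_tri {n : ℕ} (c : Conf n) {i j k l : Fin n} (hij : i ≠ j) (hik : i ≠ k)
    (hil : i ≠ l) (hkl : k ≠ l) {a0 a1 a2 a3 : ℝ}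
    (h0 : 0 < a0) (h1 : 0 < a1) (h2 : 0 < a2) (h3 : 0 < a3)
    (hd : ∀ t, a0 * c.u i t + a1 * c.u j t + a2 * c.u k t + a3 * c.u l t = 0) :
    a0 * (a1 * |c.H i j|) < a0 * (a2 * |c.H i k|) + a0 * (a3 * |c.H i l|) := by
  have h := tri (c.u i) (c.u j) (c.u k) (c.u l) a0 a1 a2 a3 hd h1.le h2 h3
    (c.dne i k l hik hkl hil)
  rw [c.f2_W hij, c.f2_W hik, c.f2_W hil] at h
  rw [← mul_add]
  exact mul_lt_mul_of_pos_left h h0

/-- the common inequalities -/
theorem Conf.f2_all {n : ℕ} (c : Conf n) (i j k l : Fin n) (hij : i ≠ j) (hik : i ≠ k)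
    (hil : i ≠ l) (hjk : j ≠ k) (hjl : j ≠ l) (hkl : k ≠ l)
    (c0 : 0 < c.D j k l) (c1 : c.D i k l < 0) (c2 : 0 < c.D i j l) (c3 : c.D i j k < 0) :
    ∃ a0 a1 a2 a3 : ℝ, 0 < a0 ∧ 0 < a1 ∧ 0 < a2 ∧ 0 < a3 ∧
      a0 * a1 * c.H i j + a0 * a2 * c.H i k + a0 * a3 * c.H i l + a1 * a2 * c.H j k +
        a1 * a3 * c.H j l + a2 * a3 * c.H k l = 0 ∧
      a0 * a1 * |c.H i j| < a0 * a2 * |c.H i k| + a0 * a3 * |c.H i l| ∧
      a0 * a1 * |c.H i j| < a1 * a2 * |c.H j k| + a1 * a3 * |c.H j l| ∧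
      a2 * a3 * |c.H k l| < a0 * a2 * |c.H i k| + a1 * a2 * |c.H j k| ∧
      a2 * a3 * |c.H k l| < a0 * a3 * |c.H i l| + a1 * a3 * |c.H j l| := by
  have hd : ∀ t, c.D j k l * c.u i t + (-c.D i k l) * c.u j t + c.D i j l * c.u k t +
      (-c.D i j k) * c.u l t = 0 := by
    intro t
    have := cramer (c.u i) (c.u j) (c.u k) (c.u l) t
    unfold Conf.D
    linarith
  have h1 : 0 < -c.D i k l := by linarith
  have h3 : 0 < -c.D i j k := by linarith
  refine ⟨c.D j k l, -c.D i k l, c.D i j l, -c.D i j k, c0, h1, c2, h3, ?_, ?_, ?_, ?_, ?_⟩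
  · exact four_rel (c.u i) (c.u j) (c.u k) (c.u l) (c.m i) (c.m j) (c.m k) (c.m l)
      (c.um i) (c.um j) (c.um k) (c.um l) _ _ _ _ hd
  · have h := c.f2_tri hij hik hil hkl c0 h1 c2 h3 hd
    simp only [← mul_assoc] at h
    exact h
  · have h := c.f2_tri (i := j) (j := i) (k := k) (l := l) hij.symm hjk hjl hkl h1 c0 c2 h3
      (fun t => by have := hd t; linarith)
    rw [c.H_symm j i] at h
    simp only [← mul_assoc] at h
    rw [mul_comm (-c.D i k l) (c.D j k l)] at h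
    exact h
  · have h := c.f2_tri (i := k) (j := l) (k := i) (l := j) hkl hik.symm hjk.symm hij c2 h3 c0 h1
      (fun t => by have := hd t; linarith)
    rw [c.H_symm k i, c.H_symm k j] at h
    simp only [← mul_assoc] at h
    rw [mul_comm (c.D i j l) (c.D j k l), mul_comm (c.D i j l) (-c.D i k l)] at h
    exact h
  · have h := c.f2_tri (i := l) (j := k) (k := i) (l := j) hkl.symm hil.symm hjl.symm hij h3 c2 c0 h1
      (fun t => by have := hd t; linarith)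
    rw [c.H_symm l k, c.H_symm l i, c.H_symm l j] at h
    simp only [← mul_assoc] at h
    rw [mul_comm (-c.D i j k) (c.D i j l), mul_comm (-c.D i j k) (c.D j k l),
      mul_comm (-c.D i j k) (-c.D i k l)] at h
    exact h

/-- no sign pattern `all plus` on four lines with all coefficients of the dependency positive -/
theorem f2a {n : ℕ} (c : Conf n) (i j k l : Fin n) (hij : i ≠ j) (hik : i ≠ k) (hil : i ≠ l)
    (hjk : j ≠ k) (hjl : j ≠ l) (hkl : k ≠ l)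
    (c0 : 0 < c.D j k l) (c1 : c.D i k l < 0) (c2 : 0 < c.D i j l) (c3 : c.D i j k < 0)
    (s01 : 0 < c.H i j) (s02 : 0 < c.H i k) (s03 : 0 < c.H i l) (s12 : 0 < c.H j k)
    (s13 : 0 < c.H j l) (s23 : 0 < c.H k l) : False := by
  obtain ⟨a0, a1, a2, a3, h0, h1, h2, h3, hr, t1, t2, t3, t4⟩ :=
    c.f2_all i j k l hij hik hil hjk hjl hkl c0 c1 c2 c3
  have := mul_pos (mul_pos h0 h1) s01
  have := mul_pos (mul_pos h0 h2) s02
  have := mul_pos (mul_pos h0 h3) s03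
  have := mul_pos (mul_pos h1 h2) s12
  have := mul_pos (mul_pos h1 h3) s13
  have := mul_pos (mul_pos h2 h3) s23
  linarith

/-- one minus edge -/
theorem f2b {n : ℕ} (c : Conf n) (i j k l : Fin n) (hij : i ≠ j) (hik : i ≠ k) (hil : i ≠ l)
    (hjk : j ≠ k) (hjl : j ≠ l) (hkl : k ≠ l)
    (c0 : 0 < c.D j k l) (c1 : c.D i k l < 0) (c2 : 0 < c.D i j l) (c3 : c.D i j k < 0)
    (s01 : c.H i j < 0) (s02 : 0 < c.H i k) (s03 : 0 < c.H i l) (s12 : 0 < c.H j k)
    (s13 : 0 < c.H j l) (s23 : 0 < c.H k l) : False := by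
  obtain ⟨a0, a1, a2, a3, h0, h1, h2, h3, hr, t1, t2, t3, t4⟩ :=
    c.f2_all i j k l hij hik hil hjk hjl hkl c0 c1 c2 c3
  rw [abs_of_neg s01, abs_of_pos s02, abs_of_pos s03] at t1
  have := mul_pos (mul_pos h1 h2) s12
  have := mul_pos (mul_pos h1 h3) s13
  have := mul_pos (mul_pos h2 h3) s23
  linarith

/-- two opposite minus edges -/
theorem f2c {n : ℕ} (c : Conf n) (i j k l : Fin n) (hij : i ≠ j) (hik : i ≠ k) (hil : i ≠ l)
    (hjk : j ≠ k) (hjl : j ≠ l) (hkl : k ≠ l)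
    (c0 : 0 < c.D j k l) (c1 : c.D i k l < 0) (c2 : 0 < c.D i j l) (c3 : c.D i j k < 0)
    (s01 : c.H i j < 0) (s02 : 0 < c.H i k) (s03 : 0 < c.H i l) (s12 : 0 < c.H j k)
    (s13 : 0 < c.H j l) (s23 : c.H k l < 0) : False := by
  obtain ⟨a0, a1, a2, a3, h0, h1, h2, h3, hr, t1, t2, t3, t4⟩ :=
    c.f2_all i j k l hij hik hil hjk hjl hkl c0 c1 c2 c3
  rw [abs_of_neg s01, abs_of_pos s02, abs_of_pos s03] at t1
  rw [abs_of_neg s01, abs_of_pos s12, abs_of_pos s13] at t2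
  rw [abs_of_neg s23, abs_of_pos s02, abs_of_pos s12] at t3
  rw [abs_of_neg s23, abs_of_pos s03, abs_of_pos s13] at t4
  linarith

/-- the forbidden sign pattern on five lines p,q,r,a,b -/
theorem f3 {n : ℕ} (c : Conf n) (p q r a b : Fin n) (hpq : p ≠ q) (hpr : p ≠ r) (hpa : p ≠ a)
    (hpb : p ≠ b) (hqr : q ≠ r) (hqa : q ≠ a) (hqb : q ≠ b) (hra : r ≠ a) (hrb : r ≠ b) (hab : a ≠ b)
    (x012 : 0 < c.D p q r) (x123 : 0 < c.D q r a) (x023 : c.D p r a < 0) (x013 : 0 < c.D p q a)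
    (x124 : 0 < c.D q r b) (x024 : c.D p r b < 0) (x014 : 0 < c.D p q b)
    (x234 : 0 < c.D r a b) (x134 : c.D q a b < 0)
    (s01 : 0 < c.H p q) (s02 : 0 < c.H p r) (s12 : c.H q r < 0)
    (s03 : c.H p a < 0) (s13 : c.H q a < 0) (s04 : 0 < c.H p b) (s14 : 0 < c.H q b) : False := by
  have hW : ∀ i j, i ≠ j → c.W j i = |c.H i j| := by
    intro i j hij
    have h1 : (c.H j i) ^ 2 = w2 (c.u j) (c.u i) := c.hw j i hij.symm
    rw [Conf.W, ← h1, Real.sqrt_sq_eq_abs, c.H_symm j i]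
  have cra : ∀ i, c.D q r a * c.u p i - c.D p r a * c.u q i + c.D p q a * c.u r i -
      c.D p q r * c.u a i = 0 := fun i => cramer (c.u p) (c.u q) (c.u r) (c.u a) i
  have crb : ∀ i, c.D q r b * c.u p i - c.D p r b * c.u q i + c.D p q b * c.u r i -
      c.D p q r * c.u b i = 0 := fun i => cramer (c.u p) (c.u q) (c.u r) (c.u b) i
  have Ea := four_rel (c.u p) (c.u q) (c.u r) (c.u a) (c.m p) (c.m q) (c.m r) (c.m a)
    (c.um p) (c.um q) (c.um r) (c.um a) (c.D q r a) (-c.D p r a) (c.D p q a) (-c.D p q r)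
    (fun i => by linear_combination cra i)
  have Eb := four_rel (c.u p) (c.u q) (c.u r) (c.u b) (c.m p) (c.m q) (c.m r) (c.m b)
    (c.um p) (c.um q) (c.um r) (c.um b) (c.D q r b) (-c.D p r b) (c.D p q b) (-c.D p q r)
    (fun i => by linear_combination crb i)
  have Ta := tri (c.u a) (c.u r) (c.u p) (c.u q) (-c.D p q r) (c.D p q a) (c.D q r a)
    (-c.D p r a) (fun i => by linear_combination cra i) x013.le x123 (by linarith)
    (c.dne a p q hpa.symm hpq hqa.symm)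
  have Tb := tri (c.u b) (c.u r) (c.u p) (c.u q) (-c.D p q r) (c.D p q b) (c.D q r b)
    (-c.D p r b) (fun i => by linear_combination crb i) x014.le x124 (by linarith)
    (c.dne b p q hpb.symm hpq hqb.symm)
  have wra := hW r a hra
  have wpa := hW p a hpa
  have wqa := hW q a hqa
  have wrb := hW r b hrb
  have wpb := hW p b hpb
  have wqb := hW q b hqb
  rw [abs_of_neg s03] at wpa
  rw [abs_of_neg s13] at wqa
  rw [abs_of_pos s04] at wpb
  rw [abs_of_pos s14] at wqb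
  simp only [Conf.W] at wra wpa wqa wrb wpb wqb
  rw [wra, wpa, wqa] at Ta
  rw [wrb, wpb, wqb] at Tb
  change c.D q r a * (-c.D p r a) * c.H p q + c.D q r a * c.D p q a * c.H p r +
    c.D q r a * (-c.D p q r) * c.H p a + (-c.D p r a) * c.D p q a * c.H q r +
    (-c.D p r a) * (-c.D p q r) * c.H q a + c.D p q a * (-c.D p q r) * c.H r a = 0 at Ea
  change c.D q r b * (-c.D p r b) * c.H p q + c.D q r b * c.D p q b * c.H p r +
    c.D q r b * (-c.D p q r) * c.H p b + (-c.D p r b) * c.D p q b * c.H q r +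
    (-c.D p r b) * (-c.D p q r) * c.H q b + c.D p q b * (-c.D p q r) * c.H r b = 0 at Eb
  have pl1 : -c.D p r b * c.D q r a + c.D p r a * c.D q r b = c.D p q r * c.D r a b := by
    simp only [Conf.D, dt]; ring
  have pl2 : c.D p q b * c.D q r a - c.D p q a * c.D q r b = -(c.D p q r * c.D q a b) := by
    simp only [Conf.D, dt]; ring
  have hA : 0 < -(c.D q r a * c.H p a + (-c.D p r a) * c.H q a + c.D p q a * c.H r a) := by
    have h1 : c.D p q a * c.H r a ≤ c.D p q a * |c.H r a| :=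
      mul_le_mul_of_nonneg_left (le_abs_self _) x013.le
    linarith
  have hB : 0 < c.D q r b * c.H p b + (-c.D p r b) * c.H q b + c.D p q b * c.H r b := by
    have h1 : c.D p q b * (-c.H r b) ≤ c.D p q b * |c.H r b| :=
      mul_le_mul_of_nonneg_left (neg_le_abs _) x014.le
    linarith
  have g1 : 0 < -c.D p r b * c.D q r a + c.D p r a * c.D q r b := by
    rw [pl1]; exact mul_pos x012 x234
  have g2 : 0 < c.D p q b * c.D q r a - c.D p q a * c.D q r b := by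
    rw [pl2]
    have := mul_pos x012 (neg_pos.2 x134)
    linarith
  generalize c.D p q r = D at *
  generalize c.D q r a = ap at *
  generalize hq : -c.D p r a = aq at *
  have hq' : c.D p r a = -aq := by linarith
  rw [hq'] at g1
  generalize c.D p q a = ar at *
  generalize c.D q r b = bp at *
  generalize hq2 : -c.D p r b = bq at *
  generalize c.D p q b = br at *
  have aq0 : 0 < aq := by linarith
  have bq0 : 0 < bq := by linarith
  have t1 : 0 < aq * bq * (br * ap - ar * bp) * c.H p q := by positivity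
  have t2 : 0 < ar * br * (bq * ap + -aq * bp) * c.H p r := by positivity
  have t3 : 0 < bq * br * D * -(ap * c.H p a + aq * c.H q a + ar * c.H r a) := by positivity
  have t4 : 0 < aq * ar * D * (bp * c.H p b + bq * c.H q b + br * c.H r b) := by positivity
  have : aq * bq * (br * ap - ar * bp) * c.H p q + ar * br * (bq * ap + -aq * bp) * c.H p r +
      bq * br * D * -(ap * c.H p a + aq * c.H q a + ar * c.H r a) +
      aq * ar * D * (bp * c.H p b + bq * c.H q b + br * c.H r b) = 0 := by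
    linear_combination bq * br * Ea - aq * ar * Eb
  linarith

/-- the goal of the sorting step -/
def sort_goal (c c' : Conf 8) : Prop :=
    (∀ i j : Fin 8, i < 5 → j < 5 → i ≠ j → c'.s i j = c.s i j) ∧
    (∀ i j k : Fin 8, i < 5 → j < 5 → k < 5 → i ≠ j → j ≠ k → i ≠ k → c'.x i j k = c.x i j k) ∧
    c'.x 0 1 5 = true ∧ c'.x 0 1 6 = true ∧ c'.x 0 1 7 = true ∧
    c'.x 0 5 6 = true ∧ c'.x 0 5 7 = true ∧ c'.x 0 6 7 = true

theorem sort_step (c : Conf 8) (h : ∀ z : Fin 8, 5 ≤ z → c.x 0 1 z = true)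
    (σ : Equiv.Perm (Fin 8)) (hσ : ∀ i : Fin 8, i < 5 → σ i = i)
    (hσ' : ∀ i : Fin 8, 5 ≤ i → 5 ≤ σ i)
    (h56 : c.x 0 (σ 5) (σ 6) = true) (h57 : c.x 0 (σ 5) (σ 7) = true)
    (h67 : c.x 0 (σ 6) (σ 7) = true) :
    sort_goal c (c.rel σ (fun _ => false) false) := by
  have h0 : σ 0 = 0 := hσ 0 (by decide)
  have h1 : σ 1 = 1 := hσ 1 (by decide)
  refine ⟨?_, ?_, ?_, ?_, ?_, ?_, ?_, ?_⟩
  · intro i j hi hj hij
    rw [c.rel_s σ _ _ hij, hσ i hi, hσ j hj]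
    simp
  · intro i j k hi hj hk hij hjk hik
    rw [c.rel_x σ _ _ hij hjk hik, hσ i hi, hσ j hj, hσ k hk]
    simp
  · rw [c.rel_x σ _ _ (by decide) (by decide) (by decide), h0, h1, h _ (hσ' 5 (by decide))]
    rfl
  · rw [c.rel_x σ _ _ (by decide) (by decide) (by decide), h0, h1, h _ (hσ' 6 (by decide))]
    rfl
  · rw [c.rel_x σ _ _ (by decide) (by decide) (by decide), h0, h1, h _ (hσ' 7 (by decide))]
    rfl
  · rw [c.rel_x σ _ _ (by decide) (by decide) (by decide), h0, h56]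
    rfl
  · rw [c.rel_x σ _ _ (by decide) (by decide) (by decide), h0, h57]
    rfl
  · rw [c.rel_x σ _ _ (by decide) (by decide) (by decide), h0, h67]
    rfl

theorem sort_second (c : Conf 8) (h : ∀ z : Fin 8, 5 ≤ z → c.x 0 1 z = true) :
    ∃ c', sort_goal c c' := by
  have hg := c.gp 0 1 5 6 7
  have p5 : 0 < c.D 0 1 5 := by simpa [Conf.x] using h 5 (by decide)
  have p6 : 0 < c.D 0 1 6 := by simpa [Conf.x] using h 6 (by decide)
  have p7 : 0 < c.D 0 1 7 := by simpa [Conf.x] using h 7 (by decide)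
  have n56 : c.D 0 5 6 ≠ 0 := c.D_ne (by decide) (by decide) (by decide)
  have n57 : c.D 0 5 7 ≠ 0 := c.D_ne (by decide) (by decide) (by decide)
  have n67 : c.D 0 6 7 ≠ 0 := c.D_ne (by decide) (by decide) (by decide)
  have s56 : c.x 0 6 5 = !c.x 0 5 6 := c.x_swap23 (by decide) (by decide) (by decide)
  have s57 : c.x 0 7 5 = !c.x 0 5 7 := c.x_swap23 (by decide) (by decide) (by decide)
  have s67 : c.x 0 7 6 = !c.x 0 6 7 := c.x_swap23 (by decide) (by decide) (by decide)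
  rcases h1 : c.x 0 5 6 with _ | _ <;> rcases h2 : c.x 0 5 7 with _ | _ <;>
    rcases h3 : c.x 0 6 7 with _ | _ <;> rw [h1] at s56 <;> rw [h2] at s57 <;> rw [h3] at s67
  · -- f f f
    refine ⟨_, sort_step c h (Equiv.swap 5 7) (by decide) (by decide) ?_ ?_ ?_⟩
    · exact s67
    · exact s57
    · exact s56
  · -- f f t
    refine ⟨_, sort_step c h (Equiv.swap 5 7 * Equiv.swap 5 6) (by decide) (by decide) ?_ ?_ ?_⟩
    · exact h3
    · exact s56
    · exact s57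
  · -- f t f
    exfalso
    simp only [Conf.x, decide_eq_false_iff_not, not_lt, decide_eq_true_eq] at h1 h2 h3
    have h1' := lt_of_le_of_ne h1 n56
    have h3' := lt_of_le_of_ne h3 n67
    nlinarith [mul_pos p6 h2, mul_neg_of_pos_of_neg p5 h3', mul_neg_of_pos_of_neg p7 h1']
  · -- f t t
    refine ⟨_, sort_step c h (Equiv.swap 5 6) (by decide) (by decide) ?_ ?_ ?_⟩
    · exact s56
    · exact h3
    · exact h2
  · -- t f f
    refine ⟨_, sort_step c h (Equiv.swap 5 6 * Equiv.swap 5 7) (by decide) (by decide) ?_ ?_ ?_⟩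
    · exact s57
    · exact s67
    · exact h1
  · -- t f t
    exfalso
    simp only [Conf.x, decide_eq_false_iff_not, not_lt, decide_eq_true_eq] at h1 h2 h3
    have h2' := lt_of_le_of_ne h2 n57
    nlinarith [mul_pos p5 h3, mul_neg_of_pos_of_neg p6 h2', mul_pos p7 h1]
  · -- t t f
    refine ⟨_, sort_step c h (Equiv.swap 6 7) (by decide) (by decide) ?_ ?_ ?_⟩
    · exact h2
    · exact h1
    · exact s67
  · -- t t t
    refine ⟨_, sort_step c h 1 (by decide) (by decide) ?_ ?_ ?_⟩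
    · exact h1
    · exact h2
    · exact h3

/-- we can normalise the last three lines by reorienting and permuting them -/
theorem sort_norm (c : Conf 8) : ∃ c' : Conf 8,
    (∀ i j : Fin 8, i < 5 → j < 5 → i ≠ j → c'.s i j = c.s i j) ∧
    (∀ i j k : Fin 8, i < 5 → j < 5 → k < 5 → i ≠ j → j ≠ k → i ≠ k → c'.x i j k = c.x i j k) ∧
    c'.x 0 1 5 = true ∧ c'.x 0 1 6 = true ∧ c'.x 0 1 7 = true ∧
    c'.x 0 5 6 = true ∧ c'.x 0 5 7 = true ∧ c'.x 0 6 7 = true := by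
  set e : Fin 8 → Bool := fun z => if z < 5 then false else !(c.x 0 1 z) with he
  have he5 : ∀ z, z < 5 → e z = false := fun z hz => if_pos hz
  set c1 := c.rel 1 e false with hc1
  have h : ∀ z : Fin 8, 5 ≤ z → c1.x 0 1 z = true := by
    intro z hz
    have h0z : (0 : Fin 8) ≠ z := by rintro rfl; revert hz; decide
    have h1z : (1 : Fin 8) ≠ z := by rintro rfl; revert hz; decide
    rw [hc1, c.rel_x 1 e false (by decide) h1z h0z, he5 0 (by decide), he5 1 (by decide)]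
    have : e z = !(c.x 0 1 z) := if_neg (not_lt.2 hz)
    rw [this]
    simp
  obtain ⟨c', hs, hx, h5, h6, h7, h8, h9, h10⟩ := sort_second c1 h
  refine ⟨c', ?_, ?_, h5, h6, h7, h8, h9, h10⟩
  · intro i j hi hj hij
    rw [hs i j hi hj hij, hc1, c.rel_s 1 e false hij, he5 i hi, he5 j hj]
    simp
  · intro i j k hi hj hk hij hjk hik
    rw [hx i j k hi hj hk hij hjk hik, hc1, c.rel_x 1 e false hij hjk hik, he5 i hi, he5 j hj,
      he5 k hk]
    simp

/-- extend an injection of five labels to a permutation of eight -/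
theorem ext_perm (g : ℕ → Fin 8) (hg : ∀ i j, i < 5 → j < 5 → g i = g j → i = j) :
    ∃ σ : Equiv.Perm (Fin 8), ∀ i : Fin 8, i.val < 5 → σ i = g i.val := by
  classical
  let f : {i : Fin 8 // i.val < 5} → Fin 8 := fun i => g i.1.val
  have hf : Function.Injective f := by
    intro a b hab
    apply Subtype.ext
    apply Fin.ext
    exact hg _ _ a.2 b.2 hab
  let e : {i : Fin 8 // i.val < 5} ≃ {x : Fin 8 // x ∈ Set.range f} := Equiv.ofInjective f hf
  refine ⟨e.extendSubtype, fun i hi => ?_⟩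
  rw [Equiv.extendSubtype_apply_of_mem e i hi]
  rfl

end Pool.Agent.Helper241.Ln
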