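import Mathlib
import Pool.Agent.Helper241.LnConf
import Pool.Agent.Helper241.LnChk

namespace Pool.Agent.Helper241.Ln

/-- a literal of a sign pattern on the labels `0,...,4` -/
inductive Lit where
  | s (i j : ℕ) (b : Bool) : Lit
  | x (i j k : ℕ) (b : Bool) : Lit

/-- labels are distinct and below five -/
def Lit.wf : Lit → Bool
  | .s i j _ => Nat.blt i 5 && Nat.blt j 5 && !Nat.beq i j
  | .x i j k _ => Nat.blt i 5 && Nat.blt j 5 && Nat.blt k 5 && !Nat.beq i j && !Nat.beq j k &&
      !Nat.beq i k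

/-- the literal holds for the labels `g`, orientation changes `e` and mirror bit `μ` -/
def Lit.sat (c : Conf 8) (g : ℕ → Fin 8) (e : ℕ → Bool) (μ : Bool) : Lit → Prop
  | .s i j b => (((c.s (g i) (g j) ^^ μ) ^^ e j) ^^ e i) = b
  | .x i j k b => (((c.x (g i) (g j) (g k) ^^ e k) ^^ e j) ^^ e i) = b

/-- label `n` as an element of `Fin 8` -/
def f8 (n : ℕ) : Fin 8 := Fin.ofNat 8 n

theorem f8_val (i : Fin 8) : f8 i.val = i := by
  apply Fin.ext
  simp only [f8, Fin.ofNat]
  exact Nat.mod_eq_of_lt i.isLt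

theorem f8_of_lt {n : ℕ} (h : n < 8) : (f8 n).val = n := by
  simp only [f8, Fin.ofNat]
  exact Nat.mod_eq_of_lt h

/-- no configuration of eight lines shows the pattern on its first five lines -/
def Forb0 (P : List Lit) : Prop :=
  ∀ c : Conf 8, ¬ ∀ l ∈ P, l.sat c f8 (fun _ => false) false

theorem Forb0.inst (P : List Lit) (hP : Forb0 P) (hwf : ∀ l ∈ P, l.wf = true)
    (hext : ∀ g : ℕ → Fin 8, (∀ i j, i < 5 → j < 5 → g i = g j → i = j) →
      ∃ σ : Equiv.Perm (Fin 8), ∀ i : Fin 8, i.val < 5 → σ i = g i.val)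
    (c : Conf 8) (g : ℕ → Fin 8)
    (hg : ∀ i j, i < 5 → j < 5 → g i = g j → i = j) (e : ℕ → Bool) (μ : Bool) :
    ¬ ∀ l ∈ P, l.sat c g e μ := by
  intro h
  obtain ⟨σ, hσ⟩ := hext g hg
  have hσ' : ∀ n, n < 5 → σ (f8 n) = g n := by
    intro n hn
    have h8 : (f8 n).val = n := f8_of_lt (by omega)
    have := hσ (f8 n) (by rw [h8]; exact hn)
    rw [this, h8]
  have hne : ∀ i j, i < 5 → j < 5 → i ≠ j → f8 i ≠ f8 j := by
    intro i j hi hj hij h'
    apply hij
    have := congrArg Fin.val h'
    rwa [f8_of_lt (by omega), f8_of_lt (by omega)] at this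
  refine hP (c.rel σ (fun i => e i.val) μ) ?_
  intro l hl
  have h1 := h l hl
  have h2 := hwf l hl
  cases l with
  | s i j b =>
    simp only [Lit.wf, Bool.and_eq_true, Nat.blt_eq, Bool.not_eq_true'] at h2
    obtain ⟨⟨hi, hj⟩, hij⟩ := h2
    have hij' : i ≠ j := fun h => by rw [h] at hij; simp at hij
    simp only [Lit.sat] at h1 ⊢
    rw [Conf.rel_s _ _ _ _ (hne i j hi hj hij'), hσ' i hi, hσ' j hj, f8_of_lt (by omega : i < 8),
      f8_of_lt (by omega : j < 8)]
    simpa using h1
  | x i j k b =>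
    simp only [Lit.wf, Bool.and_eq_true, Nat.blt_eq, Bool.not_eq_true'] at h2
    obtain ⟨⟨⟨⟨⟨hi, hj⟩, hk⟩, hij⟩, hjk⟩, hik⟩ := h2
    have hij' : i ≠ j := fun h => by rw [h] at hij; simp at hij
    have hjk' : j ≠ k := fun h => by rw [h] at hjk; simp at hjk
    have hik' : i ≠ k := fun h => by rw [h] at hik; simp at hik
    simp only [Lit.sat] at h1 ⊢
    rw [Conf.rel_x _ _ _ _ (hne i j hi hj hij') (hne j k hj hk hjk') (hne i k hi hk hik'),
      hσ' i hi, hσ' j hj, hσ' k hk, f8_of_lt (by omega : i < 8),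
      f8_of_lt (by omega : j < 8), f8_of_lt (by omega : k < 8)]
    simpa using h1

/-! variables -/

/-- index of the variable of the pair `a<b` -/
def gs1 (a b : ℕ) : ℕ := b * (b - 1) / 2 + a

/-- index of the variable of the triple `a<b<c` -/
def gx1 (a b c : ℕ) : ℕ := 28 + c * (c - 1) * (c - 2) / 6 + b * (b - 1) / 2 + a

/-- index of the variable of a pair -/
def gs (a b : ℕ) : ℕ := bif Nat.blt a b then gs1 a b else gs1 b a

/-- index of the variable of a triple -/
def gx (a b c : ℕ) : ℕ :=
  bif Nat.blt a b then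
    (bif Nat.blt b c then gx1 a b c else bif Nat.blt a c then gx1 a c b else gx1 c a b)
  else
    (bif Nat.blt a c then gx1 b a c else bif Nat.blt b c then gx1 b c a else gx1 c b a)

/-- parity of the permutation sorting a triple -/
def gp (a b c : ℕ) : Bool :=
  bif Nat.blt a b then
    (bif Nat.blt b c then false else bif Nat.blt a c then true else false)
  else
    (bif Nat.blt a c then true else bif Nat.blt b c then false else true)

def tabA : List ℕ := [0, 0,1, 0,1,2, 0,1,2,3, 0,1,2,3,4, 0,1,2,3,4,5, 0,1,2,3,4,5,6]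
def tabB : List ℕ := [1, 2,2, 3,3,3, 4,4,4,4, 5,5,5,5,5, 6,6,6,6,6,6, 7,7,7,7,7,7,7]

/-- triples in the order of their indices -/
def tabT : List (ℕ × ℕ × ℕ) :=
  (List.range 8).flatMap fun c => (List.range c).flatMap fun b => (List.range b).map fun a => (a, b, c)

/-- the assignment of a configuration -/
noncomputable def vv (c : Conf 8) (n : ℕ) : Bool :=
  if n < 28 then c.s (f8 (tabA.getD n 0)) (f8 (tabB.getD n 0))
  else
    let t := tabT.getD (n - 28) (0, 0, 0)
    c.x (f8 t.1) (f8 t.2.1) (f8 t.2.2)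

theorem tab_s : ∀ a b : Fin 8, a < b →
    (gs1 a.val b.val < 28 ∧ tabA.getD (gs1 a.val b.val) 0 = a.val ∧
      tabB.getD (gs1 a.val b.val) 0 = b.val) := by decide +kernel

theorem tab_x : ∀ a b c : Fin 8, a < b → b < c →
    (28 ≤ gx1 a.val b.val c.val ∧
      tabT.getD (gx1 a.val b.val c.val - 28) (0, 0, 0) = (a.val, b.val, c.val)) := by
  decide +kernel

theorem vv_s1 (c : Conf 8) (a b : Fin 8) (h : a < b) : vv c (gs1 a.val b.val) = c.s a b := by
  obtain ⟨h1, h2, h3⟩ := tab_s a b h
  simp only [vv, h1, if_true, h2, h3, f8_val]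

theorem vv_x1 (c : Conf 8) (a b d : Fin 8) (h : a < b) (h' : b < d) :
    vv c (gx1 a.val b.val d.val) = c.x a b d := by
  obtain ⟨h1, h2⟩ := tab_x a b d h h'
  simp only [vv, not_lt.mpr h1, if_false, h2, f8_val]

theorem vv_s (c : Conf 8) (a b : Fin 8) (h : a ≠ b) : vv c (gs a.val b.val) = c.s a b := by
  unfold gs
  rcases lt_or_gt_of_ne h with h1 | h1
  · have : Nat.blt a.val b.val = true := by rw [Nat.blt_eq]; exact h1
    rw [this, cond_true]; exact vv_s1 c a b h1
  · have : Nat.blt a.val b.val = false := by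
      rw [Bool.eq_false_iff, ne_eq, Nat.blt_eq]; exact not_lt.mpr (le_of_lt h1)
    rw [this, cond_false, vv_s1 c b a h1, c.s_symm]

theorem vv_x (c : Conf 8) (a b d : Fin 8) (h : a ≠ b) (h' : b ≠ d) (h'' : a ≠ d) :
    vv c (gx a.val b.val d.val) = (c.x a b d ^^ gp a.val b.val d.val) := by
  have T : ∀ p q : Fin 8, p < q → Nat.blt p.val q.val = true := by
    intro p q hpq; rw [Nat.blt_eq]; exact hpq
  have F : ∀ p q : Fin 8, q < p → Nat.blt p.val q.val = false := by
    intro p q hpq; rw [Bool.eq_false_iff, ne_eq, Nat.blt_eq]; exact not_lt.mpr (le_of_lt hpq)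
  unfold gx gp
  rcases lt_or_gt_of_ne h with h1 | h1
  · rw [T a b h1]
    simp only [cond_true]
    rcases lt_or_gt_of_ne h' with h2 | h2
    · rw [T b d h2]
      simp only [cond_true, Bool.xor_false]
      exact vv_x1 c a b d h1 h2
    · rw [F b d h2]
      simp only [cond_false]
      rcases lt_or_gt_of_ne h'' with h3 | h3
      · rw [T a d h3]
        simp only [cond_true, Bool.xor_true]
        rw [vv_x1 c a d b h3 h2]
        exact c.x_swap23 h h' h''
      · rw [F a d h3]
        simp only [cond_false, Bool.xor_false]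
        rw [vv_x1 c d a b h3 h1, c.x_swap12 (i := a) (j := d) (k := b) h'' h'.symm h,
          c.x_swap23 (i := a) (j := b) (k := d) h h' h'']
        simp
  · rw [F a b h1]
    simp only [cond_false]
    rcases lt_or_gt_of_ne h'' with h3 | h3
    · rw [T a d h3]
      simp only [cond_true, Bool.xor_true]
      rw [vv_x1 c b a d h1 h3]
      exact c.x_swap12 h h' h''
    · rw [F a d h3]
      simp only [cond_false]
      rcases lt_or_gt_of_ne h' with h2 | h2
      · rw [T b d h2]
        simp only [cond_true, Bool.xor_false]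
        rw [vv_x1 c b d a h2 h3, c.x_swap23 (i := b) (j := a) (k := d) h.symm h'' h',
          c.x_swap12 (i := a) (j := b) (k := d) h h' h'']
        simp
      · rw [F b d h2]
        simp only [cond_false, Bool.xor_true]
        rw [vv_x1 c d b a h2 h1, c.x_swap12 (i := b) (j := d) (k := a) h' h''.symm h.symm,
          c.x_swap23 (i := b) (j := a) (k := d) h.symm h'' h',
          c.x_swap12 (i := a) (j := b) (k := d) h h' h'']
        simp

/-! clauses from patterns -/

/-- the label `i ↦ (code / 8^i) mod 8` -/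
def gg (code i : ℕ) : ℕ := Nat.land (Nat.shiftRight code (3 * i)) 7

/-- orientation bit -/
def ee (code i : ℕ) : Bool := Nat.beq (Nat.land (Nat.shiftRight code (15 + i)) 1) 1

theorem gg_lt (code i : ℕ) : gg code i < 8 := by
  unfold gg
  have : Nat.land (Nat.shiftRight code (3 * i)) 7 = (code >>> (3 * i)) &&& 7 := rfl
  rw [this]
  exact lt_of_le_of_lt Nat.and_le_right (by norm_num)

/-- the five labels of a code are distinct -/
def dist5 (code : ℕ) : Bool :=
  !(Nat.beq (gg code 0) (gg code 1) || Nat.beq (gg code 0) (gg code 2) ||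
    Nat.beq (gg code 0) (gg code 3) || Nat.beq (gg code 0) (gg code 4) ||
    Nat.beq (gg code 1) (gg code 2) || Nat.beq (gg code 1) (gg code 3) ||
    Nat.beq (gg code 1) (gg code 4) || Nat.beq (gg code 2) (gg code 3) ||
    Nat.beq (gg code 2) (gg code 4) || Nat.beq (gg code 3) (gg code 4))

theorem dist5_inj (code : ℕ) (h : dist5 code = true) :
    ∀ i j, i < 5 → j < 5 → f8 (gg code i) = f8 (gg code j) → i = j := by
  intro i j hi hj hij
  have h1 := congrArg Fin.val hij
  rw [f8_of_lt (gg_lt _ _), f8_of_lt (gg_lt _ _)] at h1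
  unfold dist5 at h
  simp only [Bool.not_eq_true', Bool.or_eq_false_iff] at h
  obtain ⟨⟨⟨⟨⟨⟨⟨⟨⟨a01, a02⟩, a03⟩, a04⟩, a12⟩, a13⟩, a14⟩, a23⟩, a24⟩, a34⟩ := h
  have N : ∀ x y : ℕ, Nat.beq x y = false → x ≠ y := by
    intro x y h e
    rw [e] at h
    simp at h
  have b01 := N _ _ a01
  have b02 := N _ _ a02
  have b03 := N _ _ a03
  have b04 := N _ _ a04
  have b12 := N _ _ a12
  have b13 := N _ _ a13
  have b14 := N _ _ a14
  have b23 := N _ _ a23
  have b24 := N _ _ a24
  have b34 := N _ _ a34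
  interval_cases i <;> interval_cases j <;> first | rfl | (exfalso; omega)

/-- variable and required value of a literal -/
def litv (code : ℕ) (μ : Bool) : Lit → ℕ × Bool
  | .s i j b => (gs (gg code i) (gg code j), ((b ^^ ee code i) ^^ ee code j) ^^ μ)
  | .x i j k b => (gx (gg code i) (gg code j) (gg code k),
      (((b ^^ ee code i) ^^ ee code j) ^^ ee code k) ^^ gp (gg code i) (gg code j) (gg code k))

/-- the clause forbidding the pattern: masks of positive and negative literals -/
def clauseOf (code : ℕ) (μ : Bool) : List Lit → ℕ × ℕ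
  | [] => (0, 0)
  | l :: ls =>
    let r := litv code μ l
    let q := clauseOf code μ ls
    bif r.2 then (q.1, Nat.lor q.2 (2 ^ r.1)) else (Nat.lor q.1 (2 ^ r.1), q.2)

theorem holds_lor_right (v : ℕ → Bool) (P N n : ℕ) :
    holds v P (Nat.lor N (2 ^ n)) ↔ holds v P N ∨ v n = false := by
  constructor
  · rintro ⟨i, h | h⟩
    · exact Or.inl ⟨i, Or.inl h⟩
    · rw [tb_lor, Nat.testBit_two_pow] at h
      rcases (Bool.or_eq_true _ _).mp h.1 with h1 | h1
      · exact Or.inl ⟨i, Or.inr ⟨h1, h.2⟩⟩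
      · have : n = i := by simpa using h1
        rw [this]; exact Or.inr h.2
  · rintro (⟨i, h | h⟩ | h)
    · exact ⟨i, Or.inl h⟩
    · refine ⟨i, Or.inr ⟨?_, h.2⟩⟩
      rw [tb_lor, h.1]; rfl
    · refine ⟨n, Or.inr ⟨?_, h⟩⟩
      rw [tb_lor, Nat.testBit_two_pow_self]; simp

theorem holds_lor_left (v : ℕ → Bool) (P N n : ℕ) :
    holds v (Nat.lor P (2 ^ n)) N ↔ holds v P N ∨ v n = true := by
  constructor
  · rintro ⟨i, h | h⟩
    · rw [tb_lor, Nat.testBit_two_pow] at h
      rcases (Bool.or_eq_true _ _).mp h.1 with h1 | h1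
      · exact Or.inl ⟨i, Or.inl ⟨h1, h.2⟩⟩
      · have : n = i := by simpa using h1
        rw [this]; exact Or.inr h.2
    · exact Or.inl ⟨i, Or.inr h⟩
  · rintro (⟨i, h | h⟩ | h)
    · refine ⟨i, Or.inl ⟨?_, h.2⟩⟩
      rw [tb_lor, h.1]; rfl
    · exact ⟨i, Or.inr h⟩
    · refine ⟨n, Or.inl ⟨?_, h⟩⟩
      rw [tb_lor, Nat.testBit_two_pow_self]; simp

theorem holds_clauseOf (v : ℕ → Bool) (code : ℕ) (μ : Bool) (P : List Lit) :
    holds v (clauseOf code μ P).1 (clauseOf code μ P).2 ↔
      ∃ l ∈ P, v (litv code μ l).1 ≠ (litv code μ l).2 := by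
  induction P with
  | nil =>
    simp only [clauseOf, List.not_mem_nil, false_and, exists_false, iff_false]
    rintro ⟨i, h | h⟩
    · simp at h
    · simp at h
  | cons l ls ih =>
    simp only [clauseOf, List.mem_cons, exists_eq_or_imp]
    cases hr : (litv code μ l).2
    · simp only [cond_false]
      rw [holds_lor_left, ih]
      constructor
      · rintro (h | h)
        · exact Or.inr h
        · left; rw [h]; decide
      · rintro (h | h)
        · right; simpa using h
        · exact Or.inl h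
    · simp only [cond_true]
      rw [holds_lor_right, ih]
      constructor
      · rintro (h | h)
        · exact Or.inr h
        · left; rw [h]; decide
      · rintro (h | h)
        · right; simpa using h
        · exact Or.inl h

theorem litv_sat (c : Conf 8) (code : ℕ) (μ : Bool) (h5 : dist5 code = true) (l : Lit)
    (hwf : l.wf = true) (h : vv c (litv code μ l).1 = (litv code μ l).2) :
    l.sat c (fun i => f8 (gg code i)) (ee code) μ := by
  have hinj := dist5_inj code h5
  have hne : ∀ i j, i < 5 → j < 5 → i ≠ j → f8 (gg code i) ≠ f8 (gg code j) :=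
    fun i j hi hj hij h' => hij (hinj i j hi hj h')
  have hv : ∀ i, (f8 (gg code i)).val = gg code i := fun i => f8_of_lt (gg_lt _ _)
  cases l with
  | s i j b =>
    simp only [Lit.wf, Bool.and_eq_true, Nat.blt_eq, Bool.not_eq_true'] at hwf
    obtain ⟨⟨hi, hj⟩, hij⟩ := hwf
    have hij' : i ≠ j := fun h => by rw [h] at hij; simp at hij
    have e1 := vv_s c _ _ (hne i j hi hj hij')
    rw [hv, hv] at e1
    simp only [litv] at h
    rw [e1] at h
    simp only [Lit.sat]
    rw [h]
    cases b <;> cases ee code i <;> cases ee code j <;> cases μ <;> rfl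
  | x i j k b =>
    simp only [Lit.wf, Bool.and_eq_true, Nat.blt_eq, Bool.not_eq_true'] at hwf
    obtain ⟨⟨⟨⟨⟨hi, hj⟩, hk⟩, hij⟩, hjk⟩, hik⟩ := hwf
    have hij' : i ≠ j := fun h => by rw [h] at hij; simp at hij
    have hjk' : j ≠ k := fun h => by rw [h] at hjk; simp at hjk
    have hik' : i ≠ k := fun h => by rw [h] at hik; simp at hik
    have e1 := vv_x c _ _ _ (hne i j hi hj hij') (hne j k hj hk hjk') (hne i k hi hk hik')
    rw [hv, hv, hv] at e1
    simp only [litv] at h
    rw [e1] at h
    simp only [Lit.sat]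
    generalize c.x (f8 (gg code i)) (f8 (gg code j)) (f8 (gg code k)) = X at h ⊢
    generalize gp (gg code i) (gg code j) (gg code k) = G at h
    revert h
    cases b <;> cases ee code i <;> cases ee code j <;> cases ee code k <;> cases X <;> cases G <;>
      simp

/-- the generator of clause instances: the code is `labels + 2^15 * e + 2^20 * μ + 2^21 * index` -/
def genK (K : List (List Lit)) (code : ℕ) : Option (ℕ × ℕ) :=
  bif dist5 code then
    match K[Nat.shiftRight code 21]? with
    | none => none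
    | some P => some (clauseOf code (Nat.beq (Nat.land (Nat.shiftRight code 20) 1) 1) P)
  else none

/-- the initial assignment: the pattern on the first five labels -/
def baseM (P : List Lit) : ℕ × ℕ := clauseOf 18056 false P

theorem code_id : ∀ i, i < 5 → gg 18056 i = i ∧ ee 18056 i = false := by
  intro i hi
  interval_cases i <;> decide

/-- mask of the sorting conditions -/
def sortM : ℕ :=
  2 ^ gx1 0 1 5 + 2 ^ gx1 0 1 6 + 2 ^ gx1 0 1 7 + 2 ^ gx1 0 5 6 + 2 ^ gx1 0 5 7 + 2 ^ gx1 0 6 7

end Pool.Agent.Helper241.Ln
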