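import Mathlib
import Pool.Agent.Helper241.LnPat

namespace Pool.Agent.Helper241.Ln

def ExtPerm : Prop := ∀ g : ℕ → Fin 8, (∀ i j, i < 5 → j < 5 → g i = g j → i = j) →
  ∃ σ : Equiv.Perm (Fin 8), ∀ i : Fin 8, i.val < 5 → σ i = g i.val

def SortNorm : Prop := ∀ c : Conf 8, ∃ c' : Conf 8,
    (∀ i j : Fin 8, i < 5 → j < 5 → i ≠ j → c'.s i j = c.s i j) ∧
    (∀ i j k : Fin 8, i < 5 → j < 5 → k < 5 → i ≠ j → j ≠ k → i ≠ k → c'.x i j k = c.x i j k) ∧
    c'.x 0 1 5 = true ∧ c'.x 0 1 6 = true ∧ c'.x 0 1 7 = true ∧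
    c'.x 0 5 6 = true ∧ c'.x 0 5 7 = true ∧ c'.x 0 6 7 = true

theorem genK_sound (hext : ExtPerm) (K : List (List Lit))
    (hK : ∀ P ∈ K, Forb0 P ∧ ∀ l ∈ P, l.wf = true) (c : Conf 8) (code : ℕ) (q : ℕ × ℕ)
    (h : genK K code = some q) : holds (vv c) q.1 q.2 := by
  unfold genK at h
  cases h5 : dist5 code
  · rw [h5] at h; simp at h
  · rw [h5, cond_true] at h
    cases hP : K[Nat.shiftRight code 21]? with
    | none => rw [hP] at h; simp at h
    | some P =>
      rw [hP] at h
      simp only [Option.some.injEq] at h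
      generalize Nat.beq (Nat.land (Nat.shiftRight code 20) 1) 1 = μ at h
      have hmem : P ∈ K := List.mem_of_getElem? hP
      obtain ⟨hF, hwf⟩ := hK P hmem
      by_contra hn
      rw [← h, holds_clauseOf] at hn
      push Not at hn
      exact hF.inst P hwf hext c (fun i => f8 (gg code i)) (dist5_inj code h5) (ee code) μ
        (fun l hl => litv_sat c code μ h5 l (hwf l hl) (hn l hl))

theorem sat_litv (c : Conf 8) (l : Lit) (hwf : l.wf = true)
    (h : l.sat c f8 (fun _ => false) false) :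
    vv c (litv 18056 false l).1 = (litv 18056 false l).2 := by
  have hne : ∀ i j, i < 5 → j < 5 → i ≠ j → f8 i ≠ f8 j := by
    intro i j hi hj hij h'
    apply hij
    have := congrArg Fin.val h'
    rwa [f8_of_lt (by omega), f8_of_lt (by omega)] at this
  cases l with
  | s i j b =>
    simp only [Lit.wf, Bool.and_eq_true, Nat.blt_eq, Bool.not_eq_true'] at hwf
    obtain ⟨⟨hi, hj⟩, hij⟩ := hwf
    have hij' : i ≠ j := fun h => by rw [h] at hij; simp at hij
    have e1 := vv_s c _ _ (hne i j hi hj hij')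
    rw [f8_of_lt (by omega : i < 8), f8_of_lt (by omega : j < 8)] at e1
    simp only [litv, (code_id i hi).1, (code_id j hj).1, (code_id i hi).2, (code_id j hj).2]
    rw [e1]
    simp only [Lit.sat] at h
    simpa using h
  | x i j k b =>
    simp only [Lit.wf, Bool.and_eq_true, Nat.blt_eq, Bool.not_eq_true'] at hwf
    obtain ⟨⟨⟨⟨⟨hi, hj⟩, hk⟩, hij⟩, hjk⟩, hik⟩ := hwf
    have hij' : i ≠ j := fun h => by rw [h] at hij; simp at hij
    have hjk' : j ≠ k := fun h => by rw [h] at hjk; simp at hjk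
    have hik' : i ≠ k := fun h => by rw [h] at hik; simp at hik
    have e1 := vv_x c _ _ _ (hne i j hi hj hij') (hne j k hj hk hjk') (hne i k hi hk hik')
    rw [f8_of_lt (by omega : i < 8), f8_of_lt (by omega : j < 8), f8_of_lt (by omega : k < 8)] at e1
    simp only [litv, (code_id i hi).1, (code_id j hj).1, (code_id k hk).1, (code_id i hi).2,
      (code_id j hj).2, (code_id k hk).2]
    rw [e1]
    simp only [Lit.sat] at h
    simp only [Bool.xor_false] at h ⊢
    rw [h]

/-- one step of the elimination -/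
theorem forb_step (hext : ExtPerm) (hsort : SortNorm) (K : List (List Lit))
    (hK : ∀ P ∈ K, Forb0 P ∧ ∀ l ∈ P, l.wf = true) (P : List Lit) (hwf : ∀ l ∈ P, l.wf = true)
    (st : List Stp)
    (h : run (genK K) (Nat.lor (baseM P).2 sortM) (baseM P).1 st 0 Tr.lf = true) : Forb0 P := by
  intro c hc
  obtain ⟨c', hs, hx, x1, x2, x3, x4, x5, x6⟩ := hsort c
  have hne : ∀ i j, i < 5 → j < 5 → i ≠ j → f8 i ≠ f8 j := by
    intro i j hi hj hij h'
    apply hij
    have := congrArg Fin.val h'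
    rwa [f8_of_lt (by omega), f8_of_lt (by omega)] at this
  have h5 : ∀ i, i < 5 → f8 i < 5 := by
    intro i hi
    rw [Fin.lt_def, f8_of_lt (by omega)]
    exact hi
  have hc' : ∀ l ∈ P, l.sat c' f8 (fun _ => false) false := by
    intro l hl
    have h1 := hc l hl
    have h2 := hwf l hl
    cases l with
    | s i j b =>
      simp only [Lit.wf, Bool.and_eq_true, Nat.blt_eq, Bool.not_eq_true'] at h2
      obtain ⟨⟨hi, hj⟩, hij⟩ := h2
      have hij' : i ≠ j := fun h => by rw [h] at hij; simp at hij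
      simp only [Lit.sat] at h1 ⊢
      rw [hs _ _ (h5 i hi) (h5 j hj) (hne i j hi hj hij')]
      exact h1
    | x i j k b =>
      simp only [Lit.wf, Bool.and_eq_true, Nat.blt_eq, Bool.not_eq_true'] at h2
      obtain ⟨⟨⟨⟨⟨hi, hj⟩, hk⟩, hij⟩, hjk⟩, hik⟩ := h2
      have hij' : i ≠ j := fun h => by rw [h] at hij; simp at hij
      have hjk' : j ≠ k := fun h => by rw [h] at hjk; simp at hjk
      have hik' : i ≠ k := fun h => by rw [h] at hik; simp at hik
      simp only [Lit.sat] at h1 ⊢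
      rw [hx _ _ _ (h5 i hi) (h5 j hj) (h5 k hk) (hne i j hi hj hij') (hne j k hj hk hjk')
        (hne i k hi hk hik')]
      exact h1
  refine run_sound (vv c') (genK K) (fun code q => genK_sound hext K hK c' code q) _ _ ?_ st 0 Tr.lf
    trivial h
  have hb : ¬ holds (vv c') (baseM P).1 (baseM P).2 := by
    unfold baseM
    rw [holds_clauseOf]
    push Not
    intro l hl
    exact sat_litv c' l (hwf l hl) (hc' l hl)
  have hsm : sortM = 2 ^ gx1 0 1 5 + 2 ^ gx1 0 1 6 + 2 ^ gx1 0 1 7 + 2 ^ gx1 0 5 6 +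
      2 ^ gx1 0 5 7 + 2 ^ gx1 0 6 7 := rfl
  have hso : ∀ i, sortM.testBit i = true → vv c' i = true := by
    intro i hi
    have hlor : sortM = Nat.lor (Nat.lor (Nat.lor (Nat.lor (Nat.lor (2 ^ gx1 0 1 5) (2 ^ gx1 0 1 6))
        (2 ^ gx1 0 1 7)) (2 ^ gx1 0 5 6)) (2 ^ gx1 0 5 7)) (2 ^ gx1 0 6 7) := by decide +kernel
    rw [hlor] at hi
    simp only [tb_lor, Nat.testBit_two_pow, Bool.or_eq_true, decide_eq_true_eq] at hi
    have e1 := vv_x1 c' 0 1 5 (by decide) (by decide)
    have e2 := vv_x1 c' 0 1 6 (by decide) (by decide)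
    have e3 := vv_x1 c' 0 1 7 (by decide) (by decide)
    have e4 := vv_x1 c' 0 5 6 (by decide) (by decide)
    have e5 := vv_x1 c' 0 5 7 (by decide) (by decide)
    have e6 := vv_x1 c' 0 6 7 (by decide) (by decide)
    rcases hi with ((((hi | hi) | hi) | hi) | hi) | hi
    · rw [← hi]; exact e1.trans x1
    · rw [← hi]; exact e2.trans x2
    · rw [← hi]; exact e3.trans x3
    · rw [← hi]; exact e4.trans x4
    · rw [← hi]; exact e5.trans x5
    · rw [← hi]; exact e6.trans x6
  intro i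
  constructor
  · intro hi
    rw [tb_lor] at hi
    rcases (Bool.or_eq_true _ _).mp hi with hi | hi
    · by_contra hv
      exact hb ⟨i, Or.inr ⟨hi, by simpa using hv⟩⟩
    · exact hso i hi
  · intro hi
    by_contra hv
    exact hb ⟨i, Or.inl ⟨hi, by simpa using hv⟩⟩

end Pool.Agent.Helper241.Ln
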