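import Mathlib
import Pool.Agent.Helper241.LnStep
import Pool.Agent.Helper241.LnForb

namespace Pool.Agent.Helper241.Ln

theorem extPerm : ExtPerm := fun g hg => ext_perm g hg
theorem sortNorm : SortNorm := fun c => sort_norm c

theorem Conf.x_true {n : ℕ} (c : Conf n) {i j k : Fin n} (h : c.x i j k = true) : 0 < c.D i j k := by
  simpa [Conf.x] using h

theorem Conf.x_false {n : ℕ} (c : Conf n) {i j k : Fin n} (h : c.x i j k = false) (h1 : i ≠ j)
    (h2 : j ≠ k) (h3 : i ≠ k) : c.D i j k < 0 := by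
  have h4 : ¬ 0 < c.D i j k := by simpa [Conf.x] using h
  exact lt_of_le_of_ne (not_lt.mp h4) (c.D_ne h1 h2 h3)

theorem Conf.s_true {n : ℕ} (c : Conf n) {i j : Fin n} (h : c.s i j = true) : 0 < c.H i j := by
  simpa [Conf.s] using h

theorem Conf.s_false {n : ℕ} (c : Conf n) {i j : Fin n} (h : c.s i j = false) (h1 : i ≠ j) :
    c.H i j < 0 := by
  have h4 : ¬ 0 < c.H i j := by simpa [Conf.s] using h
  exact lt_of_le_of_ne (not_lt.mp h4) (c.H_ne h1)

def pF1 : List Lit :=
  [.x 0 1 2 true, .x 0 3 4 true, .x 0 1 3 true, .x 0 2 4 false, .x 0 1 4 true, .x 0 2 3 true]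

def pF2a : List Lit :=
  [.x 1 2 3 true, .x 0 2 3 false, .x 0 1 3 true, .x 0 1 2 false, .s 0 1 true, .s 0 2 true,
    .s 0 3 true, .s 1 2 true, .s 1 3 true, .s 2 3 true]

def pF2b : List Lit :=
  [.x 1 2 3 true, .x 0 2 3 false, .x 0 1 3 true, .x 0 1 2 false, .s 0 1 false, .s 0 2 true,
    .s 0 3 true, .s 1 2 true, .s 1 3 true, .s 2 3 true]

def pF2c : List Lit :=
  [.x 1 2 3 true, .x 0 2 3 false, .x 0 1 3 true, .x 0 1 2 false, .s 0 1 false, .s 0 2 true,
    .s 0 3 true, .s 1 2 true, .s 1 3 true, .s 2 3 false]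

def pF3 : List Lit :=
  [.x 0 1 2 true, .x 1 2 3 true, .x 0 2 3 false, .x 0 1 3 true, .x 1 2 4 true, .x 0 2 4 false,
    .x 0 1 4 true, .x 2 3 4 true, .x 1 3 4 false, .s 0 1 true, .s 0 2 true, .s 1 2 false,
    .s 0 3 false, .s 1 3 false, .s 0 4 true, .s 1 4 true]

theorem forbF1 : Forb0 pF1 := by
  intro c hc
  simp only [pF1, List.mem_cons, List.not_mem_nil, or_false, forall_eq_or_imp, forall_eq,
    Lit.sat, Bool.xor_false] at hc
  obtain ⟨h1, h2, h3, h4, h5, h6⟩ := hc
  have a1 := c.x_true h1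
  have a2 := c.x_true h2
  have a3 := c.x_true h3
  have a4 := c.x_false h4 (by decide) (by decide) (by decide)
  have a5 := c.x_true h5
  have a6 := c.x_true h6
  have g := c.gp (f8 0) (f8 1) (f8 2) (f8 3) (f8 4)
  have b1 := mul_pos a1 a2
  have b2 := mul_pos a3 (neg_pos.mpr a4)
  have b3 := mul_pos a5 a6
  linarith

theorem forbF2a : Forb0 pF2a := by
  intro c hc
  simp only [pF2a, List.mem_cons, List.not_mem_nil, or_false, forall_eq_or_imp, forall_eq,
    Lit.sat, Bool.xor_false] at hc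
  obtain ⟨h1, h2, h3, h4, h5, h6, h7, h8, h9, h10⟩ := hc
  exact f2a c (f8 0) (f8 1) (f8 2) (f8 3) (by decide) (by decide) (by decide) (by decide)
    (by decide) (by decide) (c.x_true h1) (c.x_false h2 (by decide) (by decide) (by decide))
    (c.x_true h3) (c.x_false h4 (by decide) (by decide) (by decide)) (c.s_true h5) (c.s_true h6)
    (c.s_true h7) (c.s_true h8) (c.s_true h9) (c.s_true h10)

theorem forbF2b : Forb0 pF2b := by
  intro c hc
  simp only [pF2b, List.mem_cons, List.not_mem_nil, or_false, forall_eq_or_imp, forall_eq,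
    Lit.sat, Bool.xor_false] at hc
  obtain ⟨h1, h2, h3, h4, h5, h6, h7, h8, h9, h10⟩ := hc
  exact f2b c (f8 0) (f8 1) (f8 2) (f8 3) (by decide) (by decide) (by decide) (by decide)
    (by decide) (by decide) (c.x_true h1) (c.x_false h2 (by decide) (by decide) (by decide))
    (c.x_true h3) (c.x_false h4 (by decide) (by decide) (by decide)) (c.s_false h5 (by decide))
    (c.s_true h6) (c.s_true h7) (c.s_true h8) (c.s_true h9) (c.s_true h10)

theorem forbF2c : Forb0 pF2c := by
  intro c hc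
  simp only [pF2c, List.mem_cons, List.not_mem_nil, or_false, forall_eq_or_imp, forall_eq,
    Lit.sat, Bool.xor_false] at hc
  obtain ⟨h1, h2, h3, h4, h5, h6, h7, h8, h9, h10⟩ := hc
  exact f2c c (f8 0) (f8 1) (f8 2) (f8 3) (by decide) (by decide) (by decide) (by decide)
    (by decide) (by decide) (c.x_true h1) (c.x_false h2 (by decide) (by decide) (by decide))
    (c.x_true h3) (c.x_false h4 (by decide) (by decide) (by decide)) (c.s_false h5 (by decide))
    (c.s_true h6) (c.s_true h7) (c.s_true h8) (c.s_true h9) (c.s_false h10 (by decide))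

theorem forbF3 : Forb0 pF3 := by
  intro c hc
  simp only [pF3, List.mem_cons, List.not_mem_nil, or_false, forall_eq_or_imp, forall_eq,
    Lit.sat, Bool.xor_false] at hc
  obtain ⟨h1, h2, h3, h4, h5, h6, h7, h8, h9, h10, h11, h12, h13, h14, h15, h16⟩ := hc
  exact f3 c (f8 0) (f8 1) (f8 2) (f8 3) (f8 4) (by decide) (by decide) (by decide) (by decide)
    (by decide) (by decide) (by decide) (by decide) (by decide) (by decide)
    (c.x_true h1) (c.x_true h2) (c.x_false h3 (by decide) (by decide) (by decide))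
    (c.x_true h4) (c.x_true h5) (c.x_false h6 (by decide) (by decide) (by decide))
    (c.x_true h7) (c.x_true h8) (c.x_false h9 (by decide) (by decide) (by decide))
    (c.s_true h10) (c.s_true h11) (c.s_false h12 (by decide)) (c.s_false h13 (by decide))
    (c.s_false h14 (by decide)) (c.s_true h15) (c.s_true h16)

/-- the patterns known at the start -/
def kF : List (List Lit) := [pF1, pF2a, pF2b, pF2c, pF3]

theorem hkF : ∀ P ∈ kF, Forb0 P ∧ ∀ l ∈ P, l.wf = true := by
  simp only [kF, List.mem_cons, List.not_mem_nil, or_false, forall_eq_or_imp, forall_eq]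
  exact ⟨⟨forbF1, by decide⟩, ⟨forbF2a, by decide⟩, ⟨forbF2b, by decide⟩, ⟨forbF2c, by decide⟩,
    ⟨forbF3, by decide⟩⟩

theorem snocK {K : List (List Lit)} (hK : ∀ P ∈ K, Forb0 P ∧ ∀ l ∈ P, l.wf = true) {Q : List Lit}
    (hQ : Forb0 Q) (hw : ∀ l ∈ Q, l.wf = true) :
    ∀ P ∈ K ++ [Q], Forb0 P ∧ ∀ l ∈ P, l.wf = true := by
  intro P hP
  rcases List.mem_append.mp hP with h | h
  · exact hK P h
  · have : P = Q := by simpa using h
    rw [this]; exact ⟨hQ, hw⟩

end Pool.Agent.Helper241.Ln
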